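import Pool.Agent.QMX.Preg

/-!
# QMX / Basis: bases

PROOFS.  `exists_max`: Zorn's lemma (`zorn_subset_nonempty`) for the sets `B` with `B₀ ⊆ B ⊆ H` and
`∀ b ∈ B, b ∉ cl (K ∪ (B \ {b}))`; unions of chains are of this kind by `cl_fin`. A maximal `B`
satisfies `H ⊆ cl (K ∪ B)`: otherwise take `x ∈ H`, `x ∉ cl (K ∪ B)`; then `insert x B` is again of
this kind: for `b ∈ B`, if `b ∈ cl (K ∪ (insert x B \ {b})) = cl (insert x (K ∪ (B \ {b})))` then, as
`b ∉ cl (K ∪ (B \ {b}))`, `exch` gives `x ∈ cl (insert b (K ∪ (B \ {b}))) ⊆ cl (K ∪ B)`.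
`exists_basis`: `exists_max` with `K = B₀ = ∅`.
`exists_drop`: `B` from `exists_basis`. `B` is infinite by `Inf H`. If `cl (B \ {x, y}) ⊆ cl F` with
`F` finite, then `H ⊆ cl B ⊆ cl (F ∪ {x, y})`.
`exists_basis_pair`: `exists_max` with `B₀ = {x, y}`, `H = univ`, `I = B`, `z` the inclusion. Here
`x ∉ cl (K ∪ {y})` by `exch` (`x ∉ cl K`, `y ∉ cl (insert x K)`).
`ind_insert`: if `B` itself is not independent over `insert y X`, then some `b ∈ B` is in
`cl (insert y (X ∪ (B \ {b})))` but not in `cl (X ∪ (B \ {b}))`, so `y ∈ cl (X ∪ B)` by `exch`; take a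
finite `s ⊆ B` with `y ∈ cl (X ∪ s)` and the smallest number of elements. If `s` is empty `y ∈ cl X` and
the claim is clear (any `b₀`). Otherwise let `b₀ ∈ s`. If `b ∈ B \ {b₀}` is in
`cl (insert y (X ∪ (B \ {b₀, b})))` then by `exch` `y ∈ cl (insert b (X ∪ (B \ {b₀, b}))) ⊆
cl (X ∪ (B \ {b₀}))`; by minimality of `s` and `exch` `b₀ ∈ cl (insert y (X ∪ (s \ {b₀}))) ⊆
cl (X ∪ (B \ {b₀}))`, a contradiction.
`exists_inf`: choose `b k ∉ cl (A ∪ {b i | i < k})` (the closure is countable, `M` is not). By `exch`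
the set `B` of the `b k` satisfies `∀ b ∈ B, b ∉ cl (A ∪ (B \ {b}))`. `K = cl (A ∪ B)`. `Inf K`: by
induction on the finite set `F` with `ind_insert` there is a finite set `B₁` such that `B \ B₁` is
independent over `A ∪ F`; an element of `B \ B₁` is not in `cl F`.
-/

set_option autoImplicit false

namespace Pool.Agent.QMX

variable {M : Type} (Q : Qm M)

private lemma chain_fin {c : Set (Set M)} (hc : IsChain (· ⊆ ·) c) (hne : c.Nonempty) {G : Set M}
    (hG : G.Finite) (h : G ⊆ ⋃₀ c) : ∃ B ∈ c, G ⊆ B := by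
  induction G, hG using Set.Finite.induction_on with
  | empty =>
    obtain ⟨B, hB⟩ := hne
    exact ⟨B, hB, Set.empty_subset _⟩
  | @insert a s ha hs ih =>
    obtain ⟨B, hB, hsB⟩ := ih ((Set.subset_insert a s).trans h)
    obtain ⟨B', hB', haB'⟩ := h (Set.mem_insert a s)
    rcases hc.total hB hB' with h1 | h1
    · refine ⟨B', hB', ?_⟩
      rintro y (rfl | hy)
      · exact haB'
      · exact h1 (hsB hy)
    · refine ⟨B, hB, ?_⟩
      rintro y (rfl | hy)
      · exact h1 haB'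
      · exact hsB hy

theorem Qm.exists_max (K H B₀ : Set M) (hB₀ : B₀ ⊆ H) (h : ∀ b ∈ B₀, b ∉ Q.cl (K ∪ (B₀ \ {b}))) :
    ∃ B : Set M, B₀ ⊆ B ∧ B ⊆ H ∧ (∀ b ∈ B, b ∉ Q.cl (K ∪ (B \ {b}))) ∧ H ⊆ Q.cl (K ∪ B) := by
  set S : Set (Set M) := {B | B₀ ⊆ B ∧ B ⊆ H ∧ ∀ b ∈ B, b ∉ Q.cl (K ∪ (B \ {b}))} with hS
  have hB₀S : B₀ ∈ S := ⟨subset_rfl, hB₀, h⟩
  obtain ⟨B, hB₀B, hmax⟩ := zorn_subset_nonempty S (by
    intro c hcS hc hne
    refine ⟨⋃₀ c, ⟨?_, ?_, ?_⟩, fun s hs => Set.subset_sUnion_of_mem hs⟩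
    · obtain ⟨B, hB⟩ := hne
      exact (hcS hB).1.trans (Set.subset_sUnion_of_mem hB)
    · exact Set.sUnion_subset fun B hB => (hcS hB).2.1
    · intro b hb hcl
      obtain ⟨F, hF, hFf, hbF⟩ := Q.cl_fin _ _ hcl
      obtain ⟨B, hB, hsub⟩ := chain_fin hc hne (G := insert b (F \ K)) (hFf.sdiff.insert b) (by
        rintro y (rfl | hy)
        · exact hb
        · exact ((hF hy.1).resolve_left hy.2).1)
      refine (hcS hB).2.2 b (hsub (Set.mem_insert _ _)) (Q.cl_mono _ _ ?_ hbF)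
      intro y hy
      by_cases hyK : y ∈ K
      · exact Or.inl hyK
      · exact Or.inr ⟨hsub (Set.mem_insert_of_mem _ ⟨hy, hyK⟩), ((hF hy).resolve_left hyK).2⟩)
    B₀ hB₀S
  obtain ⟨-, hBH, hind⟩ := hmax.prop
  refine ⟨B, hB₀B, hBH, hind, ?_⟩
  intro x hxH
  by_contra hx
  have hxB : x ∉ B := fun h1 => hx (Q.sub_cl _ (Or.inr h1))
  have hins : insert x B ∈ S := by
    refine ⟨hB₀B.trans (Set.subset_insert x B), Set.insert_subset hxH hBH, ?_⟩
    rintro b (rfl | hb) hcl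
    · refine hx (Q.cl_mono _ _ ?_ hcl)
      rintro y (hy | ⟨hy | hy, hy'⟩)
      · exact Or.inl hy
      · exact absurd hy hy'
      · exact Or.inr hy
    · have h1 : b ∈ Q.cl (insert x (K ∪ (B \ {b}))) := by
        refine Q.cl_mono _ _ ?_ hcl
        rintro y (hy | ⟨hy | hy, hy'⟩)
        · exact Or.inr (Or.inl hy)
        · exact Or.inl hy
        · exact Or.inr (Or.inr ⟨hy, hy'⟩)
      have h2 := Q.exch _ _ _ h1 (hind b hb)
      refine hx (Q.cl_mono _ _ ?_ h2)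
      rintro y (rfl | hy | hy)
      · exact Or.inr hb
      · exact Or.inl hy
      · exact Or.inr hy.1
  exact hxB (hmax.le_of_ge hins (Set.subset_insert x B) (Set.mem_insert x B))

theorem Qm.exists_basis (H : Set M) :
    ∃ B ⊆ H, H ⊆ Q.cl B ∧ ∀ b ∈ B, b ∉ Q.cl (B \ {b}) := by
  obtain ⟨B, -, hBH, hind, hcl⟩ := Q.exists_max ∅ H ∅ (Set.empty_subset _)
    (fun b hb => absurd hb (Set.notMem_empty b))
  refine ⟨B, hBH, ?_, ?_⟩
  · rwa [Set.empty_union] at hcl
  · intro b hb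
    have := hind b hb
    rwa [Set.empty_union] at this

theorem Qm.exists_drop (H : Set M) (hinf : Q.Inf H) :
    ∃ B ⊆ H, H ⊆ Q.cl B ∧ (∀ b ∈ B, b ∉ Q.cl (B \ {b})) ∧ B.Infinite ∧
      ∀ x y, Q.Inf (Q.cl (B \ {x, y})) := by
  obtain ⟨B, hBH, hcl, hind⟩ := Q.exists_basis H
  refine ⟨B, hBH, hcl, hind, fun hfin => hinf B hfin hcl, ?_⟩
  intro x y F hF hsub
  refine hinf (F ∪ {x, y}) (hF.union (Set.toFinite _)) (hcl.trans (Q.cl_le ?_))
  intro b hb
  by_cases hbxy : b ∈ ({x, y} : Set M)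
  · exact Q.sub_cl _ (Or.inr hbxy)
  · exact Q.cl_mono _ _ Set.subset_union_left (hsub (Q.sub_cl _ ⟨hb, hbxy⟩))

theorem Qm.exists_basis_pair (K : Set M) (x y : M) (hx : x ∉ Q.cl K)
    (hy : y ∉ Q.cl (insert x K)) :
    ∃ (I : Type) (z : I → M) (i j : I), z i = x ∧ z j = y ∧ i ≠ j ∧ Q.Ind K z ∧
      Q.cl (K ∪ Set.range z) = Set.univ := by
  have hxy : x ≠ y := by
    rintro rfl
    exact hy (Q.sub_cl _ (Set.mem_insert _ _))
  obtain ⟨B, hB₀, -, hind, hcl⟩ := Q.exists_max K Set.univ {x, y} (Set.subset_univ _) (by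
    rintro b (rfl | hb) hc
    · have h1 : b ∈ Q.cl (insert y K) := by
        refine Q.cl_mono _ _ ?_ hc
        rintro w (hw | ⟨hw | hw, hw'⟩)
        · exact Or.inr hw
        · exact absurd hw hw'
        · exact Or.inl hw
      exact hy (Q.exch _ _ _ h1 hx)
    · have hb' : b = y := hb
      subst hb'
      refine hy (Q.cl_mono _ _ ?_ hc)
      rintro w (hw | ⟨hw | hw, hw'⟩)
      · exact Or.inr hw
      · exact Or.inl hw
      · exact absurd hw hw')
  have hxB : x ∈ B := hB₀ (Or.inl rfl)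
  have hyB : y ∈ B := hB₀ (Or.inr rfl)
  refine ⟨B, Subtype.val, ⟨x, hxB⟩, ⟨y, hyB⟩, rfl, rfl, ?_, ?_, ?_⟩
  · intro h
    exact hxy (congrArg Subtype.val h)
  · intro j hj
    refine hind j.1 j.2 (Q.cl_mono _ _ ?_ hj)
    rintro w (hw | ⟨i, hi, rfl⟩)
    · exact Or.inl hw
    · refine Or.inr ⟨i.2, ?_⟩
      intro h
      exact hi (Subtype.ext h)
  · rw [Subtype.range_coe]
    exact Set.univ_subset_iff.1 hcl

theorem Qm.ind_insert (X B : Set M) (h : ∀ b ∈ B, b ∉ Q.cl (X ∪ (B \ {b}))) (y : M) :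
    ∃ b₀, ∀ b ∈ B \ {b₀}, b ∉ Q.cl (insert y X ∪ ((B \ {b₀}) \ {b})) := by
  by_cases hyX : y ∈ Q.cl X
  · refine ⟨y, fun b hb hc => h b hb.1 (Q.cl_le ?_ hc)⟩
    rintro w ((rfl | hw) | hw)
    · exact Q.cl_mono _ _ Set.subset_union_left hyX
    · exact Q.sub_cl _ (Or.inl hw)
    · exact Q.sub_cl _ (Or.inr ⟨hw.1.1, hw.2⟩)
  have key : ∃ b₀, y ∉ Q.cl (X ∪ (B \ {b₀})) := by
    by_cases hyB : y ∈ Q.cl (X ∪ B)
    · obtain ⟨F, hF, hFf, hyF⟩ := Q.cl_fin _ _ hyB
      have claim : ∀ s : Set M, s.Finite → s ⊆ B → y ∈ Q.cl (X ∪ s) →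
          ∃ b₀, y ∉ Q.cl (X ∪ (B \ {b₀})) := by
        intro s hs
        induction s, hs using Set.Finite.induction_on with
        | empty =>
          intro _ h1
          rw [Set.union_empty] at h1
          exact absurd h1 hyX
        | @insert b s hb hs ih =>
          intro hsB h1
          by_cases h2 : y ∈ Q.cl (X ∪ s)
          · exact ih ((Set.subset_insert b s).trans hsB) h2
          · rw [Set.union_insert] at h1
            have h3 := Q.exch _ _ _ h1 h2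
            refine ⟨b, fun h4 => ?_⟩
            have hbB : b ∈ B := hsB (Set.mem_insert b s)
            refine h b hbB (Q.cl_le ?_ h3)
            rintro w (rfl | hw | hw)
            · exact h4
            · exact Q.sub_cl _ (Or.inl hw)
            · refine Q.sub_cl _ (Or.inr ⟨hsB (Set.mem_insert_of_mem b hw), ?_⟩)
              rintro rfl
              exact hb hw
      refine claim (F \ X) hFf.sdiff ?_ ?_
      · intro w hw
        exact (hF hw.1).resolve_left hw.2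
      · refine Q.cl_mono _ _ ?_ hyF
        intro w hw
        by_cases hwX : w ∈ X
        · exact Or.inl hwX
        · exact Or.inr ⟨hw, hwX⟩
    · exact ⟨y, fun h1 => hyB (Q.cl_mono _ _ (Set.union_subset_union_right _ Set.sdiff_subset) h1)⟩
  obtain ⟨b₀, hb₀⟩ := key
  refine ⟨b₀, fun b hb hc => ?_⟩
  have h1 : b ∉ Q.cl (X ∪ ((B \ {b₀}) \ {b})) := by
    intro h2
    refine h b hb.1 (Q.cl_mono _ _ ?_ h2)
    rintro w (hw | hw)
    · exact Or.inl hw
    · exact Or.inr ⟨hw.1.1, hw.2⟩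
  rw [Set.insert_union] at hc
  have h3 := Q.exch _ _ _ hc h1
  refine hb₀ (Q.cl_mono _ _ ?_ h3)
  rintro w (rfl | hw | hw)
  · exact Or.inr hb
  · exact Or.inl hw
  · exact Or.inr hw.1

theorem Qm.exists_inf (A : Set M) (hA : A.Countable) (hM : ¬ (Set.univ : Set M).Countable) :
    ∃ K : Set M, A ⊆ K ∧ K.Countable ∧ Q.cl K ⊆ K ∧ Q.Inf K := by
  obtain ⟨B, -, -, hind, hcl⟩ := Q.exists_max A Set.univ ∅ (Set.empty_subset _)
    (fun b hb => absurd hb (Set.notMem_empty b))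
  have hBinf : B.Infinite := by
    intro hfin
    exact hM ((Q.cl_ctbl _ (hA.union hfin.countable)).mono hcl)
  set B' : Set M := Set.range fun n : ℕ => ((hBinf.natEmbedding B n : B) : M) with hB'
  have hB'B : B' ⊆ B := by
    rintro _ ⟨n, rfl⟩
    exact (hBinf.natEmbedding B n).2
  have hB'c : B'.Countable := Set.countable_range _
  have hB'i : B'.Infinite := by
    refine Set.infinite_range_of_injective ?_
    intro m n hmn
    exact (hBinf.natEmbedding B).injective (Subtype.ext hmn)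
  refine ⟨Q.cl (A ∪ B'), Set.subset_union_left.trans (Q.sub_cl _),
    Q.cl_ctbl _ (hA.union hB'c), Q.cl_cl _, ?_⟩
  have claim : ∀ F : Set M, F.Finite → ∃ B₁ : Set M, B₁.Finite ∧
      ∀ b ∈ B' \ B₁, b ∉ Q.cl ((F ∪ A) ∪ ((B' \ B₁) \ {b})) := by
    intro F hF
    induction F, hF using Set.Finite.induction_on with
    | empty =>
      refine ⟨∅, Set.finite_empty, fun b hb hc => ?_⟩
      refine hind b (hB'B hb.1) (Q.cl_mono _ _ ?_ hc)
      rintro w ((hw | hw) | hw)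
      · exact absurd hw (Set.notMem_empty w)
      · exact Or.inl hw
      · exact Or.inr ⟨hB'B hw.1.1, hw.2⟩
    | @insert y F hy hF ih =>
      obtain ⟨B₁, hB₁, h1⟩ := ih
      obtain ⟨b₀, hb₀⟩ := Q.ind_insert (F ∪ A) (B' \ B₁) h1 y
      refine ⟨insert b₀ B₁, hB₁.insert b₀, ?_⟩
      have e1 : B' \ insert b₀ B₁ = (B' \ B₁) \ {b₀} := by
        ext w
        constructor
        · rintro ⟨hw, hw'⟩
          exact ⟨⟨hw, fun h => hw' (Or.inr h)⟩, fun h => hw' (Or.inl h)⟩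
        · rintro ⟨⟨hw, hw'⟩, hw''⟩
          refine ⟨hw, ?_⟩
          rintro (h | h)
          · exact hw'' h
          · exact hw' h
      rw [e1, Set.insert_union]
      exact hb₀
  intro F hF hsub
  obtain ⟨B₁, hB₁, h1⟩ := claim F hF
  obtain ⟨b, hb⟩ := (hB'i.sdiff hB₁).nonempty
  refine h1 b hb (Q.cl_mono _ _ ?_ (hsub (Q.sub_cl _ (Or.inr hb.1))))
  intro w hw
  exact Or.inl (Or.inl hw)

end Pool.Agent.QMX
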