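import Pool.Agent.QMX.Trans

/-!
# QMX / Bf: extension of elementary maps to the closure (back and forth)

PROOF of `forth`.  Let `D = fst '' Δ ∪ {a}` (finite), `c` from `hFd`. `gr h c ∪ Δ` is a finite
elementary graph; by `el_hom` there is `a'` with `El (insert (a, a') (gr h c ∪ Δ))`. Now `transfer`
for `insert (a, a') Δ`.
PROOF of `back`.  `k` from `exists_inv` for `h` on `Y`, `k '' (h '' Y) = Y`; `forth` for `k`, `h '' Y`
and the swapped graph of `Δ`; reverse (`rev`).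
PROOF of `bf`.  `cl Y`, `cl (h '' Y)` are countable (`cl_ctbl`); if they are empty everything is
trivial, otherwise enumerate them (`Set.Countable.exists_eq_range`). By `forth` and `back` construct
`Δ 0 = Δ ⊆ Δ 1 ⊆ ...` finite, with domain in `cl Y`, `El (gr h Y ∪ Δ n)`, such that the `n`-th
element of `cl Y` is in the domain and the `n`-th element of `cl (h '' Y)` is in the range of
`Δ (n + 1)` (elements of the domain / range in the closures: `dom_cl` and its reverse). By `el_chain`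
the graph `Γ = gr h Y ∪ ⋃ Δ n` is elementary; it is the graph of a map `g` on `cl Y` (`el_fun`,
`choose`).
-/

set_option autoImplicit false

namespace Pool.Agent.QMX

variable {M : Type} (Q : Qm M)

theorem Qm.forth (Y : Set M) (h : M → M) (hFd : Q.Fd Y) (Δ : Set (M × M)) (hΔ : Δ.Finite)
    (hΔY : ∀ p ∈ Δ, p.1 ∈ Q.cl Y) (hel : Q.El (gr h Y ∪ Δ)) (a : M) (ha : a ∈ Q.cl Y) :
    ∃ a', Q.El (gr h Y ∪ insert (a, a') Δ) := by
  have hDfin : (insert a (Prod.fst '' Δ)).Finite := (hΔ.image _).insert a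
  have hDsub : insert a (Prod.fst '' Δ) ⊆ Q.cl Y := by
    intro x hx
    rcases hx with rfl | ⟨p, hp, rfl⟩
    · exact ha
    · exact hΔY p hp
  obtain ⟨c, hcY, hcf, hdet⟩ := hFd _ hDfin hDsub
  have hc : Q.El (gr h c ∪ Δ) :=
    Q.el_mono _ _ (Set.union_subset_union_left _ (gr_mono h hcY)) hel
  have hcfin : (gr h c ∪ Δ).Finite := (hcf.image _).union hΔ
  obtain ⟨a', ha'⟩ := Q.el_hom _ hcfin hc a
  refine ⟨a', Q.transfer h Y c _ (Q.el_mono _ _ Set.subset_union_left hel) hcY hcf hDfin hdet _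
    ?_ ?_⟩
  · intro p hp
    rcases hp with rfl | hp
    · exact Or.inl rfl
    · exact Or.inr ⟨p, hp, rfl⟩
  · rw [Set.union_insert]
    exact ha'

theorem Qm.back (Y : Set M) (h : M → M) (hFd : Q.Fd (h '' Y)) (Δ : Set (M × M)) (hΔ : Δ.Finite)
    (hΔY : ∀ p ∈ Δ, p.1 ∈ Q.cl Y) (hel : Q.El (gr h Y ∪ Δ)) (a' : M)
    (ha : a' ∈ Q.cl (h '' Y)) : ∃ a ∈ Q.cl Y, Q.El (gr h Y ∪ insert (a, a') Δ) := by
  obtain ⟨k, hk, -⟩ := Q.exists_inv (Q.el_mono _ _ Set.subset_union_left hel)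
  have hkY : k '' (h '' Y) = Y := by
    ext x
    constructor
    · rintro ⟨_, ⟨y, hy, rfl⟩, rfl⟩
      rw [hk y hy]
      exact hy
    · intro hx
      exact ⟨h x, ⟨x, hx, rfl⟩, hk x hx⟩
  have hel' : Q.El (gr k (h '' Y) ∪ Prod.swap '' Δ) := by
    refine Q.rev hel ?_
    intro p hp
    rcases hp with ⟨_, ⟨y, hy, rfl⟩, rfl⟩ | ⟨q, hq, rfl⟩
    · refine Or.inl ⟨y, hy, ?_⟩
      show (y, h y) = (k (h y), h y)
      rw [hk y hy]
    · exact Or.inr hq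
  obtain ⟨a, haEl⟩ := Q.forth (h '' Y) k hFd (Prod.swap '' Δ) (hΔ.image _) (by
    rintro p ⟨q, hq, rfl⟩
    exact Q.dom_cl hel hq (hΔY q hq)) hel' a' ha
  have haY : a ∈ Q.cl Y := by
    have h1 := Q.dom_cl haEl (p := (a', a)) (Or.inl rfl) ha
    rw [hkY] at h1
    exact h1
  refine ⟨a, haY, Q.rev haEl ?_⟩
  intro p hp
  rcases hp with ⟨y, hy, rfl⟩ | hp | hp
  · refine Or.inl ⟨h y, ⟨y, hy, rfl⟩, ?_⟩
    show (h y, k (h y)) = (h y, y)
    rw [hk y hy]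
  · subst hp
    exact Or.inr (Or.inl rfl)
  · exact Or.inr (Or.inr ⟨p, hp, rfl⟩)

/-- Back and forth: extension of an elementary map to the closure. -/
theorem Qm.bf (Y : Set M) (hYc : Y.Countable) (h : M → M) (hFd : Q.Fd Y) (hFd' : Q.Fd (h '' Y))
    (Δ : Set (M × M)) (hΔ : Δ.Finite) (hΔY : ∀ p ∈ Δ, p.1 ∈ Q.cl Y)
    (hel : Q.El (gr h Y ∪ Δ)) :
    ∃ g : M → M, Q.El (gr g (Q.cl Y)) ∧ Set.EqOn g h Y ∧ (∀ p ∈ Δ, g p.1 = p.2) ∧
      g '' Q.cl Y = Q.cl (h '' Y) := by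
  rcases isEmpty_or_nonempty M with hM | hM
  · refine ⟨h, Q.el_mono _ _ (fun p _ => (IsEmpty.false p.1).elim) Q.el_id,
      fun x _ => (IsEmpty.false x).elim, fun p _ => (IsEmpty.false p.1).elim, ?_⟩
    ext x
    exact (IsEmpty.false x).elim
  obtain ⟨e, he⟩ := Set.countable_iff_exists_subset_range.1 (Q.cl_ctbl Y hYc)
  obtain ⟨e', he'⟩ := Set.countable_iff_exists_subset_range.1 (Q.cl_ctbl (h '' Y) (hYc.image h))
  let S : Type := {D : Set (M × M) // D.Finite ∧ (∀ p ∈ D, p.1 ∈ Q.cl Y) ∧ Q.El (gr h Y ∪ D)}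
  have step : ∀ (n : ℕ) (s : S), ∃ t : S, s.1 ⊆ t.1 ∧
      (e n ∈ Q.cl Y → ∃ y, (e n, y) ∈ t.1) ∧
      (e' n ∈ Q.cl (h '' Y) → ∃ x, (x, e' n) ∈ t.1) := by
    intro n s
    have s1 : ∃ t : S, s.1 ⊆ t.1 ∧ (e n ∈ Q.cl Y → ∃ y, (e n, y) ∈ t.1) := by
      by_cases hn : e n ∈ Q.cl Y
      · obtain ⟨y, hy⟩ := Q.forth Y h hFd s.1 s.2.1 s.2.2.1 s.2.2.2 (e n) hn
        refine ⟨⟨insert (e n, y) s.1, s.2.1.insert _, ?_, hy⟩, Set.subset_insert _ _,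
          fun _ => ⟨y, Or.inl rfl⟩⟩
        intro p hp
        rcases hp with rfl | hp
        · exact hn
        · exact s.2.2.1 p hp
      · exact ⟨s, le_refl _, fun h => absurd h hn⟩
    obtain ⟨t, hst, ht⟩ := s1
    by_cases hn : e' n ∈ Q.cl (h '' Y)
    · obtain ⟨x, hx, hxEl⟩ := Q.back Y h hFd' t.1 t.2.1 t.2.2.1 t.2.2.2 (e' n) hn
      refine ⟨⟨insert (x, e' n) t.1, t.2.1.insert _, ?_, hxEl⟩,
        hst.trans (Set.subset_insert _ _), ?_, fun _ => ⟨x, Or.inl rfl⟩⟩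
      · intro p hp
        rcases hp with rfl | hp
        · exact hx
        · exact t.2.2.1 p hp
      · intro hn'
        obtain ⟨y, hy⟩ := ht hn'
        exact ⟨y, Or.inr hy⟩
    · exact ⟨t, hst, ht, fun h => absurd h hn⟩
  choose F hF1 hF2 hF3 using step
  let sq : ℕ → S := fun n => Nat.rec ⟨Δ, hΔ, hΔY, hel⟩ (fun n s => F n s) n
  have hsq : ∀ n, sq (n + 1) = F n (sq n) := fun n => rfl
  have hmono : ∀ n, (sq n).1 ⊆ (sq (n + 1)).1 := fun n => hF1 n (sq n)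
  have hΓ : Q.El (gr h Y ∪ ⋃ n, (sq n).1) :=
    Q.el_chain (gr h Y) (fun n => (sq n).1) hmono (fun n => (sq n).2.2.2)
  have hg' : ∀ x, ∃ y, x ∈ Q.cl Y → (x, y) ∈ gr h Y ∪ ⋃ n, (sq n).1 := by
    intro x
    by_cases hx : x ∈ Q.cl Y
    · obtain ⟨n, rfl⟩ := he hx
      obtain ⟨y, hy⟩ := hF2 n (sq n) hx
      exact ⟨y, fun _ => Or.inr (Set.mem_iUnion.2 ⟨n + 1, hy⟩)⟩
    · exact ⟨x, fun h => absurd h hx⟩
  choose g hg using hg'
  have hgsub : gr g (Q.cl Y) ⊆ gr h Y ∪ ⋃ n, (sq n).1 := by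
    rintro p ⟨x, hx, rfl⟩
    exact hg x hx
  refine ⟨g, Q.el_mono _ _ hgsub hΓ, ?_, ?_, ?_⟩
  · intro x hx
    exact Q.el_fun _ hΓ x _ _ (hg x (Q.sub_cl Y hx)) (Or.inl ⟨x, hx, rfl⟩)
  · intro p hp
    exact Q.el_fun _ hΓ p.1 _ _ (hg p.1 (hΔY p hp)) (Or.inr (Set.mem_iUnion.2 ⟨0, hp⟩))
  · ext y
    constructor
    · rintro ⟨x, hx, rfl⟩
      have h1 : Q.El (gr h Y ∪ gr g (Q.cl Y)) :=
        Q.el_mono _ _ (Set.union_subset Set.subset_union_left hgsub) hΓ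
      exact Q.dom_cl h1 (p := (x, g x)) ⟨x, hx, rfl⟩ hx
    · intro hy
      obtain ⟨n, rfl⟩ := he' hy
      obtain ⟨x, hx⟩ := hF3 n (sq n) hy
      have hxY : x ∈ Q.cl Y := (sq (n + 1)).2.2.1 (x, e' n) hx
      exact ⟨x, hxY, Q.el_fun _ hΓ x _ _ (hg x hxY) (Or.inr (Set.mem_iUnion.2 ⟨n + 1, hx⟩))⟩

end Pool.Agent.QMX
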