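import Pool.Agent.QMX.CEl

/-!
# QMX / CBf: pairs of the back and forth system of EXL give elementary graphs

PROOF of `ty_of_bf`.  `Definable.iff_of_bf` for `P = Bf K φ` and `A = K₀ ⊆ K`; the hypotheses are
checked as in the proof of `EXL.quasiminimal_phi`.
PROOF of `elC_of_pair`.  For a finite sequence `p` in `Γ` choose the `e`, `q` of the elements: this is
`Bf K φ n (fst ∘ p) (snd ∘ p)`.
PROOF of `elC_gen`.  `Bf.start` gives `ι, w, w', e, q` with `Pair K φ w w'` and `b = e 0 + ..`,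
`b' = e 0 + ..`; `elC_of_pair` for `insert (b, b') {(x, x) | x ∈ K}` (`q = 0` for the constants).
-/

set_option autoImplicit false

namespace Pool.Agent.QMX

open Pool.Agent.EXL

variable {K₀ K : Subfield ℂ} {φ : AddChar ℚ ℂ}

theorem ty_of_bf (hφ : ‖φ 1‖ ≠ 1) (hKc : (K : Set ℂ).Countable) (hK : Closed K φ) (hle : K₀ ≤ K)
    {n : ℕ} {v v' : Fin n → ℂ} (h : Bf K φ n v v') : Ty K₀ φ n v v' := by
  intro S hS
  have hpoly : ∀ (n : ℕ) (v v' : Fin n → ℂ), Bf K φ n v v' → ∀ f : MvPolynomial (Fin n) K,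
      MvPolynomial.aeval v f = 0 → MvPolynomial.aeval v' f = 0 := fun n v v' h f hf => h.poly f hf
  have hiff := hS.iff_of_bf (P := fun n => Bf K φ n) (fun n v v' h => h.symm)
    (by
      intro n v v' h i a ha hv
      have h1 := hpoly n v v' h (MvPolynomial.X i - MvPolynomial.C ⟨a, hle ha⟩) (by
        rw [map_sub, MvPolynomial.aeval_X, MvPolynomial.aeval_C, hv]
        exact sub_self _)
      rw [map_sub, MvPolynomial.aeval_X, MvPolynomial.aeval_C] at h1
      exact sub_eq_zero.1 h1)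
    (by
      intro n v v' h i j hv
      have h1 := hpoly n v v' h (MvPolynomial.X i - MvPolynomial.X j) (by
        rw [map_sub, MvPolynomial.aeval_X, MvPolynomial.aeval_X, hv, sub_self])
      rw [map_sub, MvPolynomial.aeval_X, MvPolynomial.aeval_X] at h1
      exact sub_eq_zero.1 h1)
    (by
      intro n v v' h i j k hv
      have h1 := hpoly n v v' h (MvPolynomial.X i + MvPolynomial.X j - MvPolynomial.X k) (by
        rw [map_sub, map_add, MvPolynomial.aeval_X, MvPolynomial.aeval_X, MvPolynomial.aeval_X, hv,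
          sub_self])
      rw [map_sub, map_add, MvPolynomial.aeval_X, MvPolynomial.aeval_X,
        MvPolynomial.aeval_X] at h1
      exact sub_eq_zero.1 h1)
    (by
      intro n v v' h i j k hv
      have h1 := hpoly n v v' h (MvPolynomial.X i * MvPolynomial.X j - MvPolynomial.X k) (by
        rw [map_sub, map_mul, MvPolynomial.aeval_X, MvPolynomial.aeval_X, MvPolynomial.aeval_X, hv,
          sub_self])
      rw [map_sub, map_mul, MvPolynomial.aeval_X, MvPolynomial.aeval_X,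
        MvPolynomial.aeval_X] at h1
      exact sub_eq_zero.1 h1)
    (fun n v v' h i j hv => h.rel hK i j hv)
    (fun n v v' h z => h.step hφ hKc hK z)
  exact hiff v v' h

theorem elC_of_pair (hφ : ‖φ 1‖ ≠ 1) (hKc : (K : Set ℂ).Countable) (hK : Closed K φ)
    (hle : K₀ ≤ K) {ι : Type} [Fintype ι] (w w' : ι → X) (hp : Pair K φ w w')
    (Γ : Set (ℂ × ℂ)) (hΓ : ∀ p ∈ Γ, ∃ e ∈ K, ∃ q : ι → ℚ,
      p.1 = e + ∑ j, (q j : ℂ) * (w j).1 ∧ p.2 = e + ∑ j, (q j : ℂ) * (w' j).1) :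
    ElC K₀ φ Γ := by
  intro n p hpn
  choose e he q h1 h2 using fun i => hΓ (p i) (hpn i)
  exact ty_of_bf hφ hKc hK hle ⟨ι, inferInstance, w, w', hp, e, q, he, h1, h2⟩

theorem elC_gen (hφ : ‖φ 1‖ ≠ 1) (hKc : (K : Set ℂ).Countable) (hK : Closed K φ) (hle : K₀ ≤ K)
    (b b' : ℂ) (hb : b ∉ K) (hb' : b' ∉ K) :
    ElC K₀ φ (insert (b, b') ((fun x : ℂ => (x, id x)) '' (K : Set ℂ))) := by
  obtain ⟨ι, _, w, w', hp, e, q, he, h1, h2⟩ := Bf.start hK b b' hb hb'
  refine elC_of_pair hφ hKc hK hle w w' hp _ ?_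
  rintro r (rfl | ⟨x, hx, rfl⟩)
  · exact ⟨e 0, he 0, q 0, h1 0, h2 0⟩
  · refine ⟨x, hx, 0, ?_, ?_⟩
    · simp
    · simp

end Pool.Agent.QMX
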