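import Pool.Agent.EXL.Bf

/-!
# QMX / CCl: finitary character and exchange of the exponential closure

PROOF of `cl_fin`.  As `cl_cert` (EXL/Cert.lean) with the base field `k = ℚ` (`(⊥ : Subfield ℂ)`, or
`ℤ`-derivations and `Ω[ℂ⁄ℤ]`): let `S ⊆ Ω` be the `ℂ`-subspace generated by all
`d (exp a) - exp a • d a`, `a ∈ ℂ`, and all `d x`, `x ∈ A`. If `d z ∉ S` a linear functional gives a
derivation in `EDer ⊓ DerOver A` which does not kill `z`. So `d z` is a finite linear combination of
the generators; let `F` be the finite set of the `x ∈ A` which occur.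
PROOF of `exchange`.  There is `D₀ ∈ EDer ⊓ DerOver A` with `D₀ z ≠ 0`. Let `D ∈ EDer ⊓ DerOver A`,
`D z = 0`, and suppose `D y ≠ 0`. `D₁ = D₀ - (D₀ y / D y) • D` is in `EDer ⊓ DerOver (insert y A)`, so
`D₁ z = 0`; but `D₁ z = D₀ z`.
-/

set_option autoImplicit false

namespace Pool.Agent.QMX

open Pool.Agent.EXL

open scoped KaehlerDifferential

theorem cl_fin (A : Set ℂ) (z : ℂ) (hz : z ∈ cl A) : ∃ F ⊆ A, F.Finite ∧ z ∈ cl F := by
  classical
  set δ := KaehlerDifferential.D ℤ ℂ with hδ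
  set v : ℂ → Ω[ℂ⁄ℤ] := fun a => δ (Complex.exp a) - Complex.exp a • δ a with hv
  have hmem : δ z ∈ Submodule.span ℂ (Set.range v ∪ δ '' A) := by
    by_contra hn
    obtain ⟨f, hf, hS⟩ := Submodule.exists_le_ker_of_notMem hn
    let D : Derivation ℤ ℂ ℂ := f.compDer δ
    have hD : ∀ x, D x = f (δ x) := fun x => rfl
    have h1 : D ∈ EDer ⊓ DerOver A := by
      refine ⟨?_, ?_⟩
      · intro a
        have h2 : v a ∈ LinearMap.ker f := hS (Submodule.subset_span (Or.inl ⟨a, rfl⟩))
        rw [LinearMap.mem_ker, hv] at h2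
        simp only [map_sub, map_smul, smul_eq_mul] at h2
        rw [hD, hD]
        exact sub_eq_zero.1 h2
      · intro x hx
        have h2 : δ x ∈ LinearMap.ker f := hS (Submodule.subset_span (Or.inr ⟨x, hx, rfl⟩))
        rw [hD]
        exact h2
    exact hf (by rw [← hD]; exact hz D h1)
  obtain ⟨T, hT, hzT⟩ := Submodule.mem_span_finite_of_mem_span hmem
  refine ⟨(((T.filter (· ∈ δ '' A)).image (Function.invFunOn δ A) : Finset ℂ) : Set ℂ), ?_,
    Finset.finite_toSet _, ?_⟩
  · intro x hx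
    rw [Finset.mem_coe, Finset.mem_image] at hx
    obtain ⟨t, ht, rfl⟩ := hx
    rw [Finset.mem_filter] at ht
    exact Function.invFunOn_mem ht.2
  · intro D hD
    have hlift : ∀ x, D.liftKaehlerDifferential (δ x) = D x := fun x =>
      D.liftKaehlerDifferential_comp_D x
    have hker : Submodule.span ℂ (T : Set Ω[ℂ⁄ℤ]) ≤
        LinearMap.ker D.liftKaehlerDifferential := by
      rw [Submodule.span_le]
      intro t ht
      rw [SetLike.mem_coe, LinearMap.mem_ker]
      rcases hT ht with ⟨a, rfl⟩ | h2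
      · rw [hv]
        simp only [map_sub, map_smul, smul_eq_mul, hlift]
        rw [hD.1 a, sub_self]
      · have h3 : δ (Function.invFunOn δ A t) = t := Function.invFunOn_eq h2
        rw [← h3, hlift]
        refine hD.2 _ ?_
        rw [Finset.mem_coe, Finset.mem_image]
        exact ⟨t, Finset.mem_filter.2 ⟨ht, h2⟩, rfl⟩
    have h4 : δ z ∈ LinearMap.ker D.liftKaehlerDifferential := hker hzT
    rw [LinearMap.mem_ker, hlift] at h4
    exact h4

theorem exchange (A : Set ℂ) (y z : ℂ) (hz : z ∈ cl (insert y A)) (hzA : z ∉ cl A) :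
    y ∈ cl (insert z A) := by
  classical
  have h0 : ∃ D₀ ∈ EDer ⊓ DerOver A, D₀ z ≠ 0 := by
    by_contra hn
    push Not at hn
    exact hzA hn
  obtain ⟨D₀, hD₀, hne⟩ := h0
  intro D hD
  by_contra hy
  have hDA : D ∈ EDer ⊓ DerOver A := ⟨hD.1, fun x hx => hD.2 x (Set.mem_insert_of_mem _ hx)⟩
  have hDz : D z = 0 := hD.2 z (Set.mem_insert _ _)
  have h1 : D₀ - (D₀ y / D y) • D ∈ EDer ⊓ DerOver A :=
    Submodule.sub_mem _ hD₀ (Submodule.smul_mem _ _ hDA)
  have h2 : D₀ - (D₀ y / D y) • D ∈ EDer ⊓ DerOver (insert y A) := by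
    refine ⟨h1.1, fun x hx => ?_⟩
    rcases hx with rfl | hx
    · rw [Derivation.sub_apply, Derivation.smul_apply, smul_eq_mul, div_mul_cancel₀ _ hy,
        sub_self]
    · exact h1.2 x hx
  have h3 := hz _ h2
  rw [Derivation.sub_apply, Derivation.smul_apply, hDz, smul_zero, sub_zero] at h3
  exact hne h3

end Pool.Agent.QMX
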