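import Pool.Agent.QMX.CTy

/-!
# QMX / CEl: elementary graphs in `ℂ`

PROOFS.  `elC_range`: every finite sequence of pairs in the range of `p` is a reindexing of `p`.
`elC_fin`: the range of a finite sequence is finite. `elC_comp`: choose the middle elements.
`elC_hom`: enumerate the finite set `Γ` as the range of some `p : Fin n → ℂ × ℂ`
(`Set.Finite.exists...`, or `Finset.equivFin`); `Ty.hom`; `elC_range` for `Fin.snoc p (b, b')`.
`elC_poly`: `σ ≃ Fin n`, `Ty.poly` for the renamed polynomial.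
`elC_poly_coeff`: apply `elC_poly` to the universal polynomial
`∑ m ∈ f.support, X (inl m) * ∏ i, X (inr i) ^ m i` in `MvPolynomial (f.support ⊕ σ) K₀` and the points
`Sum.elim (coeff m f) x`, `Sum.elim (coeff m f) x'`.
-/

set_option autoImplicit false

namespace Pool.Agent.QMX

open Pool.Agent.EXL

/-- Elementary graphs. -/
def ElC (K₀ : Subfield ℂ) (φ : AddChar ℚ ℂ) (Γ : Set (ℂ × ℂ)) : Prop :=
  ∀ (n : ℕ) (p : Fin n → ℂ × ℂ), (∀ i, p i ∈ Γ) →
    Ty K₀ φ n (fun i => (p i).1) (fun i => (p i).2)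

variable {K₀ : Subfield ℂ} {φ : AddChar ℚ ℂ}

theorem elC_range {n : ℕ} (p : Fin n → ℂ × ℂ)
    (h : Ty K₀ φ n (fun i => (p i).1) (fun i => (p i).2)) : ElC K₀ φ (Set.range p) := by
  intro m q hq
  choose σ hσ using hq
  have h1 := h.reindex σ
  have h2 : (fun i => (q i).1) = (fun i => (p i).1) ∘ σ := by
    funext i
    rw [Function.comp_apply, hσ]
  have h3 : (fun i => (q i).2) = (fun i => (p i).2) ∘ σ := by
    funext i
    rw [Function.comp_apply, hσ]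
  rw [h2, h3]
  exact h1

theorem elC_fin (Γ : Set (ℂ × ℂ)) (h : ∀ Δ ⊆ Γ, Δ.Finite → ElC K₀ φ Δ) : ElC K₀ φ Γ := by
  intro n p hp
  exact h (Set.range p) (by rintro _ ⟨i, rfl⟩; exact hp i) (Set.finite_range p) n p
    fun i => Set.mem_range_self i

theorem elC_mono (Γ Δ : Set (ℂ × ℂ)) (h : Γ ⊆ Δ) (hΔ : ElC K₀ φ Δ) : ElC K₀ φ Γ := by
  exact fun n p hp => hΔ n p fun i => h (hp i)

theorem elC_id : ElC K₀ φ ((fun x : ℂ => (x, id x)) '' Set.univ) := by
  intro n p hp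
  have h1 : (fun i => (p i).2) = fun i => (p i).1 := by
    funext i
    obtain ⟨x, -, hx⟩ := hp i
    rw [← hx]
    rfl
  rw [h1]
  exact Ty.refl _

theorem elC_symm (Γ : Set (ℂ × ℂ)) (h : ElC K₀ φ Γ) : ElC K₀ φ (Prod.swap '' Γ) := by
  intro n p hp
  have h1 : ∀ i, ((p i).2, (p i).1) ∈ Γ := by
    intro i
    obtain ⟨q, hq, hqp⟩ := hp i
    rw [← hqp]
    exact hq
  exact (h n (fun i => ((p i).2, (p i).1)) h1).symm

theorem elC_comp (Γ Δ : Set (ℂ × ℂ)) (h : ElC K₀ φ Γ) (h' : ElC K₀ φ Δ) :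
    ElC K₀ φ {p | ∃ y, (p.1, y) ∈ Γ ∧ (y, p.2) ∈ Δ} := by
  intro n p hp
  choose y hy using hp
  exact (h n (fun i => ((p i).1, y i)) fun i => (hy i).1).trans
    (h' n (fun i => (y i, (p i).2)) fun i => (hy i).2)

theorem elC_fun (Γ : Set (ℂ × ℂ)) (h : ElC K₀ φ Γ) (a b b' : ℂ) (hb : (a, b) ∈ Γ)
    (hb' : (a, b') ∈ Γ) : b = b' := by
  have h1 := h 2 ![(a, b), (a, b')] (by
    intro i
    fin_cases i
    · exact hb
    · exact hb')
  exact h1.eq 0 1 rfl

theorem elC_hom (Γ : Set (ℂ × ℂ)) (hf : Γ.Finite) (h : ElC K₀ φ Γ) (b : ℂ) :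
    ∃ b', ElC K₀ φ (insert (b, b') Γ) := by
  obtain ⟨n, p, -, hp⟩ := hf.fin_param
  have h1 := h n p fun i => hp ▸ Set.mem_range_self i
  obtain ⟨b', hb'⟩ := h1.hom b
  refine ⟨b', ?_⟩
  have h2 : (fun i => ((Fin.snoc p (b, b') : Fin (n + 1) → ℂ × ℂ) i).1) =
      Fin.snoc (fun i => (p i).1) b := by
    funext i
    refine Fin.lastCases ?_ (fun i => ?_) i
    · simp
    · simp
  have h3 : (fun i => ((Fin.snoc p (b, b') : Fin (n + 1) → ℂ × ℂ) i).2) =
      Fin.snoc (fun i => (p i).2) b' := by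
    funext i
    refine Fin.lastCases ?_ (fun i => ?_) i
    · simp
    · simp
  have h4 := elC_range (K₀ := K₀) (φ := φ) (Fin.snoc p (b, b') : Fin (n + 1) → ℂ × ℂ)
    (by rw [h2, h3]; exact hb')
  refine elC_mono _ _ ?_ h4
  rintro q (rfl | hq)
  · exact ⟨Fin.last n, by simp⟩
  · rw [← hp] at hq
    obtain ⟨i, rfl⟩ := hq
    exact ⟨Fin.castSucc i, by simp⟩

theorem elC_const {Γ : Set (ℂ × ℂ)} (h : ElC K₀ φ Γ) {p : ℂ × ℂ} (hp : p ∈ Γ)
    (h1 : p.1 ∈ K₀) : p.2 = p.1 := by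
  exact (h 1 (fun _ => p) fun _ => hp).const 0 h1

theorem elC_add {Γ : Set (ℂ × ℂ)} (h : ElC K₀ φ Γ) {a b c a' b' c' : ℂ} (ha : (a, a') ∈ Γ)
    (hb : (b, b') ∈ Γ) (hc : (c, c') ∈ Γ) (h1 : a + b = c) : a' + b' = c' := by
  have h2 := h 3 ![(a, a'), (b, b'), (c, c')] (by
    intro i
    fin_cases i
    · exact ha
    · exact hb
    · exact hc)
  exact h2.add 0 1 2 h1

theorem elC_mul {Γ : Set (ℂ × ℂ)} (h : ElC K₀ φ Γ) {a b c a' b' c' : ℂ} (ha : (a, a') ∈ Γ)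
    (hb : (b, b') ∈ Γ) (hc : (c, c') ∈ Γ) (h1 : a * b = c) : a' * b' = c' := by
  have h2 := h 3 ![(a, a'), (b, b'), (c, c')] (by
    intro i
    fin_cases i
    · exact ha
    · exact hb
    · exact hc)
  exact h2.mul 0 1 2 h1

theorem elC_rel {Γ : Set (ℂ × ℂ)} (h : ElC K₀ φ Γ) {a b a' b' : ℂ} (ha : (a, a') ∈ Γ)
    (hb : (b, b') ∈ Γ) (h1 : ExpMod (Set.range φ) a b) : ExpMod (Set.range φ) a' b' := by
  have h2 := h 2 ![(a, a'), (b, b')] (by
    intro i
    fin_cases i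
    · exact ha
    · exact hb)
  exact h2.rel 0 1 h1

theorem elC_poly {Γ : Set (ℂ × ℂ)} (h : ElC K₀ φ Γ) {σ : Type} [Finite σ] (x x' : σ → ℂ)
    (hx : ∀ i, (x i, x' i) ∈ Γ) (f : MvPolynomial σ K₀) (hf : MvPolynomial.aeval x f = 0) :
    MvPolynomial.aeval x' f = 0 := by
  obtain ⟨n, ⟨e⟩⟩ := Finite.exists_equiv_fin σ
  have h1 := h n (fun i => (x (e.symm i), x' (e.symm i))) fun i => hx _
  have h2 := h1.poly (MvPolynomial.rename e f) (by
    rw [MvPolynomial.aeval_rename]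
    convert hf using 2
    congr 1
    funext i
    simp)
  rw [MvPolynomial.aeval_rename] at h2
  convert h2 using 2
  congr 1
  funext i
  simp

/-- Polynomial relations with coefficients fixed by the elementary graph are preserved. -/
theorem elC_poly_coeff {Γ : Set (ℂ × ℂ)} (h : ElC K₀ φ Γ) {σ : Type} [Finite σ] (x x' : σ → ℂ)
    (hx : ∀ i, (x i, x' i) ∈ Γ) (K : Subfield ℂ) (f : MvPolynomial σ K)
    (hc : ∀ m ∈ f.support, (((MvPolynomial.coeff m f : K) : ℂ), ((MvPolynomial.coeff m f : K) : ℂ)) ∈ Γ)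
    (hf : MvPolynomial.aeval x f = 0) : MvPolynomial.aeval x' f = 0 := by
  have key : ∀ y : σ → ℂ, MvPolynomial.aeval
      (Sum.elim (fun m : f.support => ((MvPolynomial.coeff m.1 f : K) : ℂ)) y)
      (∑ m ∈ f.support.attach, MvPolynomial.X (Sum.inl m) *
        ∏ i ∈ m.1.support, MvPolynomial.X (Sum.inr i) ^ m.1 i :
          MvPolynomial (f.support ⊕ σ) K₀) = MvPolynomial.aeval y f := by
    intro y
    rw [map_sum, MvPolynomial.aeval_def (f := y), MvPolynomial.eval₂_eq,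
      ← Finset.sum_attach f.support]
    refine Finset.sum_congr rfl fun m _ => ?_
    rw [map_mul, map_prod, MvPolynomial.aeval_X, Sum.elim_inl]
    congr 1
    refine Finset.prod_congr rfl fun i _ => ?_
    rw [map_pow, MvPolynomial.aeval_X, Sum.elim_inr]
  rw [← key]
  refine elC_poly h (Sum.elim (fun m : f.support => ((MvPolynomial.coeff m.1 f : K) : ℂ)) x) _ ?_ _
    (by rw [key]; exact hf)
  rintro (m | i)
  · exact hc m.1 m.2
  · exact hx i

end Pool.Agent.QMX
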