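import Pool.Agent.EXL.Bf

/-!
# QMX / CGood: good bases of finite sets in the closure

PROOF of `good_unit`.  `stepA` for the empty tuples (see `EXL.Bf.start`), reindexed from
`Empty ⊕ Unit`, or directly: `Indep` because `w ∉ K`; `rho K = 1` (`rk_eq_zero_iff`, `rk_le_card`,
`w ∉ cl K`); `td ≥ 2` by `ax_closed` and `td ≤ 2` by `rk_le_card`.
PROOF of `good_ext_set`.  Induction on the finite set `D` with `ext_good`: from `u : κ → X` to
`Sum.elim u γ : κ ⊕ Fin s → X`; `cl (K ∪ range (fst ∘ w)) ⊆ cl (K ∪ range (fst ∘ u))`. The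
representations of the old elements are extended by zero coefficients.
PROOF of `mem_cl_of_rho`.  By `rk_sum` (or `rk_le_of_dep`) for `fst ∘ w` and `fst ∘ u` with `Δ = EDer ⊓
DerOver K`: `rk Δ (Sum.elim (fst ∘ w) (fst ∘ u)) = rk Δ (fst ∘ u)` (as `w = u ∘ j`), `= rk Δ (fst ∘ w)`, so the
rank of `fst ∘ u` on `Δ ⊓ DerOver (range (fst ∘ w))` is `0` (`rk_eq_zero_iff`).
-/

set_option autoImplicit false

namespace Pool.Agent.QMX

open Pool.Agent.EXL

variable {K : Subfield ℂ} {φ : AddChar ℚ ℂ}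

theorem good_unit (hK : Closed K φ) (w : ℂ) (hw : w ∉ K) :
    Good K φ (fun _ : Unit => ((w, 0) : X)) ∧ rho K (fun _ : Unit => ((w, 0) : X)) = 1 := by
  have hind : Indep K (fun _ : Unit => ((w, 0) : X)) := by
    intro q hq
    simp only [Finset.univ_unique, Finset.sum_singleton, PUnit.default_eq_unit] at hq
    funext j
    rcases j with ⟨⟩
    by_contra h0
    have h1 : ((q () : ℚ) : ℂ) ≠ 0 := by exact_mod_cast h0
    apply hw
    have h2 : w = ((q () : ℚ) : ℂ)⁻¹ * ((q () : ℂ) * w) := by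
      rw [← mul_assoc, inv_mul_cancel₀ h1, one_mul]
    rw [h2]
    exact mul_mem (inv_mem (SubfieldClass.ratCast_mem _ _)) hq
  have hrho : rho K (fun _ : Unit => ((w, 0) : X)) = 1 := by
    unfold rho
    refine le_antisymm ((rk_le_card _ _).trans (by simp)) (Nat.one_le_iff_ne_zero.2 fun h => hw ?_)
    rw [hK.mem_iff]
    intro D hD
    exact (rk_eq_zero_iff _ _).1 h D hD ()
  refine ⟨⟨hind, le_antisymm ?_ (ax_closed hK _ hind)⟩, hrho⟩
  rw [hrho]
  exact (rk_le_card _ _).trans (by simp)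

theorem good_ext_set (hK : Closed K φ) {ι : Type} [Fintype ι] (w : ι → X) (hw : Good K φ w)
    (D : Set ℂ) (hD : D.Finite)
    (hDK : ∀ d ∈ D, d ∈ cl ((K : Set ℂ) ∪ Set.range (fun j => (w j).1))) :
    ∃ (κ : Type) (_ : Fintype κ) (u : κ → X) (j : ι → κ), Good K φ u ∧ (∀ i, u (j i) = w i) ∧
      rho K u = rho K w ∧ ∀ d ∈ D, ∃ e ∈ K, ∃ q : κ → ℚ, d = e + ∑ k, (q k : ℂ) * (u k).1 := by
  induction D, hD using Set.Finite.induction_on with
  | empty => exact ⟨ι, inferInstance, w, id, hw, fun _ => rfl, rfl, fun d hd => hd.elim⟩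
  | @insert d D _ _ ih =>
    obtain ⟨κ, _, u, j, hu, huj, hr, hrep⟩ := ih fun x hx => hDK x (Set.mem_insert_of_mem d hx)
    have hd : d ∈ cl ((K : Set ℂ) ∪ Set.range (fun k => (u k).1)) := by
      refine cl_mono ?_ (hDK d (Set.mem_insert d D))
      refine Set.union_subset_union_right _ ?_
      rintro _ ⟨i, rfl⟩
      exact ⟨j i, congrArg Prod.fst (huj i)⟩
    obtain ⟨s, γ, hg, hr', c, hc, q, p, hd'⟩ := ext_good hK u hu d hd
    refine ⟨κ ⊕ Fin s, inferInstance, Sum.elim u γ, fun i => Sum.inl (j i), hg,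
      fun i => huj i, hr'.trans hr, ?_⟩
    intro x hx
    rcases Set.mem_insert_iff.1 hx with rfl | hx
    · refine ⟨c, hc, Sum.elim q p, ?_⟩
      rw [hd', Fintype.sum_sum_type]
      simp only [Sum.elim_inl, Sum.elim_inr]
      ring
    · obtain ⟨e, he, q', hq'⟩ := hrep x hx
      refine ⟨e, he, Sum.elim q' 0, ?_⟩
      rw [hq', Fintype.sum_sum_type]
      simp

theorem mem_cl_of_rho {ι κ : Type} [Fintype ι] [Fintype κ] (w : ι → X) (u : κ → X) (j : ι → κ)
    (hj : ∀ i, u (j i) = w i) (hr : rho K u = rho K w) (k : κ) :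
    (u k).1 ∈ cl ((K : Set ℂ) ∪ Set.range (fun j => (w j).1)) := by
  have h1 := rk_sum (EDer ⊓ DerOver (K : Set ℂ)) (fun j => (w j).1) (fun k => (u k).1)
  have h2 : rk (EDer ⊓ DerOver (K : Set ℂ)) (Sum.elim (fun j => (w j).1) (fun k => (u k).1)) =
      rk (EDer ⊓ DerOver (K : Set ℂ)) (fun k => (u k).1) := by
    apply rk_eq_of_dep
    · intro D _ h k
      exact h (Sum.inr k)
    · intro D _ h i
      rcases i with i | i
      · have := h (j i)
        rw [hj i] at this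
        exact this
      · exact h i
  have h3 : rk (EDer ⊓ DerOver (K : Set ℂ)) (fun k => (u k).1) =
      rk (EDer ⊓ DerOver (K : Set ℂ)) (fun j => (w j).1) := hr
  rw [h2, h3] at h1
  have h4 : rk (EDer ⊓ DerOver (K : Set ℂ) ⊓ DerOver (Set.range fun j => (w j).1))
      (fun k => (u k).1) = 0 := by omega
  intro D hD
  rw [derOver_union] at hD
  exact (rk_eq_zero_iff _ _).1 h4 D ⟨⟨hD.1, hD.2.1⟩, hD.2.2⟩ k

end Pool.Agent.QMX
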