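import Pool.Agent.EXL.Bf

/-!
# QMX / CSpec: specializations which are independent are generic

PROOF of `pair_of_spec`.  By `ax_closed` for `u'`:
`card κ + rho K u' ≤ td K (pt φ 1 u') = td K (pt φ N u')` (`td_pt`), and
`td K (pt φ N u) = td K (pt φ 1 u) = card κ + rho K u ≤ card κ + rho K u'`. `generic_of_td_le`
(`range_algebraMap`): `SameAt K φ N u u'`. By `hkum` they have the same type at all levels;
`SameAt.good` (EXL/Good.lean) for level 1 gives `Good K φ u'`.
PROOF of `exists_coeff`.  The kernel of `aeval P : MvPolynomial σ K → ℂ` is finitely generated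
(Noetherian: `σ` finite); `c` is the set of all coefficients (in `ℂ`) of the generators. If all
polynomials over `K` with coefficients in `c` which vanish at `P` also vanish at `P'` then the
generators vanish at `P'`, so all elements of the ideal.
-/

set_option autoImplicit false

namespace Pool.Agent.QMX

open Pool.Agent.EXL

variable {K : Subfield ℂ} {φ : AddChar ℚ ℂ}

theorem exists_coeff {σ : Type} [Finite σ] (P : σ → ℂ) :
    ∃ c : Set ℂ, c ⊆ (K : Set ℂ) ∧ c.Finite ∧ ∀ P' : σ → ℂ,
      (∀ f : MvPolynomial σ K, (∀ m ∈ f.support, ((MvPolynomial.coeff m f : K) : ℂ) ∈ c) →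
        MvPolynomial.aeval P f = 0 → MvPolynomial.aeval P' f = 0) →
      ∀ f : MvPolynomial σ K, MvPolynomial.aeval P f = 0 → MvPolynomial.aeval P' f = 0 := by
  classical
  obtain ⟨S, hS⟩ : (RingHom.ker (MvPolynomial.aeval P : MvPolynomial σ K →ₐ[K] ℂ)).FG :=
    (inferInstance : IsNoetherianRing (MvPolynomial σ K)).noetherian _
  refine ⟨⋃ f ∈ S, (fun m => ((MvPolynomial.coeff m f : K) : ℂ)) '' (f.support : Set (σ →₀ ℕ)),
    ?_, ?_, ?_⟩
  · intro x hx
    simp only [Set.mem_iUnion] at hx
    obtain ⟨f, _, m, _, rfl⟩ := hx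
    exact (MvPolynomial.coeff m f).2
  · exact Set.Finite.biUnion S.finite_toSet (fun f _ => (f.support.finite_toSet).image _)
  · intro P' h f hf
    have h1 : f ∈ Ideal.span (S : Set (MvPolynomial σ K)) := by
      rw [hS]
      exact hf
    have h2 : Ideal.span (S : Set (MvPolynomial σ K)) ≤
        RingHom.ker (MvPolynomial.aeval P' : MvPolynomial σ K →ₐ[K] ℂ) := by
      rw [Ideal.span_le]
      intro g hg
      refine h g ?_ ?_
      · intro m hm
        simp only [Set.mem_iUnion]
        exact ⟨g, hg, m, hm, rfl⟩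
      · have h3 : g ∈ Ideal.span (S : Set (MvPolynomial σ K)) := Ideal.subset_span hg
        rw [hS] at h3
        exact h3
    exact h2 h1

theorem pair_of_spec (hK : Closed K φ) {κ : Type} [Fintype κ] (u u' : κ → X)
    (hu : Good K φ u) (hu' : Indep K u') (hr : rho K u ≤ rho K u') (N : ℕ) (hN : 0 < N)
    (hkum : ∀ v : κ → X, SameAt K φ N u v → ∀ M : ℕ, 0 < M → SameAt K φ M u v)
    (hspec : ∀ f : MvPolynomial (κ ⊕ κ) K, MvPolynomial.aeval (pt φ N u) f = 0 →
      MvPolynomial.aeval (pt φ N u') f = 0) : Pair K φ u u' := by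
  have h1 : td (K : Set ℂ) (pt φ N u) ≤ td (K : Set ℂ) (pt φ N u') := by
    rw [td_pt hK u hN, td_pt hK u' hN, hu.2]
    exact (Nat.add_le_add_left hr _).trans (ax_closed hK u' hu')
  have h2 := generic_of_td_le (k := K) (pt φ N u) (pt φ N u') hspec
    (by rw [range_algebraMap]; exact h1)
  have h3 : ∀ M : ℕ, 0 < M → SameAt K φ M u u' := hkum u' (fun f => ⟨hspec f, h2 f⟩)
  exact ⟨hu, (h3 1 one_pos).good hK hu hr, h3⟩

end Pool.Agent.QMX
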