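import Pool.Agent.QMX.CInv
import Pool.Agent.QMX.CBf
import Pool.Agent.QMX.CGood
import Pool.Agent.QMX.CSpec

/-!
# QMX / CFd: finite determination of types

PROOF of `elC_fd_fun`.  `w₀ : Unit → X`, `w₀ = (w, 0)`, is good with `rho = 1` (`good_unit`).
`good_ext_set`: `κ, u, j` with `u (j ()) = (w, 0)`, `Good K φ u`, `rho K u = 1`, `d = e d + ∑ q d k (u k).1`
for `d ∈ D`. `N` from `kummer` for `u`. `c₁` from `exists_coeff` for `P = pt φ N u`; `c₂` the set of the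
`e d`; `c₃ ⊆ K` finite such that `(u k).1 ∈ cl (K₀ ∪ insert w c₃)` for all `k` (`mem_cl_of_rho` and `cl_fin`;
`K₀` may be added by `cl_mono`). `c = c₁ ∪ c₂ ∪ c₃`.
Let `g` satisfy `ElC (graph of id on insert w c ∪ graph of g on D)`. Extend this finite graph with `elC_hom`
(iterated; a private lemma for finite sets of elements) to the finitely many elements `(u k).1`,
`t k = ((N : ℚ)⁻¹ • u k).1`, `b k = ex φ ((N : ℚ)⁻¹ • u k)`, all `(q d k : ℂ) * (u k).1` and, if convenient, further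
auxiliary elements: images `a' k`, `t' k`, `b' k`. By `elC_poly_coeff` / `elC_poly` (linear relations with
rational coefficients): `a' k = N * t' k`, `a' (j ()) = w`, `g d = e d + ∑ q d k * a' k`. By `elC_rel`
(`b k = exp (t k) * φ ((N : ℚ)⁻¹ • u k).2`) `b' k = exp (t' k) * φ (r k)`. Put `u' k = (N : ℚ) • (t' k, r k)`,
so `(u' k).1 = a' k`, `pt φ N u' = Sum.elim a' b'`. By `elC_poly_coeff` and the choice of `c₁` all
polynomials over `K` which vanish at `pt φ N u` vanish at `pt φ N u'`.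
`Indep K u'`: suppose `∑ q k * a' k ∈ K`, `q ≠ 0`. `x = ∑ q k * (u k).1 ∉ K` (`Indep K u`), and
`x ∈ cl (K₀ ∪ insert w c₃)`, `x ∉ cl (K₀ ∪ c₃) ⊆ K`; by `exchange` `w ∈ cl (K₀ ∪ insert x c₃)`. Extend the graph
by `x ↦ x'` (`elC_hom`); `x' = ∑ q k * a' k` (`elC_poly`); by `elC_cl` for
`Δ = {(x, x')} ∪ {(y, y) | y ∈ c₃}` and `(w, w)`: `w ∈ cl (K₀ ∪ insert x' c₃) ⊆ K`, a contradiction.
`rho K u' ≥ 1`: `w ∉ K` (`rk_le_of_dep`, `good_unit`). `pair_of_spec`: `Pair K φ u u'`. `elC_of_pair` for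
the graph of `id` on `insert w K` and of `g` on `D`: `x = x + 0`, `w = 0 + 1 * (u (j ())).1`,
`d = e d + ..`.
PROOF of `elC_fd`.  Given `Δ`: by `elC_hom` (iterated) there is `g` with
`ElC (graph of id on insert w c ∪ Δ ∪ graph of g on D)` (the graph is finite: `Δ` is finite because it is
functional (`elC_fun`) with domain in the finite set `D`); `Δ ⊆` graph of `g` on `D` by `elC_fun`.
-/

set_option autoImplicit false

namespace Pool.Agent.QMX

open Pool.Agent.EXL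

variable {K₀ K : Subfield ℂ} {φ : AddChar ℚ ℂ}

/-- extension of a finite elementary graph to a finite set -/
private theorem hom_set (Γ : Set (ℂ × ℂ)) (hf : Γ.Finite) (h : ElC K₀ φ Γ) (S : Set ℂ)
    (hS : S.Finite) : ∃ f : ℂ → ℂ, ElC K₀ φ (Γ ∪ (fun x => (x, f x)) '' S) := by
  classical
  induction S, hS using Set.Finite.induction_on with
  | empty => exact ⟨id, by rw [Set.image_empty, Set.union_empty]; exact h⟩
  | @insert a S ha hS ih =>
    obtain ⟨f, hf'⟩ := ih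
    obtain ⟨a', ha'⟩ := elC_hom _ (hf.union (hS.image _)) hf' a
    refine ⟨Function.update f a a', elC_mono _ _ ?_ ha'⟩
    rintro p (hp | ⟨x, hx, rfl⟩)
    · exact Or.inr (Or.inl hp)
    · rcases Set.mem_insert_iff.1 hx with rfl | hx
      · left
        beta_reduce
        rw [Function.update_self]
      · right
        right
        refine ⟨x, hx, ?_⟩
        have hne : x ≠ a := fun h => ha (h ▸ hx)
        beta_reduce
        rw [Function.update_of_ne hne]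

/-- linear relations with rational coefficients are preserved -/
private theorem lin {Γ : Set (ℂ × ℂ)} (h : ElC K₀ φ Γ) {σ : Type} [Fintype σ] (x x' : σ → ℂ)
    (hx : ∀ i, (x i, x' i) ∈ Γ) (r : σ → ℚ) (e e' z z' : ℂ) (he : (e, e') ∈ Γ)
    (hz : (z, z') ∈ Γ) (heq : z = e + ∑ i, (r i : ℂ) * x i) :
    z' = e' + ∑ i, (r i : ℂ) * x' i := by
  let f : MvPolynomial (Option (Option σ)) K₀ := MvPolynomial.X none -
    (MvPolynomial.X (some none) + ∑ i, MvPolynomial.C (r i : K₀) * MvPolynomial.X (some (some i)))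
  have key : ∀ (y : σ → ℂ) (b a : ℂ), MvPolynomial.aeval
      (fun o : Option (Option σ) => o.elim a (fun o' => o'.elim b y)) f =
        a - (b + ∑ i, (r i : ℂ) * y i) := by
    intro y b a
    rw [map_sub, map_add, map_sum, MvPolynomial.aeval_X, MvPolynomial.aeval_X]
    congr 2
    refine Finset.sum_congr rfl fun i _ => ?_
    rw [map_mul, MvPolynomial.aeval_C, MvPolynomial.aeval_X]
    congr 1
  have h1 := elC_poly h (fun o : Option (Option σ) => o.elim z (fun o' => o'.elim e x))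
    (fun o : Option (Option σ) => o.elim z' (fun o' => o'.elim e' x')) (by
      rintro (_ | _ | i)
      · exact hz
      · exact he
      · exact hx i) f (by rw [key, heq, sub_self])
  rw [key, sub_eq_zero] at h1
  exact h1

theorem elC_fd_fun (hφ : ‖φ 1‖ ≠ 1) (hKc₀ : (K₀ : Set ℂ).Countable) (hK₀ : Closed K₀ φ)
    (hKc : (K : Set ℂ).Countable) (hK : Closed K φ) (hle : K₀ ≤ K) (w : ℂ) (hw : w ∉ K)
    (D : Set ℂ) (hD : D.Finite) (hDK : ∀ d ∈ D, d ∈ cl ((K : Set ℂ) ∪ {w})) :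
    ∃ c : Set ℂ, c ⊆ (K : Set ℂ) ∧ c.Finite ∧ ∀ g : ℂ → ℂ,
      ElC K₀ φ ((fun x : ℂ => (x, id x)) '' insert w c ∪ (fun x => (x, g x)) '' D) →
      ElC K₀ φ ((fun x : ℂ => (x, id x)) '' insert w (K : Set ℂ) ∪ (fun x => (x, g x)) '' D) := by
  classical
  obtain ⟨hgood, hrho⟩ := good_unit (φ := φ) hK w hw
  have hrange : Set.range (fun j : Unit => (((fun _ : Unit => ((w, 0) : X)) j).1)) = {w} := by
    ext x
    constructor
    · rintro ⟨_, rfl⟩
      rfl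
    · rintro rfl
      exact ⟨(), rfl⟩
  obtain ⟨κ, _, u, j, hu, huj, hr, hrep⟩ := good_ext_set hK (fun _ : Unit => ((w, 0) : X)) hgood
    D hD (by rw [hrange]; exact hDK)
  rw [hrho] at hr
  obtain ⟨N, hN, hkum⟩ := kummer hKc hK u hu.1
  obtain ⟨c₁, hc₁K, hc₁f, hc₁⟩ := exists_coeff (K := K) (pt φ N u)
  choose! e he q hq using hrep
  have hF : ∀ k, ∃ F ⊆ (K : Set ℂ) ∪ {w}, F.Finite ∧ (u k).1 ∈ cl F := by
    intro k
    refine cl_fin _ _ ?_
    rw [← hrange]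
    exact mem_cl_of_rho _ u j huj (hr.trans hrho.symm) k
  choose F hFK hFf hFu using hF
  obtain ⟨c₃, hc₃⟩ : ∃ c₃ : Set ℂ, c₃ = (⋃ k, F k) ∩ (K : Set ℂ) := ⟨_, rfl⟩
  have hc₃f : c₃.Finite := by
    rw [hc₃]
    exact (Set.finite_iUnion hFf).subset Set.inter_subset_left
  have hc₃K : c₃ ⊆ (K : Set ℂ) := by
    rw [hc₃]
    exact Set.inter_subset_right
  have hucl : ∀ k, (u k).1 ∈ cl (insert w ((K₀ : Set ℂ) ∪ c₃)) := by
    intro k
    refine cl_mono ?_ (hFu k)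
    intro x hx
    rcases hFK k hx with h1 | h1
    · refine Or.inr (Or.inr ?_)
      rw [hc₃]
      exact ⟨Set.mem_iUnion.2 ⟨k, hx⟩, h1⟩
    · exact Or.inl h1
  refine ⟨c₁ ∪ e '' D ∪ c₃, ?_, (hc₁f.union (hD.image e)).union hc₃f, ?_⟩
  · rintro x ((hx | ⟨d, hd, rfl⟩) | hx)
    · exact hc₁K hx
    · exact he d hd
    · exact hc₃K hx
  intro g hg
  obtain ⟨Γ₀, hΓ₀⟩ : ∃ Γ₀ : Set (ℂ × ℂ), Γ₀ = (fun x : ℂ => (x, id x)) ''
    insert w (c₁ ∪ e '' D ∪ c₃) ∪ (fun x => (x, g x)) '' D := ⟨_, rfl⟩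
  rw [← hΓ₀] at hg
  have hΓ₀f : Γ₀.Finite := by
    rw [hΓ₀]
    exact ((((hc₁f.union (hD.image e)).union hc₃f).insert w).image _).union (hD.image _)
  have hmemc : ∀ x ∈ insert w (c₁ ∪ e '' D ∪ c₃), (x, x) ∈ Γ₀ := by
    intro x hx
    rw [hΓ₀]
    exact Or.inl ⟨x, hx, rfl⟩
  have hmemD : ∀ d ∈ D, (d, g d) ∈ Γ₀ := by
    intro d hd
    rw [hΓ₀]
    exact Or.inr ⟨d, hd, rfl⟩
  -- the auxiliary elements
  obtain ⟨S, hS⟩ : ∃ S : Set ℂ, S = Set.range (fun k => (u k).1) ∪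
    Set.range (fun k => ((N : ℚ)⁻¹ • u k).1) ∪ Set.range (fun k => ex φ ((N : ℚ)⁻¹ • u k)) ∪ {0} :=
    ⟨_, rfl⟩
  have hSf : S.Finite := by
    rw [hS]
    exact (((Set.finite_range _).union (Set.finite_range _)).union (Set.finite_range _)).union
      (Set.finite_singleton 0)
  obtain ⟨f, hf⟩ := hom_set Γ₀ hΓ₀f hg S hSf
  obtain ⟨Γ₁, hΓ₁⟩ : ∃ Γ₁ : Set (ℂ × ℂ), Γ₁ = Γ₀ ∪ (fun x => (x, f x)) '' S := ⟨_, rfl⟩
  rw [← hΓ₁] at hf
  have hΓ₁f : Γ₁.Finite := by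
    rw [hΓ₁]
    exact hΓ₀f.union (hSf.image _)
  have hsub : Γ₀ ⊆ Γ₁ := by
    rw [hΓ₁]
    exact Set.subset_union_left
  have hmemS : ∀ x ∈ S, (x, f x) ∈ Γ₁ := by
    intro x hx
    rw [hΓ₁]
    exact Or.inr ⟨x, hx, rfl⟩
  have hSu : ∀ k, (u k).1 ∈ S := fun k => by
    rw [hS]
    exact Or.inl (Or.inl (Or.inl ⟨k, rfl⟩))
  have hSt : ∀ k, ((N : ℚ)⁻¹ • u k).1 ∈ S := fun k => by
    rw [hS]
    exact Or.inl (Or.inl (Or.inr ⟨k, rfl⟩))
  have hSb : ∀ k, ex φ ((N : ℚ)⁻¹ • u k) ∈ S := fun k => by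
    rw [hS]
    exact Or.inl (Or.inr ⟨k, rfl⟩)
  have h00 : ((0 : ℂ), (0 : ℂ)) ∈ Γ₁ := by
    have h1 := hmemS 0 (by rw [hS]; exact Or.inr rfl)
    have h2 := elC_const hf h1 K₀.zero_mem
    simp only at h2
    rw [h2] at h1
    exact h1
  have hNQ : (N : ℚ) ≠ 0 := by exact_mod_cast hN.ne'
  have hNC : (N : ℂ) ≠ 0 := by exact_mod_cast hN.ne'
  have hft : ∀ k, f (u k).1 = (N : ℂ) * f ((N : ℚ)⁻¹ • u k).1 := by
    intro k
    have h1 := lin hf (σ := Unit) (fun _ => ((N : ℚ)⁻¹ • u k).1)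
      (fun _ => f ((N : ℚ)⁻¹ • u k).1) (fun _ => hmemS _ (hSt k)) (fun _ => (N : ℚ)) 0 0
      (u k).1 (f (u k).1) h00 (hmemS _ (hSu k)) (by
        rw [Prod.smul_fst, Fintype.sum_unique, zero_add, Rat.smul_def]
        push_cast
        rw [mul_inv_cancel_left₀ hNC])
    rw [Fintype.sum_unique, zero_add] at h1
    rw [h1]
    push_cast
    rfl
  have hwj : (u (j ())).1 = w := by rw [huj]
  have hfw : f w = w := by
    have h1 := hmemS _ (hSu (j ()))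
    rw [hwj] at h1
    exact elC_fun _ hf w _ _ h1 (hsub (hmemc w (Or.inl rfl)))
  have hfd : ∀ d ∈ D, g d = e d + ∑ k, (q d k : ℂ) * f (u k).1 := by
    intro d hd
    exact lin hf (fun k => (u k).1) (fun k => f (u k).1) (fun k => hmemS _ (hSu k)) (q d) (e d)
      (e d) d (g d) (hsub (hmemc _ (Or.inr (Or.inl (Or.inr ⟨d, hd, rfl⟩)))))
      (hsub (hmemD d hd)) (hq d hd)
  have hexp : ∀ k, ∃ r : ℚ, f (ex φ ((N : ℚ)⁻¹ • u k)) =
      Complex.exp (f ((N : ℚ)⁻¹ • u k).1) * φ r := by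
    intro k
    have h1 : ExpMod (Set.range φ) ((N : ℚ)⁻¹ • u k).1 (ex φ ((N : ℚ)⁻¹ • u k)) :=
      ⟨φ ((N : ℚ)⁻¹ • u k).2, ⟨_, rfl⟩, rfl⟩
    obtain ⟨_, ⟨r, rfl⟩, h2⟩ := elC_rel hf (hmemS _ (hSt k)) (hmemS _ (hSb k)) h1
    exact ⟨r, h2⟩
  choose r hr' using hexp
  obtain ⟨u', hu'⟩ : ∃ u' : κ → X, u' = fun k => ((N : ℚ) • (f ((N : ℚ)⁻¹ • u k).1, r k) : X) :=
    ⟨_, rfl⟩
  have hu'1 : ∀ k, (u' k).1 = f (u k).1 := by
    intro k
    rw [hu', hft k]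
    beta_reduce
    rw [Prod.smul_fst, Rat.smul_def]
    push_cast
    rfl
  have hu'2 : ∀ k, (N : ℚ)⁻¹ • u' k = (f ((N : ℚ)⁻¹ • u k).1, r k) := by
    intro k
    rw [hu']
    beta_reduce
    rw [smul_smul, inv_mul_cancel₀ hNQ, one_smul]
  have hpt : ∀ i, (pt φ N u i, pt φ N u' i) ∈ Γ₁ := by
    rintro (k | k)
    · have h1 : (pt φ N u (Sum.inl k), pt φ N u' (Sum.inl k)) = ((u k).1, f (u k).1) := by
        rw [← hu'1 k]
        rfl
      rw [h1]
      exact hmemS _ (hSu k)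
    · have h1 : (pt φ N u (Sum.inr k), pt φ N u' (Sum.inr k)) =
          (ex φ ((N : ℚ)⁻¹ • u k), f (ex φ ((N : ℚ)⁻¹ • u k))) := by
        have h2 : pt φ N u' (Sum.inr k) = ex φ ((N : ℚ)⁻¹ • u' k) := rfl
        rw [h2, hu'2 k, hr' k]
        rfl
      rw [h1]
      exact hmemS _ (hSb k)
  have hspec : ∀ p : MvPolynomial (κ ⊕ κ) K, MvPolynomial.aeval (pt φ N u) p = 0 →
      MvPolynomial.aeval (pt φ N u') p = 0 := by
    refine hc₁ (pt φ N u') fun p hp hp0 => ?_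
    refine elC_poly_coeff hf (pt φ N u) (pt φ N u') hpt K p (fun m hm => ?_) hp0
    exact hsub (hmemc _ (Or.inr (Or.inl (Or.inl (hp m hm)))))
  have hind : Indep K u' := by
    intro s hs
    by_contra hs0
    simp only [hu'1] at hs
    obtain ⟨x, hx⟩ : ∃ x : ℂ, x = ∑ k, (s k : ℂ) * (u k).1 := ⟨_, rfl⟩
    have hxK : x ∉ K := by
      intro h1
      rw [hx] at h1
      exact hs0 (hu.1 s h1)
    have hxcl : x ∈ cl (insert w ((K₀ : Set ℂ) ∪ c₃)) := by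
      rw [hx]
      exact sum_mem fun k _ => mul_mem (SubfieldClass.ratCast_mem _ _) (hucl k)
    have hxA : x ∉ cl ((K₀ : Set ℂ) ∪ c₃) := by
      intro h1
      refine hxK (hK.1 (cl_mono ?_ h1))
      exact Set.union_subset hle hc₃K
    have hwx := exchange _ _ _ hxcl hxA
    obtain ⟨x', hx'⟩ := elC_hom Γ₁ hΓ₁f hf x
    have hmono : Γ₁ ⊆ insert (x, x') Γ₁ := Set.subset_insert _ _
    have h1 := lin hx' (fun k => (u k).1) (fun k => f (u k).1)
      (fun k => hmono (hmemS _ (hSu k))) s 0 0 x x' (hmono h00) (Set.mem_insert _ _)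
      (by rw [zero_add]; exact hx)
    rw [zero_add] at h1
    have hx'K : x' ∈ K := by
      rw [h1]
      exact hs
    have h2 := elC_cl hKc₀ hK₀ (insert (x, x') Γ₁) hx'
      (insert (x, x') ((fun y : ℂ => (y, y)) '' c₃)) (by
        rintro p (rfl | ⟨y, hy, rfl⟩)
        · exact Set.mem_insert _ _
        · exact hmono (hsub (hmemc _ (Or.inr (Or.inr hy))))) w w
      (hmono (hsub (hmemc w (Or.inl rfl)))) (by
        refine cl_mono ?_ hwx
        rintro y (rfl | hy | hy)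
        · exact Or.inr ⟨(y, x'), Or.inl rfl, rfl⟩
        · exact Or.inl hy
        · exact Or.inr ⟨(y, y), Or.inr ⟨y, hy, rfl⟩, rfl⟩)
    refine hw (hK.1 (cl_mono ?_ h2))
    rintro y (hy | ⟨p, (rfl | ⟨z, hz, rfl⟩), rfl⟩)
    · exact hle hy
    · exact hx'K
    · exact hc₃K hz
  have hwj' : (u' (j ())).1 = w := by rw [hu'1, hwj, hfw]
  have hrho' : rho K u ≤ rho K u' := by
    rw [hr]
    refine Nat.one_le_iff_ne_zero.2 fun h1 => hw ?_
    rw [hK.mem_iff]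
    intro E hE
    have h2 := (rk_eq_zero_iff _ _).1 h1 E hE (j ())
    beta_reduce at h2
    rw [hwj'] at h2
    exact h2
  have hpair := pair_of_spec hK u u' hu hind hrho' N hN hkum hspec
  refine elC_of_pair hφ hKc hK hle u u' hpair _ ?_
  rintro p (⟨x, (rfl | hx), rfl⟩ | ⟨d, hd, rfl⟩)
  · refine ⟨0, K.zero_mem, Pi.single (j ()) 1, ?_, ?_⟩
    · rw [Finset.sum_eq_single (j ())]
      · rw [Pi.single_eq_same, hwj, Rat.cast_one, one_mul, zero_add]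
      · intro b _ hb
        rw [Pi.single_eq_of_ne hb, Rat.cast_zero, zero_mul]
      · intro h
        exact absurd (Finset.mem_univ _) h
    · rw [Finset.sum_eq_single (j ())]
      · rw [Pi.single_eq_same, hwj', Rat.cast_one, one_mul, zero_add]
        rfl
      · intro b _ hb
        rw [Pi.single_eq_of_ne hb, Rat.cast_zero, zero_mul]
      · intro h
        exact absurd (Finset.mem_univ _) h
  · refine ⟨x, hx, 0, ?_, ?_⟩
    · simp
    · simp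
  · refine ⟨e d, he d hd, q d, hq d hd, ?_⟩
    simp only [hu'1]
    exact hfd d hd

theorem elC_fd (hφ : ‖φ 1‖ ≠ 1) (hKc₀ : (K₀ : Set ℂ).Countable) (hK₀ : Closed K₀ φ)
    (hKc : (K : Set ℂ).Countable) (hK : Closed K φ) (hle : K₀ ≤ K) (w : ℂ) (hw : w ∉ K)
    (D : Set ℂ) (hD : D.Finite) (hDK : ∀ d ∈ D, d ∈ cl ((K : Set ℂ) ∪ {w})) :
    ∃ c : Set ℂ, c ⊆ (K : Set ℂ) ∧ c.Finite ∧ ∀ Δ : Set (ℂ × ℂ), (∀ p ∈ Δ, p.1 ∈ D) →
      ElC K₀ φ ((fun x : ℂ => (x, id x)) '' insert w c ∪ Δ) →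
      ElC K₀ φ ((fun x : ℂ => (x, id x)) '' insert w (K : Set ℂ) ∪ Δ) := by
  obtain ⟨c, hcK, hcf, hc⟩ := elC_fd_fun hφ hKc₀ hK₀ hKc hK hle w hw D hD hDK
  refine ⟨c, hcK, hcf, fun Δ hΔ hel => ?_⟩
  have hfin : Δ.Finite := by
    refine Set.Finite.of_finite_image (f := Prod.fst) (hD.subset ?_) ?_
    · rintro _ ⟨p, hp, rfl⟩
      exact hΔ p hp
    · rintro ⟨a, b⟩ hp ⟨a', b'⟩ hp' hab
      have hab' : a = a' := hab
      subst hab'
      rw [elC_fun _ hel a b b' (Or.inr hp) (Or.inr hp')]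
  obtain ⟨g, hg⟩ := hom_set _ (((hcf.insert w).image _).union hfin) hel D hD
  have hsub : ∀ p ∈ Δ, p.2 = g p.1 := by
    rintro ⟨a, b⟩ hp
    exact elC_fun _ hg a b (g a) (Or.inl (Or.inr hp)) (Or.inr ⟨a, hΔ _ hp, rfl⟩)
  have h1 := hc g (elC_mono _ _ (by
    rintro p (hp | hp)
    · exact Or.inl (Or.inl hp)
    · exact Or.inr hp) hg)
  refine elC_mono _ _ ?_ h1
  rintro p (hp | hp)
  · exact Or.inl hp
  · refine Or.inr ⟨p.1, hΔ p hp, ?_⟩
    beta_reduce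
    rw [← hsub p hp]

end Pool.Agent.QMX
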