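import Pool.Agent.QMX.Glue
import Pool.Agent.QMX.CFd
import Pool.Agent.EXL.Phi

/-!
# QMX / CFin: quasiminimality for automorphism invariant sets

PROOF of `exists_qm`.  `El = ElC K₀ φ`, `cl X = EXL.cl (K₀ ∪ X)`. A countable set `X` with
`cl (K₀ ∪ X) ⊆ X` is the carrier of the subfield `K = cl (K₀ ∪ X)`, `K₀ ≤ K`, `Closed K φ` (`closed_cl`).
The fields: `elC_fin .. elC_hom`, `subset_cl`, `EXL.cl_mono`, `EXL.cl_cl`, `cl_fin`, `exchange`,
`countable_cl`, `elC_cl`, `elC_gen`, `elC_fd`.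
PROOF of `quasiminimal_aut`.  `φ` from `exists_phi`; `φ q ∈ D ≤ G`. `K₀ = cl (A ∪ G ∪ range φ)`, countable and
closed. Apply `Qm.main` to the structure of `exists_qm` and the countable set `K₀`: let `F` be a
bijection of `ℂ` with `El (gr F univ)`, the identity on `K₀`. By `elC_add`, `elC_mul` it is a ring
automorphism `σ`; it fixes `A` and `G` pointwise. It preserves `ExpMod (range φ)` in both directions
(`elC_rel`, `elC_symm`), hence also the relation for `G`: `y ∈ exp x * G` iff there is `g ∈ G` with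
`y * g⁻¹ ∈ exp x * φ ℚ` (`1 ∈ range φ ⊆ G`), and `σ (y * g⁻¹) = σ y * g⁻¹`. So `σ '' S = S` by
hypothesis.
-/

set_option autoImplicit false

namespace Pool.Agent.QMX

open Pool.Agent.EXL

theorem exists_qm (K₀ : Subfield ℂ) (φ : AddChar ℚ ℂ) (hφ : ‖φ 1‖ ≠ 1)
    (hKc : (K₀ : Set ℂ).Countable) (hK : Closed K₀ φ) :
    ∃ Q : Qm ℂ, Q.El = ElC K₀ φ ∧ ∀ X, Q.cl X = (cl ((K₀ : Set ℂ) ∪ X) : Set ℂ) := by
  have hclosed : ∀ X : Set ℂ, X.Countable → (cl ((K₀ : Set ℂ) ∪ X) : Set ℂ) ⊆ X →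
      ∃ K : Subfield ℂ, (K : Set ℂ) = X ∧ (K : Set ℂ).Countable ∧ Closed K φ ∧ K₀ ≤ K := by
    intro X hX h
    refine ⟨cl ((K₀ : Set ℂ) ∪ X), ?_, hX.mono h,
      closed_cl φ ((K₀ : Set ℂ) ∪ X) (fun q => Or.inl (hK.2 q)), ?_⟩
    · exact h.antisymm (Set.subset_union_right.trans (subset_cl _))
    · exact fun a ha => subset_cl _ (Or.inl ha)
  refine ⟨{ El := ElC K₀ φ
            cl := fun X => (cl ((K₀ : Set ℂ) ∪ X) : Set ℂ)
            el_fin := elC_fin
            el_mono := elC_mono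
            el_id := elC_id
            el_symm := elC_symm
            el_comp := elC_comp
            el_fun := elC_fun
            el_hom := elC_hom
            sub_cl := fun X => Set.subset_union_right.trans (subset_cl _)
            cl_mono := fun X Y h => EXL.cl_mono (Set.union_subset_union_right _ h)
            cl_cl := ?_
            cl_fin := ?_
            exch := ?_
            cl_ctbl := fun X hX => countable_cl _ (hKc.union hX)
            el_cl := elC_cl hKc hK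
            gen := ?_
            fd := ?_ }, rfl, fun _ => rfl⟩
  · intro X
    have h1 : ((K₀ : Set ℂ) ∪ (cl ((K₀ : Set ℂ) ∪ X) : Set ℂ)) ⊆
        (cl ((K₀ : Set ℂ) ∪ X) : Set ℂ) :=
      Set.union_subset (Set.subset_union_left.trans (subset_cl _)) subset_rfl
    have h2 := EXL.cl_mono h1
    rw [EXL.cl_cl] at h2
    exact h2
  · intro X x hx
    obtain ⟨F, hF, hFf, hxF⟩ := cl_fin _ x hx
    refine ⟨F ∩ X, Set.inter_subset_right, hFf.subset Set.inter_subset_left, ?_⟩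
    have h1 : F ⊆ (K₀ : Set ℂ) ∪ F ∩ X := by
      intro a ha
      rcases hF ha with h | h
      · exact Or.inl h
      · exact Or.inr ⟨ha, h⟩
    exact EXL.cl_mono h1 hxF
  · intro X x y hx hxX
    have h1 : x ∈ cl (insert y ((K₀ : Set ℂ) ∪ X)) := by
      rw [← Set.union_insert]
      exact hx
    have h2 := exchange _ y x h1 hxX
    rw [← Set.union_insert] at h2
    exact h2
  · intro X hX h b b' hb hb'
    obtain ⟨K, rfl, hKc', hK', hle⟩ := hclosed X hX h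
    exact elC_gen hφ hKc' hK' hle b b' hb hb'
  · intro X hX h w hw D hD hDX
    obtain ⟨K, rfl, hKc', hK', hle⟩ := hclosed X hX h
    obtain ⟨c, hc, hcf, hc2⟩ := elC_fd hφ hKc hK hKc' hK' hle w hw D hD (by
      intro d hd
      refine EXL.cl_mono ?_ (hDX hd)
      rintro a (ha | ha)
      · exact Or.inl (hle ha)
      · rcases ha with ha | ha
        · exact Or.inr ha
        · exact Or.inl ha)
    exact ⟨insert w c, Set.insert_subset_insert hc, hcf.insert w, hc2⟩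

/-- The complex field with the relation `y ∈ exp x * G` is quasiminimal: a set which is invariant
under all automorphisms over a countable set of parameters is countable or cocountable. -/
theorem quasiminimal_aut (G D : Subgroup ℂˣ) (hG : (G : Set ℂˣ).Countable) (hDG : D ≤ G)
    (hD : ∀ n : ℕ, 0 < n → ∀ x ∈ D, ∃ y ∈ D, y ^ n = x) (x : ℂˣ) (hx : x ∈ D)
    (hx1 : ‖(x : ℂ)‖ ≠ 1) (A : Set ℂ) (hA : A.Countable) (S : Set ℂ)
    (hS : ∀ σ : ℂ ≃+* ℂ, (∀ a ∈ A, σ a = a) →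
      (∀ a b, ExpMod ((fun y : ℂˣ => (y : ℂ)) '' (G : Set ℂˣ)) (σ a) (σ b) ↔
        ExpMod ((fun y : ℂˣ => (y : ℂ)) '' (G : Set ℂˣ)) a b) → σ '' S = S) :
    S.Countable ∨ Sᶜ.Countable := by
  obtain ⟨φ, hφ1, hφ⟩ := exists_phi D hD x hx
  set G' : Set ℂ := (fun y : ℂˣ => (y : ℂ)) '' (G : Set ℂˣ) with hG'
  have hrG : ∀ q, φ q ∈ G' := by
    intro q
    obtain ⟨y, hy, h⟩ := hφ q
    exact ⟨y, hDG hy, h.symm⟩
  have hKc : (cl (A ∪ G') : Set ℂ).Countable := countable_cl _ (hA.union (hG.image _))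
  have hK : Closed (cl (A ∪ G')) φ := closed_cl φ _ (fun q => Or.inr (hrG q))
  obtain ⟨Q, hQ, -⟩ := exists_qm (cl (A ∪ G')) φ (by rwa [hφ1]) hKc hK
  refine Q.main (cl (A ∪ G') : Set ℂ) hKc S ?_
  intro F hEl hF hfix y hy
  rw [hQ] at hEl
  have hgr : ∀ a, (a, F a) ∈ gr F Set.univ := fun a => ⟨a, trivial, rfl⟩
  have hgr' : ∀ a, (F a, a) ∈ Prod.swap '' gr F Set.univ := fun a => ⟨(a, F a), hgr a, rfl⟩
  have hadd : ∀ a b, F (a + b) = F a + F b := fun a b =>
    (elC_add hEl (hgr a) (hgr b) (hgr (a + b)) rfl).symm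
  have hmul : ∀ a b, F (a * b) = F a * F b := fun a b =>
    (elC_mul hEl (hgr a) (hgr b) (hgr (a * b)) rfl).symm
  have hrel : ∀ a b, ExpMod (Set.range φ) (F a) (F b) ↔ ExpMod (Set.range φ) a b := fun a b =>
    ⟨fun h => elC_rel (elC_symm _ hEl) (hgr' a) (hgr' b) h,
      fun h => elC_rel hEl (hgr a) (hgr b) h⟩
  have key : ∀ a b, ExpMod G' a b ↔ ∃ g ∈ G', ExpMod (Set.range φ) a (b * g⁻¹) := by
    intro a b
    constructor
    · rintro ⟨g, hg, rfl⟩
      refine ⟨g, hg, φ 0, ⟨0, rfl⟩, ?_⟩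
      obtain ⟨y, -, rfl⟩ := hg
      rw [AddChar.map_zero_eq_one, mul_one, mul_assoc, mul_inv_cancel₀ y.ne_zero, mul_one]
    · rintro ⟨g, ⟨y, hy, rfl⟩, _, ⟨q, rfl⟩, h⟩
      obtain ⟨z, hz, hzq⟩ := hrG q
      refine ⟨((z * y : ℂˣ) : ℂ), ⟨z * y, G.mul_mem hz hy, rfl⟩, ?_⟩
      have h1 := mul_inv_eq_iff_eq_mul₀ (a := b) y.ne_zero |>.1 h
      rw [h1, Units.val_mul, ← hzq]
      exact mul_assoc _ _ _
  have hfg : ∀ b, ∀ g ∈ G', F (b * g⁻¹) = F b * g⁻¹ := by
    intro b g hg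
    rw [hmul, hfix g⁻¹ (inv_mem (subset_cl _ (Or.inr hg)))]
  let σ : ℂ ≃+* ℂ := RingEquiv.mk (Equiv.ofBijective F hF) hmul hadd
  have h1 := hS σ (fun a ha => hfix a (subset_cl _ (Or.inl ha))) (by
    intro a b
    show ExpMod G' (F a) (F b) ↔ ExpMod G' a b
    rw [key, key]
    constructor
    · rintro ⟨g, hg, h⟩
      rw [← hfg b g hg, hrel] at h
      exact ⟨g, hg, h⟩
    · rintro ⟨g, hg, h⟩
      rw [← hrel, hfg b g hg] at h
      exact ⟨g, hg, h⟩)
  rw [← h1]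
  exact ⟨y, hy, rfl⟩

end Pool.Agent.QMX
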