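import Pool.Agent.QMX.CEl
import Pool.Agent.QMX.CCl

/-!
# QMX / CInv: the closure is preserved by elementary graphs

PROOF.  By `cl_fin` there is a finite `Δ₀ ⊆ Δ` with `b ∈ cl (K₀ ∪ fst '' Δ₀)` (`A = K₀ ∪ fst '' Δ`).
`cl_cert` gives a finite sequence `a i`. The finite graph `Γ₀ = insert (b, b') Δ₀` is extended by
`elC_hom` to all `a i`, `exp (a i)`: `a' i`, `e' i`. By `elC_poly` and `exists_aut` (for the field `K₀`
and the family of all first, respectively second, components) there is an automorphism `σ` of `ℂ` over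
`K₀` with `σ x = x'` for all pairs. By `elC_rel` (`exp (a i) = exp (a i) * φ 0`)
`e' i = exp (a' i) * φ (q i)`. Let `D' ∈ EDer ⊓ DerOver (K₀ ∪ snd '' Δ)`. `D = conj σ.symm D'`,
`D x = σ.symm (D' (σ x))`, is in `DerOver (K₀ ∪ fst '' Δ₀)`, and
`D (exp (a i)) = σ.symm (D' (e' i)) = σ.symm (e' i * D' (a' i)) = exp (a i) * D (a i)` because
`φ (q i) ∈ K₀`. So `D b = 0` (the certificate for `A = K₀ ∪ fst '' Δ₀`) and `D' b' = σ (D b) = 0`.
-/

set_option autoImplicit false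

namespace Pool.Agent.QMX

open Pool.Agent.EXL

variable {K₀ : Subfield ℂ} {φ : AddChar ℚ ℂ}

private theorem hom_setC {Γ : Set (ℂ × ℂ)} (hf : Γ.Finite) (h1 : ElC K₀ φ Γ) {D : Set ℂ}
    (hD : D.Finite) : ∃ g : ℂ → ℂ, ElC K₀ φ (Γ ∪ (fun x => (x, g x)) '' D) := by
  classical
  induction D, hD using Set.Finite.induction_on with
  | empty =>
    refine ⟨id, ?_⟩
    rw [Set.image_empty, Set.union_empty]
    exact h1
  | @insert a s ha hs ih =>
    obtain ⟨g, hg⟩ := ih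
    obtain ⟨a', ha'⟩ := elC_hom _ (hf.union (hs.image _)) hg a
    refine ⟨Function.update g a a', elC_mono _ _ ?_ ha'⟩
    rintro p (hp | ⟨x, hx, rfl⟩)
    · exact Or.inr (Or.inl hp)
    · by_cases hxa : x = a
      · left
        rw [hxa]
        change (a, Function.update g a a' a) = (a, a')
        rw [Function.update_self]
      · right
        right
        refine ⟨x, hx.resolve_left hxa, ?_⟩
        change (x, g x) = (x, Function.update g a a' x)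
        rw [Function.update_of_ne hxa]

private theorem aut_of_elC (hKc : (K₀ : Set ℂ).Countable) {Γ : Set (ℂ × ℂ)} (hf : Γ.Finite)
    (h : ElC K₀ φ Γ) : ∃ σ : ℂ ≃+* ℂ, (∀ c ∈ K₀, σ c = c) ∧ ∀ p ∈ Γ, σ p.1 = p.2 := by
  have : Finite Γ := hf.to_subtype
  obtain ⟨σ, h1, h2⟩ := exists_aut K₀ hKc (fun p : Γ => p.1.1) (fun p : Γ => p.1.2) (by
    intro f
    constructor
    · exact elC_poly h (fun p : Γ => p.1.1) (fun p : Γ => p.1.2) (fun p => p.2) f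
    · exact elC_poly (elC_symm Γ h) (fun p : Γ => p.1.2) (fun p : Γ => p.1.1)
        (fun p => ⟨p.1, p.2, rfl⟩) f)
  exact ⟨σ, h1, fun p hp => h2 ⟨p, hp⟩⟩

theorem elC_cl (hKc : (K₀ : Set ℂ).Countable) (hK : Closed K₀ φ) (Γ : Set (ℂ × ℂ))
    (h : ElC K₀ φ Γ) (Δ : Set (ℂ × ℂ)) (hΔ : Δ ⊆ Γ) (b b' : ℂ) (hb : (b, b') ∈ Γ)
    (hcl : b ∈ cl ((K₀ : Set ℂ) ∪ Prod.fst '' Δ)) : b' ∈ cl ((K₀ : Set ℂ) ∪ Prod.snd '' Δ) := by
  obtain ⟨F, hF, hFf, hbF⟩ := cl_fin _ b hcl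
  obtain ⟨Δ₀, hΔ₀, hΔ₀f, hFΔ₀⟩ := (Set.exists_subset_image_finite_and (f := Prod.fst) (s := Δ)
    (p := fun t => F ⊆ (K₀ : Set ℂ) ∪ t)).1 ⟨F \ (K₀ : Set ℂ), (by
      rintro x ⟨hx, hx'⟩
      exact (hF hx).resolve_left hx'), hFf.sdiff, (by
      intro x hx
      by_cases hxK : x ∈ (K₀ : Set ℂ)
      · exact Or.inl hxK
      · exact Or.inr ⟨hx, hxK⟩)⟩
  have hb0 : b ∈ cl ((K₀ : Set ℂ) ∪ Prod.fst '' Δ₀) := by
    intro D hD
    exact hbF D ⟨hD.1, fun x hx => hD.2 x (hFΔ₀ hx)⟩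
  obtain ⟨n, a, hcert⟩ := cl_cert _ b hb0
  have hΓ₀f : (insert (b, b') Δ₀).Finite := hΔ₀f.insert _
  have hΓ₀ : ElC K₀ φ (insert (b, b') Δ₀) := by
    refine elC_mono _ _ ?_ h
    exact Set.insert_subset hb (hΔ₀.trans hΔ)
  have hDf : (Set.range a ∪ Set.range fun i => Complex.exp (a i)).Finite :=
    (Set.finite_range _).union (Set.finite_range _)
  obtain ⟨g, hg⟩ := hom_setC hΓ₀f hΓ₀ hDf
  obtain ⟨σ, hσK, hσ⟩ := aut_of_elC hKc (hΓ₀f.union (hDf.image _)) hg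
  have hσb : σ b = b' := hσ (b, b') (Or.inl (Or.inl rfl))
  have hσΔ : ∀ p ∈ Δ₀, σ p.1 = p.2 := fun p hp => hσ p (Or.inl (Or.inr hp))
  have hma : ∀ i, (a i, g (a i)) ∈ insert (b, b') Δ₀ ∪ (fun x => (x, g x)) ''
      (Set.range a ∪ Set.range fun i => Complex.exp (a i)) := fun i =>
    Or.inr ⟨a i, Or.inl ⟨i, rfl⟩, rfl⟩
  have hme : ∀ i, (Complex.exp (a i), g (Complex.exp (a i))) ∈ insert (b, b') Δ₀ ∪
      (fun x => (x, g x)) '' (Set.range a ∪ Set.range fun i => Complex.exp (a i)) := fun i =>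
    Or.inr ⟨Complex.exp (a i), Or.inr ⟨i, rfl⟩, rfl⟩
  have hσa : ∀ i, σ (a i) = g (a i) := fun i => hσ _ (hma i)
  have hσe : ∀ i, σ (Complex.exp (a i)) = g (Complex.exp (a i)) := fun i => hσ _ (hme i)
  have hrel : ∀ i, ∃ q, g (Complex.exp (a i)) = Complex.exp (g (a i)) * φ q := by
    intro i
    have h1 : ExpMod (Set.range φ) (a i) (Complex.exp (a i)) :=
      ⟨φ 0, ⟨0, rfl⟩, by rw [AddChar.map_zero_eq_one, mul_one]⟩
    obtain ⟨_, ⟨q, rfl⟩, h2⟩ := elC_rel hg (hma i) (hme i) h1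
    exact ⟨q, h2⟩
  intro D' hD'
  have hD'K : ∀ x ∈ K₀, D' x = 0 := fun x hx => hD'.2 x (Or.inl hx)
  have hD'Δ : ∀ p ∈ Δ₀, D' p.2 = 0 := fun p hp => hD'.2 p.2 (Or.inr ⟨p, hΔ₀ hp, rfl⟩)
  have hD'e : ∀ z, D' (Complex.exp z) = Complex.exp z * D' z := hD'.1
  have hconj : ∀ x, conj σ.symm D' x = σ.symm (D' (σ x)) := fun x => by
    rw [conj_apply, RingEquiv.symm_symm]
  have hDb : conj σ.symm D' b = 0 := by
    refine hcert _ ?_ ?_
    · rintro x (hx | ⟨p, hp, rfl⟩)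
      · rw [hconj, hσK x hx, hD'K x hx, map_zero]
      · rw [hconj, hσΔ p hp, hD'Δ p hp, map_zero]
    · intro i
      obtain ⟨q, hq⟩ := hrel i
      have h1 : D' (g (Complex.exp (a i))) = g (Complex.exp (a i)) * D' (g (a i)) := by
        rw [hq, Derivation.leibniz, hD'K _ (hK.2 q), smul_zero, zero_add, hD'e, smul_eq_mul]
        ring
      rw [hconj, hconj, hσe, hσa, h1, map_mul, ← hσe, RingEquiv.symm_apply_apply]
  rw [hconj, hσb] at hDb
  exact (map_eq_zero_iff σ.symm σ.symm.injective).1 hDb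

end Pool.Agent.QMX
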