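import Pool.Agent.EXL.Bf
import Pool.Agent.EXL.Red

/-!
# QMX / CTy: types of the infinitary logic

`Ty K₀ φ n v v'`: the tuples `v, v'` belong to the same subsets of `ℂ^n` which are definable over
`K₀` in `L_{∞ω}` (`EXL.Definable`).

PROOFS.  `Definable.comap`: induction on the definable set, for all `σ`. For a projection:
`Fin.snoc (v ∘ σ) z = Fin.snoc v z ∘ σ'` with `σ' = Fin.snoc (Fin.castSucc ∘ σ) (Fin.last n)`.
`Ty.hom`: if not, for every `z'` there is a definable `S z'` with `Fin.snoc v z ∈ S z'`,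
`Fin.snoc v' z' ∉ S z'` (replace `S` by the complement if necessary). The intersection of all `S z'` (the
complement of the union of the complements) is definable, its projection contains `v`, hence `v'`: a
contradiction.
`Ty.hom_append`: induction on `m` with `Ty.hom` (`Fin.append v (Fin.snoc u z) = Fin.snoc (Fin.append v u) z`;
or state the induction for `Fin.snoc`).
`Ty.poly`: show by induction on `f`, for all `n, v, v', z'`: if
`Ty (n + 1) (Fin.snoc v (aeval v f)) (Fin.snoc v' z')` then `z' = aeval v' f`. Constants: `Ty.const`;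
variables: `Ty.eq`; for `p + q` and `p * X i` extend the tuple by the values of the parts (`Ty.hom`),
use the induction hypothesis for reindexed tuples, and `Ty.add`, `Ty.mul`. Then `aeval v f = 0` and
`Ty.hom` for `z = 0`: `z' = 0` by `Ty.const`.
-/

set_option autoImplicit false

namespace Pool.Agent.QMX

open Pool.Agent.EXL

private theorem cty_snoc {m n : ℕ} (σ : Fin m → Fin n) (v : Fin n → ℂ) (z : ℂ) :
    (Fin.snoc v z : Fin (n + 1) → ℂ) ∘
      (Fin.snoc (fun i => (σ i).castSucc) (Fin.last n) : Fin (m + 1) → Fin (n + 1)) =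
      Fin.snoc (v ∘ σ) z := by
  rw [Fin.comp_snoc, Fin.snoc_last]
  congr 1
  funext i
  exact Fin.snoc_castSucc (α := fun _ => ℂ) z v (σ i)

/-- Reindexing of definable sets. -/
theorem Definable.comap {R : ℂ → ℂ → Prop} {A : Set ℂ} {m : ℕ} {S : Set (Fin m → ℂ)}
    (hS : Definable R A m S) : ∀ (n : ℕ) (σ : Fin m → Fin n),
      Definable R A n {v | (v ∘ σ) ∈ S} := by
  induction hS with
  | const m i a ha =>
    intro n σ
    exact Definable.const n (σ i) a ha
  | eq m i j =>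
    intro n σ
    exact Definable.eq n (σ i) (σ j)
  | add m i j k =>
    intro n σ
    exact Definable.add n (σ i) (σ j) (σ k)
  | mul m i j k =>
    intro n σ
    exact Definable.mul n (σ i) (σ j) (σ k)
  | rel m i j =>
    intro n σ
    exact Definable.rel n (σ i) (σ j)
  | compl m S hS ih =>
    intro n σ
    exact Definable.compl n _ (ih n σ)
  | sUnion m T hT ih =>
    intro n σ
    have h : {v : Fin n → ℂ | (v ∘ σ) ∈ ⋃₀ T} =
        ⋃₀ {U | ∃ S ∈ T, U = {v : Fin n → ℂ | (v ∘ σ) ∈ S}} := by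
      ext v
      constructor
      · rintro ⟨S, hS, hv⟩
        exact ⟨_, ⟨S, hS, rfl⟩, hv⟩
      · rintro ⟨_, ⟨S, hS, rfl⟩, hv⟩
        exact ⟨S, hS, hv⟩
    rw [h]
    refine Definable.sUnion n _ ?_
    rintro _ ⟨S, hS, rfl⟩
    exact ih S hS n σ
  | proj m S hS ih =>
    intro n σ
    have h : {v : Fin n → ℂ | (v ∘ σ) ∈ {w : Fin m → ℂ | ∃ z, Fin.snoc w z ∈ S}} =
        {v : Fin n → ℂ | ∃ z, Fin.snoc v z ∈ {v' : Fin (n + 1) → ℂ |
          (v' ∘ (Fin.snoc (fun i => (σ i).castSucc) (Fin.last n) : Fin (m + 1) → Fin (n + 1)))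
            ∈ S}} := by
      ext v
      constructor
      · rintro ⟨z, hz⟩
        refine ⟨z, ?_⟩
        show _ ∈ S
        rw [cty_snoc]
        exact hz
      · rintro ⟨z, hz⟩
        refine ⟨z, ?_⟩
        have hz' : _ ∈ S := hz
        rw [cty_snoc] at hz'
        exact hz'
    rw [h]
    exact Definable.proj n _ (ih (n + 1) _)

/-- The tuples have the same type over `K₀` in the logic `L_{∞ω}`. -/
def Ty (K₀ : Subfield ℂ) (φ : AddChar ℚ ℂ) (n : ℕ) (v v' : Fin n → ℂ) : Prop :=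
  ∀ S : Set (Fin n → ℂ), Definable (ExpMod (Set.range φ)) (K₀ : Set ℂ) n S → (v ∈ S ↔ v' ∈ S)

variable {K₀ : Subfield ℂ} {φ : AddChar ℚ ℂ}

theorem Ty.refl {n : ℕ} (v : Fin n → ℂ) : Ty K₀ φ n v v := by
  intro S _
  exact Iff.rfl

theorem Ty.symm {n : ℕ} {v v' : Fin n → ℂ} (h : Ty K₀ φ n v v') : Ty K₀ φ n v' v := by
  intro S hS
  exact (h S hS).symm

theorem Ty.trans {n : ℕ} {v v' v'' : Fin n → ℂ} (h : Ty K₀ φ n v v') (h' : Ty K₀ φ n v' v'') :
    Ty K₀ φ n v v'' := by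
  intro S hS
  exact (h S hS).trans (h' S hS)

theorem Ty.reindex {m n : ℕ} {v v' : Fin n → ℂ} (h : Ty K₀ φ n v v') (σ : Fin m → Fin n) :
    Ty K₀ φ m (v ∘ σ) (v' ∘ σ) := by
  intro S hS
  exact h _ (Definable.comap hS n σ)

theorem Ty.hom {n : ℕ} {v v' : Fin n → ℂ} (h : Ty K₀ φ n v v') (z : ℂ) :
    ∃ z', Ty K₀ φ (n + 1) (Fin.snoc v z) (Fin.snoc v' z') := by
  by_contra hcon
  have hcon' : ∀ z', ¬ Ty K₀ φ (n + 1) (Fin.snoc v z) (Fin.snoc v' z') := fun z' hz' =>
    hcon ⟨z', hz'⟩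
  have key : ∀ z' : ℂ, ∃ S : Set (Fin (n + 1) → ℂ),
      Definable (ExpMod (Set.range φ)) (K₀ : Set ℂ) (n + 1) S ∧
        (Fin.snoc v z : Fin (n + 1) → ℂ) ∈ S ∧ (Fin.snoc v' z' : Fin (n + 1) → ℂ) ∉ S := by
    intro z'
    have h1 := hcon' z'
    unfold Ty at h1
    push Not at h1
    obtain ⟨S, hS, h2⟩ := h1
    rcases h2 with ⟨h3, h4⟩ | ⟨h3, h4⟩
    · exact ⟨S, hS, h3, h4⟩
    · exact ⟨Sᶜ, Definable.compl _ S hS, h3, fun h5 => h5 h4⟩
  choose S hS hv hv' using key
  have hU : Definable (ExpMod (Set.range φ)) (K₀ : Set ℂ) (n + 1)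
      (⋃₀ {T | ∃ z', T = (S z')ᶜ})ᶜ := by
    refine Definable.compl _ _ (Definable.sUnion _ _ ?_)
    rintro _ ⟨z', rfl⟩
    exact Definable.compl _ _ (hS z')
  have h1 := h _ (Definable.proj n _ hU)
  have h2 : v ∈ {v : Fin n → ℂ | ∃ z, Fin.snoc v z ∈ (⋃₀ {T | ∃ z', T = (S z')ᶜ})ᶜ} := by
    refine ⟨z, ?_⟩
    rintro ⟨_, ⟨z', rfl⟩, h3⟩
    exact h3 (hv z')
  obtain ⟨z', hz'⟩ := h1.1 h2
  exact hz' ⟨_, ⟨z', rfl⟩, hv' z'⟩

theorem Ty.hom_append {n : ℕ} {v v' : Fin n → ℂ} (h : Ty K₀ φ n v v') {m : ℕ} (u : Fin m → ℂ) :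
    ∃ u', Ty K₀ φ (n + m) (Fin.append v u) (Fin.append v' u') := by
  induction m with
  | zero =>
    refine ⟨u, ?_⟩
    rw [Fin.append_right_nil v u rfl, Fin.append_right_nil v' u rfl]
    exact h.reindex _
  | succ m ih =>
    obtain ⟨u', hu'⟩ := ih (Fin.init u)
    obtain ⟨z', hz'⟩ := hu'.hom (u (Fin.last m))
    refine ⟨Fin.snoc u' z', ?_⟩
    have e1 : u = Fin.snoc (Fin.init u) (u (Fin.last m)) := (Fin.snoc_init_self u).symm
    rw [e1, Fin.append_snoc, Fin.append_snoc]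
    exact hz'

theorem Ty.const {n : ℕ} {v v' : Fin n → ℂ} (h : Ty K₀ φ n v v') (i : Fin n) (hi : v i ∈ K₀) :
    v' i = v i := by
  exact (h _ (Definable.const n i (v i) hi)).1 rfl

theorem Ty.eq {n : ℕ} {v v' : Fin n → ℂ} (h : Ty K₀ φ n v v') (i j : Fin n) (hi : v i = v j) :
    v' i = v' j := by
  exact (h _ (Definable.eq n i j)).1 hi

theorem Ty.add {n : ℕ} {v v' : Fin n → ℂ} (h : Ty K₀ φ n v v') (i j k : Fin n)
    (hi : v i + v j = v k) : v' i + v' j = v' k := by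
  exact (h _ (Definable.add n i j k)).1 hi

theorem Ty.mul {n : ℕ} {v v' : Fin n → ℂ} (h : Ty K₀ φ n v v') (i j k : Fin n)
    (hi : v i * v j = v k) : v' i * v' j = v' k := by
  exact (h _ (Definable.mul n i j k)).1 hi

theorem Ty.rel {n : ℕ} {v v' : Fin n → ℂ} (h : Ty K₀ φ n v v') (i j : Fin n)
    (hi : ExpMod (Set.range φ) (v i) (v j)) : ExpMod (Set.range φ) (v' i) (v' j) := by
  exact (h _ (Definable.rel n i j)).1 hi

private theorem cty_poly {n : ℕ} (f : MvPolynomial (Fin n) K₀) : ∀ (v v' : Fin n → ℂ) (z' : ℂ),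
    Ty K₀ φ (n + 1) (Fin.snoc v (MvPolynomial.aeval v f)) (Fin.snoc v' z') →
      z' = MvPolynomial.aeval v' f := by
  induction f using MvPolynomial.induction_on with
  | C a =>
    intro v v' z' h
    have h1 := h.const (Fin.last n) (by
      rw [Fin.snoc_last, MvPolynomial.aeval_C]
      exact a.2)
    rw [Fin.snoc_last, Fin.snoc_last, MvPolynomial.aeval_C] at h1
    rw [h1, MvPolynomial.aeval_C]
  | add p q hp hq =>
    intro v v' z' h
    obtain ⟨t', ht'⟩ := h.hom (MvPolynomial.aeval v p)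
    obtain ⟨s', hs'⟩ := ht'.hom (MvPolynomial.aeval v q)
    have e1 := hs'.reindex (Fin.snoc (fun i : Fin n => i.castSucc.castSucc.castSucc)
      (Fin.last (n + 1)).castSucc : Fin (n + 1) → Fin (n + 3))
    have e2 := hs'.reindex (Fin.snoc (fun i : Fin n => i.castSucc.castSucc.castSucc)
      (Fin.last (n + 2)) : Fin (n + 1) → Fin (n + 3))
    rw [Fin.comp_snoc, Fin.comp_snoc] at e1 e2
    have c : ∀ (w : Fin n → ℂ) (a b d : ℂ),
        (Fin.snoc (Fin.snoc (Fin.snoc w a : Fin (n + 1) → ℂ) b : Fin (n + 2) → ℂ) d :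
          Fin (n + 3) → ℂ) ∘ (fun i : Fin n => i.castSucc.castSucc.castSucc) = w := by
      intro w a b d
      funext i
      simp [Fin.snoc_castSucc]
    rw [c, c] at e1 e2
    simp only [Fin.snoc_last, Fin.snoc_castSucc] at e1 e2
    have h1 := hp v v' t' e1
    have h2 := hq v v' s' e2
    have h3 := hs'.add (Fin.last (n + 1)).castSucc (Fin.last (n + 2)) (Fin.last n).castSucc.castSucc
      (by simp only [Fin.snoc_last, Fin.snoc_castSucc, map_add])
    simp only [Fin.snoc_last, Fin.snoc_castSucc] at h3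
    rw [← h3, h1, h2, map_add]
  | mul_X p i hp =>
    intro v v' z' h
    obtain ⟨t', ht'⟩ := h.hom (MvPolynomial.aeval v p)
    have e1 := ht'.reindex (Fin.snoc (fun i : Fin n => i.castSucc.castSucc)
      (Fin.last (n + 1)) : Fin (n + 1) → Fin (n + 2))
    rw [Fin.comp_snoc, Fin.comp_snoc] at e1
    have c : ∀ (w : Fin n → ℂ) (a b : ℂ),
        (Fin.snoc (Fin.snoc w a : Fin (n + 1) → ℂ) b : Fin (n + 2) → ℂ) ∘
          (fun i : Fin n => i.castSucc.castSucc) = w := by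
      intro w a b
      funext i
      simp [Fin.snoc_castSucc]
    rw [c, c] at e1
    simp only [Fin.snoc_last] at e1
    have h1 := hp v v' t' e1
    have h3 := ht'.mul (Fin.last (n + 1)) i.castSucc.castSucc (Fin.last n).castSucc
      (by simp only [Fin.snoc_last, Fin.snoc_castSucc, map_mul, MvPolynomial.aeval_X])
    simp only [Fin.snoc_last, Fin.snoc_castSucc] at h3
    rw [← h3, h1, map_mul, MvPolynomial.aeval_X]

/-- Polynomial relations over `K₀` are preserved. -/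
theorem Ty.poly {n : ℕ} {v v' : Fin n → ℂ} (h : Ty K₀ φ n v v') (f : MvPolynomial (Fin n) K₀)
    (hf : MvPolynomial.aeval v f = 0) : MvPolynomial.aeval v' f = 0 := by
  obtain ⟨z', hz'⟩ := h.hom (MvPolynomial.aeval v f)
  have h1 := cty_poly f v v' z' hz'
  have h2 := hz'.const (Fin.last n) (by
    rw [Fin.snoc_last, hf]
    exact K₀.zero_mem)
  rw [Fin.snoc_last, Fin.snoc_last, hf] at h2
  rw [← h1, h2]

end Pool.Agent.QMX
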