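import Mathlib

/-!
# QMX / Defs: abstract quasiminimal structures

A partial elementary map is given by its graph `Γ : Set (M × M)`; `Q.El Γ` says that the graph is
elementary. `Q.cl` is the closure operator.
-/

set_option autoImplicit false

namespace Pool.Agent.QMX

/-- The graph of a map on a set. -/
def gr {M : Type} (f : M → M) (X : Set M) : Set (M × M) := (fun x => (x, f x)) '' X

/-- Abstract types and closure: elementary graphs `El` (preservation of the types of finite tuples),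
with one-point extensions of finite elementary maps, a closure operator with exchange which is
preserved by elementary maps, countable closures, one generic type over countable closed sets, and
finite determination of the types in the closure of a countable closed set and one more element. -/
structure Qm (M : Type) where
  El : Set (M × M) → Prop
  cl : Set M → Set M
  el_fin : ∀ Γ, (∀ Δ ⊆ Γ, Δ.Finite → El Δ) → El Γ
  el_mono : ∀ Γ Δ, Γ ⊆ Δ → El Δ → El Γ
  el_id : El (gr id Set.univ)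
  el_symm : ∀ Γ, El Γ → El (Prod.swap '' Γ)
  el_comp : ∀ Γ Δ, El Γ → El Δ → El {p | ∃ y, (p.1, y) ∈ Γ ∧ (y, p.2) ∈ Δ}
  el_fun : ∀ Γ, El Γ → ∀ a b b', (a, b) ∈ Γ → (a, b') ∈ Γ → b = b'
  el_hom : ∀ Γ, Γ.Finite → El Γ → ∀ b, ∃ b', El (insert (b, b') Γ)
  sub_cl : ∀ X, X ⊆ cl X
  cl_mono : ∀ X Y, X ⊆ Y → cl X ⊆ cl Y
  cl_cl : ∀ X, cl (cl X) ⊆ cl X
  cl_fin : ∀ X, ∀ x ∈ cl X, ∃ F ⊆ X, F.Finite ∧ x ∈ cl F
  exch : ∀ X x y, x ∈ cl (insert y X) → x ∉ cl X → y ∈ cl (insert x X)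
  cl_ctbl : ∀ X, X.Countable → (cl X).Countable
  el_cl : ∀ Γ, El Γ → ∀ Δ ⊆ Γ, ∀ b b', (b, b') ∈ Γ → b ∈ cl (Prod.fst '' Δ) →
    b' ∈ cl (Prod.snd '' Δ)
  gen : ∀ X, X.Countable → cl X ⊆ X → ∀ b b', b ∉ X → b' ∉ X → El (insert (b, b') (gr id X))
  fd : ∀ X, X.Countable → cl X ⊆ X → ∀ w, w ∉ X → ∀ D : Set M, D.Finite → D ⊆ cl (insert w X) →
    ∃ c ⊆ insert w X, c.Finite ∧ ∀ Δ : Set (M × M), (∀ p ∈ Δ, p.1 ∈ D) → El (gr id c ∪ Δ) →
      El (gr id (insert w X) ∪ Δ)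

variable {M : Type} (Q : Qm M)

/-- Finite determination of types over `Y` in the closure of `Y`. -/
def Qm.Fd (Y : Set M) : Prop :=
  ∀ D : Set M, D.Finite → D ⊆ Q.cl Y → ∃ c ⊆ Y, c.Finite ∧ ∀ Δ : Set (M × M),
    (∀ p ∈ Δ, p.1 ∈ D) → Q.El (gr id c ∪ Δ) → Q.El (gr id Y ∪ Δ)

/-- Independence of a family over `H`. -/
def Qm.Ind {I : Type} (H : Set M) (z : I → M) : Prop := ∀ j, z j ∉ Q.cl (H ∪ z '' {j}ᶜ)

/-- Infinite dimension. -/
def Qm.Inf (H : Set M) : Prop := ∀ F : Set M, F.Finite → ¬ H ⊆ Q.cl F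

/-- The face of the crown opposite to `j`. -/
def Qm.face {I : Type} (H : Set M) (z : I → M) (j : I) : Set M := Q.cl (H ∪ z '' {j}ᶜ)

/-- The crown: the union of the faces. -/
def Qm.crown {I : Type} (H : Set M) (z : I → M) : Set M := ⋃ j, Q.face H z j

/-- Crown automorphisms over `H` and `z` with inverse `f'`, trivial on the faces in `S`. -/
structure Qm.Cr {I : Type} (H : Set M) (z : I → M) (S : Set I) (f f' : M → M) : Prop where
  el : ∀ j, Q.El (gr f (Q.face H z j))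
  onto : ∀ j, f '' Q.face H z j = Q.face H z j
  left : ∀ x ∈ Q.crown H z, f' (f x) = x
  right : ∀ x ∈ Q.crown H z, f (f' x) = x
  fixH : ∀ x ∈ H, f x = x
  fixz : ∀ i, f (z i) = z i
  fixS : ∀ i ∈ S, ∀ x ∈ Q.face H z i, f x = x

end Pool.Agent.QMX
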