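import Pool.Agent.QMX.Real

/-!
# QMX / Det: determination of types over crowns

PROOF of `det`.  Induction on the number of elements of `Sᶜ` (for all `H` and `D`, `z` fixed). If
`S = univ`: `c = ∅`, `f` is the identity on the crown. Otherwise let `j ∉ S`, `B` from `exists_drop`,
`F ⊆ B` finite with `D ⊆ cl (F ∪ range z)`, `x ∈ B \ F`, `H₀ = cl (B \ {x})` (closed, countable, `Inf`,
`x ∉ H₀`, `D ⊆ N₀ = cl (H₀ ∪ range z)`), `T, T'` from `exists_T`. By induction there is a finite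
`c₀ ⊆ crown H₀ z` for `H₀`, `insert j S` and `D`. Let `c = c₀ ∪ T '' c₀ ∪ T '' D`; here
`T '' N₀ = cl (insert x (H₀ ∪ z '' {j}ᶜ)) ⊆ face H z j ⊆ crown H z`.
Let `f, f'` be a crown automorphism with `f = id` on `c`; `φ, φ'` from `phi`, `θ = T' ∘ f ∘ T`. For
`y ∈ c₀`: `f' y = f' (f y) = y`, `f (T y) = T y`, so `φ y = T' (T y) = y`. By the choice of `c₀`
`El (gr φ (crown H₀ z) ∪ gr id D)`. For `d ∈ D`: `θ d = T' (T d) = d`. The chain of
`gr θ N₀` (`theta_el`) with the reverse of `gr φ (crown H₀ z) ∪ gr id D`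
(`θ y = φ (f y)` for `y ∈ crown H₀ z`, `f y ∈ crown H₀ z` by `cr_crown`) gives
(1) `El (gr f (crown H₀ z) ∪ gr id D)`.
By `real` there is `g` with (2) `El (gr f (crown H z) ∪ gr g D)`. Put `Δ = {(d, g d) | d ∈ D} = gr g D`.
`El (gr id (crown H₀ z) ∪ Δ)`: chain of the reverse of (1) and (2) (restricted to `crown H₀ z`, `f` maps
it onto itself). By `ucr` `El (gr id (crown H z) ∪ Δ)`. The chain of (2) with the reverse of this
(`f` maps the crown to itself) is `gr f (crown H z) ∪ gr id D`.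
-/

set_option autoImplicit false

namespace Pool.Agent.QMX

variable {M : Type} (Q : Qm M) {I : Type} [Finite I] [Nontrivial I]

/-- The induction for `det`. -/
theorem Qm.det_aux (z : I → M) (n : ℕ) : ∀ (S : Set I), (Sᶜ).ncard = n → ∀ (H : Set M),
    H.Countable → Q.cl H ⊆ H → Q.Inf H → Q.Ind H z → ∀ D : Set M, D.Finite →
    D ⊆ Q.cl (H ∪ Set.range z) →
    ∃ c ⊆ Q.crown H z, c.Finite ∧ ∀ f f' : M → M, Q.Cr H z S f f' → (∀ x ∈ c, f x = x) →
      Q.El (gr f (Q.crown H z) ∪ gr id D) := by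
  induction n with
  | zero =>
    intro S hS H hc hcl hinf hz D hD hDN
    refine ⟨∅, Set.empty_subset _, Set.finite_empty, ?_⟩
    intro f f' hf _
    have hSu : ∀ i, i ∈ S := by
      intro i
      by_contra hi
      have h1 : Sᶜ = ∅ := (Set.ncard_eq_zero (Set.toFinite _)).1 hS
      have h2 : i ∈ Sᶜ := hi
      rw [h1] at h2
      exact h2
    refine Q.el_mono _ _ ?_ Q.el_id
    rintro p (hp | hp)
    · rw [mem_gr] at hp ⊢
      obtain ⟨hp1, hp2⟩ := hp
      refine ⟨Set.mem_univ _, ?_⟩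
      obtain ⟨i, hi⟩ := Set.mem_iUnion.1 hp1
      rw [hp2, hf.fixS i (hSu i) _ hi, id]
    · exact gr_mono id (Set.subset_univ _) hp
  | succ n ih =>
    intro S hS H hc hcl hinf hz D hD hDN
    have hne : ∃ j, j ∉ S := by
      by_contra hcon
      have h1 : Sᶜ = ∅ := by
        ext i
        constructor
        · intro hi
          exact absurd ⟨i, hi⟩ hcon
        · intro hi
          exact absurd hi (Set.notMem_empty i)
      rw [h1, Set.ncard_empty] at hS
      exact absurd hS (Nat.succ_ne_zero n).symm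
    obtain ⟨j, hj⟩ := hne
    have hcard : ((insert j S)ᶜ).ncard = n := by
      have h1 : (insert j S)ᶜ = Sᶜ \ {j} := by
        ext i
        simp only [Set.mem_compl_iff, Set.mem_insert_iff, Set.mem_sdiff, Set.mem_singleton_iff]
        tauto
      rw [h1, Set.ncard_sdiff_singleton_of_mem (show j ∈ Sᶜ from hj), hS]
      rfl
    obtain ⟨B, hBH, hHB, hBi, hBinf, hBdrop⟩ := Q.exists_drop H hinf
    -- the finite support
    have hDB : D ⊆ Q.cl (B ∪ Set.range z) := by
      refine hDN.trans (Q.cl_le ?_)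
      apply Set.union_subset
      · exact hHB.trans (Q.cl_mono _ _ Set.subset_union_left)
      · exact Set.subset_union_right.trans (Q.sub_cl _)
    obtain ⟨F, hF1, hF2, hF3⟩ := Q.fin_support hD hDB
    obtain ⟨x, hxB, hxF⟩ : ∃ x ∈ B, x ∉ F := by
      by_contra hcon
      push Not at hcon
      exact hBinf (hF2.subset hcon)
    set H₀ : Set M := Q.cl (B \ {x}) with hH₀
    have hBc : (B \ {x}).Countable := (hc.mono hBH).mono Set.sdiff_subset
    have hc₀ : H₀.Countable := Q.cl_ctbl _ hBc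
    have hcl₀ : Q.cl H₀ ⊆ H₀ := Q.cl_cl _
    have hinf₀ : Q.Inf H₀ := by
      have := hBdrop x x
      rwa [Set.pair_eq_singleton] at this
    have hx₀ : x ∉ H₀ := hBi x hxB
    have hH₀H : H₀ ⊆ H := (Q.cl_mono _ _ (Set.sdiff_subset.trans hBH)).trans hcl
    have hxH : x ∈ H := hBH hxB
    have hDN₀ : D ⊆ Q.cl (H₀ ∪ Set.range z) := by
      refine hF3.trans (Q.cl_mono _ _ ?_)
      intro y hy
      rcases hF1 hy with h | h
      · left
        apply Q.sub_cl
        refine ⟨h, ?_⟩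
        rintro rfl
        exact hxF hy
      · exact Or.inr h
    have hz₀ : Q.Ind H₀ z := Qm.Ind.mono Q hz (hH₀H.trans (Q.sub_cl _))
    have hzx : Q.Ind (insert x H₀) z :=
      Qm.Ind.mono Q hz ((Set.insert_subset hxH hH₀H).trans (Q.sub_cl _))
    obtain ⟨T, T', hT⟩ := Q.exists_T H₀ hc₀ z x hzx (fun h => hx₀ (hcl₀ h)) j
    obtain ⟨c₀, hc1, hc2, hc3⟩ := ih (insert j S) hcard H₀ hc₀ hcl₀ hinf₀ hz₀ D hD hDN₀
    have hcN : c₀ ⊆ Q.cl (H₀ ∪ Set.range z) := hc1.trans (Q.crown_sub H₀ z)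
    have hcr : Q.crown H₀ z ⊆ Q.crown H z := Q.crown_mono (hH₀H.trans (Q.sub_cl _)) z
    have hTN : ∀ y ∈ Q.cl (H₀ ∪ Set.range z), T y ∈ Q.crown H z := by
      intro y hy
      have h1 : T y ∈ T '' Q.cl (H₀ ∪ Set.range z) := ⟨y, hy, rfl⟩
      rw [hT.img] at h1
      apply Q.face_sub_crown H z j
      refine Q.cl_mono _ _ ?_ h1
      apply Set.insert_subset
      · exact Or.inl hxH
      · exact Set.union_subset_union_left _ hH₀H
    refine ⟨c₀ ∪ T '' c₀ ∪ T '' D, ?_, ?_, ?_⟩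
    · apply Set.union_subset
      · apply Set.union_subset (hc1.trans hcr)
        rintro _ ⟨y, hy, rfl⟩
        exact hTN y (hcN hy)
      · rintro _ ⟨y, hy, rfl⟩
        exact hTN y (hDN₀ hy)
    · exact (hc2.union (hc2.image T)).union (hD.image T)
    · intro f f' hf hfc
      have hphi := Q.phi hH₀H hxH hT hf
      have hφ : ∀ y ∈ c₀, (T' ∘ f ∘ T ∘ f') y = y := by
        intro y hy
        have h1 : f y = y := hfc y (Or.inl (Or.inl hy))
        have h2 : f' y = y := by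
          have := hf.left y (hcr (hc1 hy))
          rwa [h1] at this
        have h3 : f (T y) = T y := hfc (T y) (Or.inl (Or.inr ⟨y, hy, rfl⟩))
        change T' (f (T (f' y))) = y
        rw [h2, h3, hT.left y (hcN hy)]
      have hE0 := hc3 _ _ hphi hφ
      have hθd : ∀ d ∈ D, T' (f (T d)) = d := by
        intro d hd
        have h3 : f (T d) = T d := hfc (T d) (Or.inr ⟨d, hd, rfl⟩)
        rw [h3, hT.left d (hDN₀ hd)]
      have hθ := Q.theta_el hH₀H hxH hT hf
      have hcr₀ := Q.cr_crown hf H₀ hH₀H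
      have hcrH := Q.cr_crown hf H le_rfl
      -- (1)
      have h1 : Q.El (gr f (Q.crown H₀ z) ∪ gr id D) := by
        refine Q.chain hθ (Q.el_symm _ hE0) ?_
        rintro p (hp | hp)
        · rw [mem_gr] at hp
          obtain ⟨hp1, hp2⟩ := hp
          refine ⟨T' (f (T p.1)), mem_gr.2 ⟨Q.crown_sub H₀ z hp1, rfl⟩, ?_⟩
          refine ⟨(p.2, T' (f (T p.1))), Or.inl (mem_gr.2 ⟨?_, ?_⟩), rfl⟩
          · change p.2 ∈ Q.crown H₀ z
            rw [hp2, ← hcr₀]
            exact ⟨p.1, hp1, rfl⟩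
          · change T' (f (T p.1)) = T' (f (T (f' p.2)))
            rw [hp2, hf.left p.1 (hcr hp1)]
        · rw [mem_gr] at hp
          obtain ⟨hp1, hp2⟩ := hp
          have hp3 : p.2 = p.1 := hp2
          refine ⟨p.1, mem_gr.2 ⟨hDN₀ hp1, (hθd p.1 hp1).symm⟩, ?_⟩
          rw [hp3]
          exact ⟨(p.1, p.1), Or.inr (mem_gr.2 ⟨hp1, rfl⟩), rfl⟩
      -- (2)
      obtain ⟨g, h2⟩ := Q.real z S H hc hcl hinf hz f f' hf D hD hDN
      -- (3)
      have h3 : Q.El (gr id (Q.crown H₀ z) ∪ gr g D) := by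
        refine Q.chain (Q.el_symm _ h1) h2 ?_
        rintro p (hp | hp)
        · rw [mem_gr] at hp
          obtain ⟨hp1, hp2⟩ := hp
          have hp3 : p.2 = p.1 := hp2
          have hp4 := hp1
          rw [← hcr₀] at hp4
          obtain ⟨y, hy, hyp⟩ := hp4
          refine ⟨y, ⟨(y, p.1), Or.inl (mem_gr.2 ⟨hy, hyp.symm⟩), rfl⟩,
            Or.inl (mem_gr.2 ⟨hcr hy, ?_⟩)⟩
          change p.2 = f y
          rw [hyp, hp3]
        · rw [mem_gr] at hp
          obtain ⟨hp1, hp2⟩ := hp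
          exact ⟨p.1, ⟨(p.1, p.1), Or.inr (mem_gr.2 ⟨hp1, rfl⟩), rfl⟩,
            Or.inr (mem_gr.2 ⟨hp1, hp2⟩)⟩
      -- (4)
      have h4 : Q.El (gr id (Q.crown H z) ∪ gr g D) := by
        refine Q.ucr H₀ H hH₀H hinf₀ z hz (gr g D) ?_ h3
        intro p hp
        exact hDN₀ (mem_gr.1 hp).1
      -- (5)
      refine Q.chain h2 (Q.el_symm _ h4) ?_
      rintro p (hp | hp)
      · rw [mem_gr] at hp
        obtain ⟨hp1, hp2⟩ := hp
        refine ⟨f p.1, Or.inl (mem_gr.2 ⟨hp1, rfl⟩), ?_⟩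
        refine ⟨(f p.1, f p.1), Or.inl (mem_gr.2 ⟨?_, rfl⟩), ?_⟩
        · change f p.1 ∈ Q.crown H z
          rw [← hcrH]
          exact ⟨p.1, hp1, rfl⟩
        · change (f p.1, f p.1) = (f p.1, p.2)
          rw [hp2]
      · rw [mem_gr] at hp
        obtain ⟨hp1, hp2⟩ := hp
        have hp3 : p.2 = p.1 := hp2
        refine ⟨g p.1, Or.inr (mem_gr.2 ⟨hp1, rfl⟩), ?_⟩
        refine ⟨(p.1, g p.1), Or.inr (mem_gr.2 ⟨hp1, rfl⟩), ?_⟩
        change (g p.1, p.1) = (g p.1, p.2)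
        rw [hp3]

/-- Crown automorphisms which fix a suitable finite set do not move the type of `D`. -/
theorem Qm.det (z : I → M) (S : Set I) (H : Set M) (hc : H.Countable) (hcl : Q.cl H ⊆ H)
    (hinf : Q.Inf H) (hz : Q.Ind H z) (D : Set M) (hD : D.Finite)
    (hDN : D ⊆ Q.cl (H ∪ Set.range z)) :
    ∃ c ⊆ Q.crown H z, c.Finite ∧ ∀ f f' : M → M, Q.Cr H z S f f' → (∀ x ∈ c, f x = x) →
      Q.El (gr f (Q.crown H z) ∪ gr id D) :=
  Q.det_aux z _ S rfl H hc hcl hinf hz D hD hDN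

end Pool.Agent.QMX
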