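import Pool.Agent.QMX.Defs

/-!
# QMX / El: elementary graphs

PROOFS.  `chain`, `rev`: `el_comp`, `el_symm` and `el_mono`.  `el_inj`: `el_fun` for the swapped
graph.  `el_comp_gr`: `chain`.  `exists_inv`: `g y` := a chosen `x ∈ X` with `f x = y` (or `y` if
there is none); `El (gr g (f '' X))` by `rev`.  `finite_of_dom`: `Prod.fst` is injective on `Γ` by
`el_fun` and maps `Γ` into `D`.  `hom_set`: induction on the finite set `D` (`Set.Finite.induction_on`):
add one element with `el_hom` to the finite graph `Γ ∪ gr g D`; if the new element is `a ∉ D` use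
`Function.update g a a'`.  `hom_set_rev`: apply `hom_set` to the swapped graph.  `el_chain`: a finite
subset of the union is in one member (`el_fin`; `hmono` gives a monotone sequence; the members of a
finite subset have indices below some `n`).
-/

set_option autoImplicit false

namespace Pool.Agent.QMX

variable {M : Type}

lemma mem_gr {f : M → M} {X : Set M} {p : M × M} : p ∈ gr f X ↔ p.1 ∈ X ∧ p.2 = f p.1 := by
  constructor
  · rintro ⟨x, hx, rfl⟩
    exact ⟨hx, rfl⟩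
  · rintro ⟨h1, h2⟩
    exact ⟨p.1, h1, Prod.ext rfl h2.symm⟩

lemma gr_mono (f : M → M) {X Y : Set M} (h : X ⊆ Y) : gr f X ⊆ gr f Y := by
  exact Set.image_mono h

lemma gr_congr {f g : M → M} {X : Set M} (h : Set.EqOn f g X) : gr f X = gr g X := by
  apply Set.image_congr
  intro x hx
  show (x, f x) = (x, g x)
  rw [h hx]

lemma gr_union (f : M → M) (X Y : Set M) : gr f (X ∪ Y) = gr f X ∪ gr f Y := by
  exact Set.image_union _ _ _

lemma gr_insert (f : M → M) (a : M) (X : Set M) : gr f (insert a X) = insert (a, f a) (gr f X) := by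
  exact Set.image_insert_eq

variable (Q : Qm M)

theorem Qm.chain {Γ Δ Λ : Set (M × M)} (h1 : Q.El Γ) (h2 : Q.El Δ)
    (h : ∀ p ∈ Λ, ∃ y, (p.1, y) ∈ Γ ∧ (y, p.2) ∈ Δ) : Q.El Λ := by
  exact Q.el_mono Λ _ (fun p hp => h p hp) (Q.el_comp Γ Δ h1 h2)

theorem Qm.rev {Γ Λ : Set (M × M)} (h1 : Q.El Γ) (h : ∀ p ∈ Λ, (p.2, p.1) ∈ Γ) : Q.El Λ := by
  refine Q.el_mono Λ _ (fun p hp => ?_) (Q.el_symm Γ h1)
  exact ⟨(p.2, p.1), h p hp, rfl⟩

theorem Qm.el_inj {Γ : Set (M × M)} (h1 : Q.El Γ) {a a' b : M} (h : (a, b) ∈ Γ)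
    (h' : (a', b) ∈ Γ) : a = a' := by
  exact Q.el_fun _ (Q.el_symm Γ h1) b a a' ⟨(a, b), h, rfl⟩ ⟨(a', b), h', rfl⟩

theorem Qm.el_id_gr (X : Set M) : Q.El (gr id X) := by
  exact Q.el_mono _ _ (gr_mono id (Set.subset_univ X)) Q.el_id

theorem Qm.el_comp_gr {f g : M → M} {X Y : Set M} (h1 : Q.El (gr f X)) (h2 : Q.El (gr g Y))
    (h : ∀ x ∈ X, f x ∈ Y) : Q.El (gr (g ∘ f) X) := by
  refine Q.chain h1 h2 (fun p hp => ?_)
  obtain ⟨hp1, hp2⟩ := mem_gr.1 hp
  refine ⟨f p.1, mem_gr.2 ⟨hp1, rfl⟩, mem_gr.2 ⟨h _ hp1, hp2⟩⟩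

theorem Qm.el_injOn {f : M → M} {X : Set M} (h1 : Q.El (gr f X)) : Set.InjOn f X := by
  intro x hx y hy hxy
  exact Q.el_inj h1 (b := f x) (mem_gr.2 ⟨hx, rfl⟩) (mem_gr.2 ⟨hy, hxy⟩)

theorem Qm.el_inv {f g : M → M} {X : Set M} (h1 : Q.El (gr f X)) (h : ∀ x ∈ X, g (f x) = x) :
    Q.El (gr g (f '' X)) := by
  refine Q.rev h1 (fun p hp => ?_)
  obtain ⟨⟨x, hx, hxp⟩, hp2⟩ := mem_gr.1 hp
  refine mem_gr.2 ⟨?_, ?_⟩
  · show p.2 ∈ X
    rw [hp2, ← hxp, h x hx]; exact hx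
  · show p.1 = f p.2
    rw [hp2, ← hxp, h x hx]

theorem Qm.exists_inv {f : M → M} {X : Set M} (h1 : Q.El (gr f X)) :
    ∃ g : M → M, (∀ x ∈ X, g (f x) = x) ∧ Q.El (gr g (f '' X)) := by
  classical
  have hg : ∃ g : M → M, ∀ x ∈ X, g (f x) = x := by
    refine ⟨fun y => if h : ∃ x ∈ X, f x = y then h.choose else y, fun x hx => ?_⟩
    have hex : ∃ x' ∈ X, f x' = f x := ⟨x, hx, rfl⟩
    simp only [dif_pos hex]
    exact Q.el_injOn h1 hex.choose_spec.1 hx hex.choose_spec.2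
  obtain ⟨g, hg⟩ := hg
  exact ⟨g, hg, Q.el_inv h1 hg⟩

theorem Qm.finite_of_dom {Γ : Set (M × M)} (h1 : Q.El Γ) {D : Set M} (hD : D.Finite)
    (h : ∀ p ∈ Γ, p.1 ∈ D) : Γ.Finite := by
  refine Set.Finite.of_finite_image (f := Prod.fst) (hD.subset ?_) ?_
  · rintro _ ⟨p, hp, rfl⟩
    exact h p hp
  · rintro ⟨a, b⟩ hp ⟨a', b'⟩ hp' hab
    have : a = a' := hab
    subst this
    rw [Q.el_fun _ h1 a b b' hp hp']

theorem Qm.hom_set {Γ : Set (M × M)} (hf : Γ.Finite) (h1 : Q.El Γ) {D : Set M} (hD : D.Finite) :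
    ∃ g : M → M, Q.El (Γ ∪ gr g D) := by
  classical
  induction D, hD using Set.Finite.induction_on with
  | empty =>
    refine ⟨id, ?_⟩
    have : Γ ∪ gr id (∅ : Set M) = Γ := by
      simp [gr]
    rw [this]; exact h1
  | @insert a s ha hs ih =>
    obtain ⟨g, hg⟩ := ih
    have hfin : (Γ ∪ gr g s).Finite := hf.union (hs.image _)
    obtain ⟨a', ha'⟩ := Q.el_hom _ hfin hg a
    refine ⟨Function.update g a a', ?_⟩
    have hE : gr (Function.update g a a') (insert a s) = insert (a, a') (gr g s) := by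
      rw [gr_insert]
      have : gr (Function.update g a a') s = gr g s := by
        apply gr_congr
        intro x hx
        have hne : x ≠ a := by rintro rfl; exact ha hx
        exact Function.update_of_ne hne _ _
      rw [this, Function.update_self]
    rw [hE, Set.union_insert]
    exact ha'

theorem Qm.hom_set_rev {Γ : Set (M × M)} (hf : Γ.Finite) (h1 : Q.El Γ) {D : Set M}
    (hD : D.Finite) : ∃ g : M → M, Q.El (Γ ∪ (fun x => (g x, x)) '' D) := by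
  obtain ⟨g, hg⟩ := Q.hom_set (hf.image Prod.swap) (Q.el_symm Γ h1) hD
  refine ⟨g, Q.rev hg ?_⟩
  rintro p (hp | ⟨x, hx, rfl⟩)
  · exact Or.inl ⟨p, hp, rfl⟩
  · exact Or.inr ⟨x, hx, rfl⟩

theorem Qm.el_chain (Γ : Set (M × M)) (Δ : ℕ → Set (M × M)) (hmono : ∀ n, Δ n ⊆ Δ (n + 1))
    (h : ∀ n, Q.El (Γ ∪ Δ n)) : Q.El (Γ ∪ ⋃ n, Δ n) := by
  have hm : Monotone Δ := monotone_nat_of_le_succ hmono
  apply Q.el_fin
  intro Λ hΛ hfin
  have key : ∃ n, Λ ⊆ Γ ∪ Δ n := by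
    clear h
    induction Λ, hfin using Set.Finite.induction_on with
    | empty => exact ⟨0, Set.empty_subset _⟩
    | @insert p s hp hs ih =>
      obtain ⟨n, hn⟩ := ih (fun x hx => hΛ (Set.mem_insert_of_mem _ hx))
      rcases hΛ (Set.mem_insert p s) with h1 | h1
      · refine ⟨n, Set.insert_subset (Or.inl h1) hn⟩
      · obtain ⟨m, hm'⟩ := Set.mem_iUnion.1 h1
        refine ⟨max n m, Set.insert_subset (Or.inr (hm (le_max_right n m) hm')) ?_⟩
        exact hn.trans (Set.union_subset_union_right Γ (hm (le_max_left n m)))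
  obtain ⟨n, hn⟩ := key
  exact Q.el_mono _ _ hn (h n)

end Pool.Agent.QMX
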