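import Pool.Agent.QMX.El

/-!
# QMX / ElCl: elementary maps and closure

PROOFS.  `map_cl`: `el_cl` for `Γ = gr f Y`, `Δ = gr f S`, `(b, b') = (x, f x)`; the projections of
`gr f S` are `S` and `f '' S`.  `map_cl_iff`: the other direction with `exists_inv`.
`image_cl`: `⊆` is `map_cl`; conversely `y ∈ cl (f '' S)` is `f x` with `x ∈ Y` and `map_cl_iff`
gives `x ∈ cl S`.  `dom_cl`: `el_cl` for `Δ = gr h Y`, the second projection of `gr h Y` is `h '' Y`.
`fin_support`: induction on the finite set `D` with `cl_fin`.  `closed_union`: clear.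
-/

set_option autoImplicit false

namespace Pool.Agent.QMX

variable {M : Type} (Q : Qm M)

private lemma fst_gr (f : M → M) (X : Set M) : Prod.fst '' gr f X = X := by
  ext x
  constructor
  · rintro ⟨p, hp, rfl⟩
    exact (mem_gr.1 hp).1
  · intro hx
    exact ⟨(x, f x), mem_gr.2 ⟨hx, rfl⟩, rfl⟩

private lemma snd_gr (f : M → M) (X : Set M) : Prod.snd '' gr f X = f '' X := by
  ext y
  constructor
  · rintro ⟨p, hp, rfl⟩
    exact ⟨p.1, (mem_gr.1 hp).1, (mem_gr.1 hp).2.symm⟩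
  · rintro ⟨x, hx, rfl⟩
    exact ⟨(x, f x), mem_gr.2 ⟨hx, rfl⟩, rfl⟩

lemma Qm.cl_idem (X : Set M) : Q.cl (Q.cl X) = Q.cl X := by
  exact Set.Subset.antisymm (Q.cl_cl X) (Q.sub_cl _)

lemma Qm.cl_le {X Y : Set M} (h : X ⊆ Q.cl Y) : Q.cl X ⊆ Q.cl Y := by
  exact (Q.cl_mono _ _ h).trans (Q.cl_cl Y)

lemma Qm.cl_eq {X : Set M} (h : Q.cl X ⊆ X) : Q.cl X = X := by
  exact Set.Subset.antisymm h (Q.sub_cl X)

lemma Qm.cl_union_cl (X Y : Set M) : Q.cl (Q.cl X ∪ Y) = Q.cl (X ∪ Y) := by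
  apply Set.Subset.antisymm
  · apply Q.cl_le
    exact Set.union_subset (Q.cl_mono _ _ Set.subset_union_left)
      (Set.subset_union_right.trans (Q.sub_cl _))
  · exact Q.cl_mono _ _ (Set.union_subset_union_left Y (Q.sub_cl X))

lemma Qm.cl_insert_cl (x : M) (X : Set M) : Q.cl (insert x (Q.cl X)) = Q.cl (insert x X) := by
  apply Set.Subset.antisymm
  · apply Q.cl_le
    exact Set.insert_subset (Q.sub_cl _ (Set.mem_insert x X))
      (Q.cl_mono _ _ (Set.subset_insert x X))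
  · exact Q.cl_mono _ _ (Set.insert_subset_insert (Q.sub_cl X))

/-- Finite supports. -/
theorem Qm.fin_support {X D : Set M} (hD : D.Finite) (h : D ⊆ Q.cl X) :
    ∃ F ⊆ X, F.Finite ∧ D ⊆ Q.cl F := by
  induction D, hD using Set.Finite.induction_on with
  | empty => exact ⟨∅, Set.empty_subset _, Set.finite_empty, Set.empty_subset _⟩
  | @insert a s ha hs ih =>
    obtain ⟨F, hFX, hF, hsF⟩ := ih (fun x hx => h (Set.mem_insert_of_mem _ hx))
    obtain ⟨G, hGX, hG, haG⟩ := Q.cl_fin X a (h (Set.mem_insert a s))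
    refine ⟨F ∪ G, Set.union_subset hFX hGX, hF.union hG, Set.insert_subset ?_ ?_⟩
    · exact Q.cl_mono _ _ Set.subset_union_right haG
    · exact hsF.trans (Q.cl_mono _ _ Set.subset_union_left)

theorem Qm.map_cl {f : M → M} {Y S : Set M} (h : Q.El (gr f Y)) (hS : S ⊆ Y) {x : M}
    (hx : x ∈ Y) (hxS : x ∈ Q.cl S) : f x ∈ Q.cl (f '' S) := by
  have h1 := Q.el_cl _ h (gr f S) (gr_mono f hS) x (f x) (mem_gr.2 ⟨hx, rfl⟩)
  rw [fst_gr, snd_gr] at h1
  exact h1 hxS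

theorem Qm.map_cl_iff {f : M → M} {Y S : Set M} (h : Q.El (gr f Y)) (hS : S ⊆ Y) {x : M}
    (hx : x ∈ Y) : f x ∈ Q.cl (f '' S) ↔ x ∈ Q.cl S := by
  refine ⟨fun hfx => ?_, Q.map_cl h hS hx⟩
  obtain ⟨g, hg, hgel⟩ := Q.exists_inv h
  have h1 := Q.map_cl hgel (Set.image_mono hS) (Set.mem_image_of_mem f hx) hfx
  rw [hg x hx] at h1
  have h2 : g '' (f '' S) = S := by
    ext y
    constructor
    · rintro ⟨_, ⟨z, hz, rfl⟩, rfl⟩
      rw [hg z (hS hz)]
      exact hz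
    · intro hy
      exact ⟨f y, ⟨y, hy, rfl⟩, hg y (hS hy)⟩
  rw [h2] at h1
  exact h1

theorem Qm.image_cl {f : M → M} {Y S : Set M} (h : Q.El (gr f Y)) (hS : S ⊆ Y)
    (hSY : Q.cl S ⊆ Y) (hfS : Q.cl (f '' S) ⊆ f '' Y) : f '' Q.cl S = Q.cl (f '' S) := by
  apply Set.Subset.antisymm
  · rintro _ ⟨x, hx, rfl⟩
    exact Q.map_cl h hS (hSY hx) hx
  · intro y hy
    obtain ⟨x, hx, rfl⟩ := hfS hy
    exact ⟨x, (Q.map_cl_iff h hS hx).1 hy, rfl⟩

/-- The images of elements of the closure are in the closure of the image. -/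
theorem Qm.dom_cl {h : M → M} {Y : Set M} {Δ : Set (M × M)} (hel : Q.El (gr h Y ∪ Δ)) {p : M × M}
    (hp : p ∈ Δ) (hpY : p.1 ∈ Q.cl Y) : p.2 ∈ Q.cl (h '' Y) := by
  have h1 := Q.el_cl _ hel (gr h Y) Set.subset_union_left p.1 p.2 (Or.inr hp)
  rw [fst_gr, snd_gr] at h1
  exact h1 hpY

end Pool.Agent.QMX
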