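import Pool.Agent.QMX.FdC

/-!
# QMX / Exc: extension of crown isomorphisms

PROOF of `exc_aut`.  `bf` for `Y = crown H z` (countable), `h = f`, `Δ = ∅`: `El (gr f Y)` by `real` with
`D = ∅`; `f '' Y = Y`; `Fd Y` by `fd_crown`; `cl Y = cl (H ∪ range z)` by `cl_crown`.
PROOF of `exc`.  Let `j : I`, `X = face K z j` (countable, closed), `X' = face K z' j = f '' X`. `lemA` for
`f` on `X`, `b = z j ∉ X`, `b' = z' j ∉ X'`: `F₀` elementary on `N = cl (K ∪ range z)`
(`cl_insert_face`), onto `N' = cl (K ∪ range z')`, `F₀ = f` on `X`, `F₀ (z i) = z' i` for all `i`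
(`z i ∈ X` for `i ≠ j`), `F₀ = f = id` on `K`. `F₁` the inverse of `F₀` (`exists_inv`). `g = F₁ ∘ f`: for each
`i` `f` maps `face K z i` onto `face K z' i = F₀ '' face K z i` (`image_cl`), so `g` is elementary on
`face K z i` and maps it onto itself; `g` is the identity on `K` and on `z i`. `cr_of_map`, `exc_aut`:
`G` elementary on `N`, `G = g` on the crown, `G '' N = N`. `F = F₀ ∘ G`; for `x` in the crown
`F x = F₀ (F₁ (f x)) = f x` because `f x ∈ N' = F₀ '' N`.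
-/

set_option autoImplicit false

namespace Pool.Agent.QMX

variable {M : Type} (Q : Qm M) {I : Type} [Finite I] [Nontrivial I]

/-- Extension of crown automorphisms. -/
theorem Qm.exc_aut (z : I → M) (H : Set M) (hc : H.Countable) (hcl : Q.cl H ⊆ H)
    (hinf : Q.Inf H) (hz : Q.Ind H z) (f f' : M → M) (hf : Q.Cr H z ∅ f f') :
    ∃ F : M → M, Q.El (gr F (Q.cl (H ∪ Set.range z))) ∧ Set.EqOn F f (Q.crown H z) ∧
      F '' Q.cl (H ∪ Set.range z) = Q.cl (H ∪ Set.range z) := by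
  have hY : f '' Q.crown H z = Q.crown H z := Q.cr_crown hf H subset_rfl
  have hFd := Q.fd_crown z H hc hcl hinf hz
  obtain ⟨g₀, hg₀⟩ := Q.real z ∅ H hc hcl hinf hz f f' hf ∅ Set.finite_empty
    (Set.empty_subset _)
  obtain ⟨g, h1, h2, -, h4⟩ := Q.bf (Q.crown H z) (Q.crown_countable hc z) f hFd
    (by rw [hY]; exact hFd) ∅ Set.finite_empty (fun p hp => absurd hp (Set.notMem_empty p))
    (Q.el_mono _ _ (Set.union_subset_union_right _ (Set.empty_subset _)) hg₀)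
  rw [hY, Q.cl_crown] at h4
  rw [Q.cl_crown] at h1
  exact ⟨g, h1, h2, h4⟩

/-- Extension of crown isomorphisms. -/
theorem Qm.exc (z z' : I → M) (K : Set M) (hc : K.Countable) (hcl : Q.cl K ⊆ K)
    (hinf : Q.Inf K) (hz : Q.Ind K z) (hz' : Q.Ind K z') (f : M → M)
    (hel : ∀ j, Q.El (gr f (Q.face K z j))) (him : ∀ j, f '' Q.face K z j = Q.face K z' j)
    (hK : ∀ x ∈ K, f x = x) (hzz : ∀ i, f (z i) = z' i) :
    ∃ F : M → M, Q.El (gr F (Q.cl (K ∪ Set.range z))) ∧ Set.EqOn F f (Q.crown K z) ∧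
      F '' Q.cl (K ∪ Set.range z) = Q.cl (K ∪ Set.range z') := by
  obtain ⟨j, _, _⟩ := exists_pair_ne I
  obtain ⟨F₀, hF1, hF2, hF3, hF4⟩ := Q.lemA (Q.face K z j) (Q.face_countable hc z j)
    (Q.face_closed K z j).subset f (hel j) (by
      rw [him j]
      exact (Q.face_closed K z' j).subset) (z j) (z' j) (hz j) (by
      rw [him j]
      exact hz' j)
  rw [him j] at hF4
  rw [Q.cl_insert_face] at hF1
  rw [Q.cl_insert_face, Q.cl_insert_face] at hF4
  have hN : ∀ i, Q.face K z i ⊆ Q.cl (K ∪ Set.range z) := fun i =>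
    (Q.face_sub_crown K z i).trans (Q.crown_sub K z)
  have hN' : ∀ i, Q.face K z' i ⊆ Q.cl (K ∪ Set.range z') := fun i =>
    (Q.face_sub_crown K z' i).trans (Q.crown_sub K z')
  have hF0K : ∀ x ∈ K, F₀ x = x := fun x hx => by
    rw [hF2 (Q.sub_face K z j (Or.inl hx)), hK x hx]
  have hF0z : ∀ i, F₀ (z i) = z' i := by
    intro i
    by_cases hij : i = j
    · subst hij
      exact hF3
    · rw [hF2 (Q.sub_face K z j (Or.inr ⟨i, hij, rfl⟩)), hzz i]
  obtain ⟨F₁, h1, h2⟩ := Q.exists_inv hF1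
  rw [hF4] at h2
  have hface : ∀ i, F₀ '' Q.face K z i = Q.face K z' i := by
    intro i
    have h3 : F₀ '' (K ∪ z '' {i}ᶜ) = K ∪ z' '' {i}ᶜ := by
      rw [Set.image_union]
      congr 1
      · ext y
        constructor
        · rintro ⟨x, hx, rfl⟩
          rwa [hF0K x hx]
        · intro hy
          exact ⟨y, hy, hF0K y hy⟩
      · rw [← Set.image_comp]
        apply Set.image_congr
        intro k _
        exact hF0z k
    have h4 : F₀ '' Q.cl (K ∪ z '' {i}ᶜ) = Q.cl (F₀ '' (K ∪ z '' {i}ᶜ)) := by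
      refine Q.image_cl hF1 ((Q.sub_cl _).trans (hN i)) (hN i) ?_
      rw [h3, hF4]
      exact hN' i
    rw [h3] at h4
    exact h4
  have hf' : ∀ i, ∀ x ∈ Q.face K z i, f x ∈ Q.face K z' i := by
    intro i x hx
    rw [← him i]
    exact ⟨x, hx, rfl⟩
  obtain ⟨g', hg'⟩ := Q.cr_of_map hz (f := F₁ ∘ f)
    (fun i => Q.el_comp_gr (hel i) h2 fun x hx => hN' i (hf' i x hx))
    (fun i => by
      rw [Set.image_comp, him i, ← hface i]
      ext y
      constructor
      · rintro ⟨_, ⟨u, hu, rfl⟩, rfl⟩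
        rwa [h1 u (hN i hu)]
      · intro hy
        exact ⟨F₀ y, ⟨y, hy, rfl⟩, h1 y (hN i hy)⟩)
    (fun x hx => by
      have hxN : x ∈ Q.cl (K ∪ Set.range z) := Q.sub_cl _ (Or.inl hx)
      change F₁ (f x) = x
      rw [hK x hx]
      conv_lhs => rw [← hF0K x hx]
      exact h1 x hxN)
    (fun i => by
      change F₁ (f (z i)) = z i
      rw [hzz i, ← hF0z i]
      exact h1 _ (Q.sub_cl _ (Or.inr ⟨i, rfl⟩)))
  obtain ⟨G, hG1, hG2, hG3⟩ := Q.exc_aut z K hc hcl hinf hz _ g' hg'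
  refine ⟨F₀ ∘ G, Q.el_comp_gr hG1 hF1 (fun x hx => ?_), fun x hx => ?_, ?_⟩
  · rw [← hG3]
    exact ⟨x, hx, rfl⟩
  · obtain ⟨i, hi⟩ := Set.mem_iUnion.1 hx
    change F₀ (G x) = f x
    rw [hG2 hx]
    change F₀ (F₁ (f x)) = f x
    have h3 : f x ∈ Q.cl (K ∪ Set.range z') := hN' i (hf' i x hi)
    rw [← hF4] at h3
    obtain ⟨y, hy, hyx⟩ := h3
    rw [← hyx, h1 y hy]
  · rw [Set.image_comp, hG3, hF4]

end Pool.Agent.QMX
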