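import Pool.Agent.QMX.Det

/-!
# QMX / FdC: finite determination over crowns

PROOF of `cr_of_el`.  `F` is elementary on `N = cl (H ∪ range z)`, the identity on `H ∪ range z`, and
`F '' N = N`; `F'` from `exists_inv`. `el`: restriction. `onto`: `image_cl` for `H ∪ z '' {j}ᶜ`. `left`:
clear. `right`: `x ∈ crown ⊆ N` is `F y` with `y ∈ N`, `F (F' (F y)) = F y`.
PROOF of `cr_of_map`.  Only the inverse is missing. `f` is injective on the crown: let
`x ∈ face H z i`, `y ∈ face H z j`, `f x = f y`. Then `f x ∈ face H z i ∩ face H z j =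
cl (H ∪ z '' ({i}ᶜ ∩ {j}ᶜ))` (`ind_inter`), and `f` maps this set onto itself (`image_cl`), so by
injectivity on `face H z j` (`el_injOn`) `y ∈ cl (H ∪ z '' ({i}ᶜ ∩ {j}ᶜ)) ⊆ face H z i`, and `x = y` by
injectivity on `face H z i`. `f'` := the inverse on the crown (`Function.invFunOn`; `M` is not empty
because `I` is nontrivial).
PROOF of `fd_crown`.  Let `D ⊆ cl (crown H z) = N` be finite (`cl_crown`), `j : I`, `X = face H z j`,
`w = z j ∉ X`, `cl (insert w X) = N` (`cl_insert_face`). `c₃` from `det` for `S = ∅`. `c₂` from `Q.fd` for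
`X`, `w` and the finite set `D ∪ c₃`. `c = c₂ ∪ c₃ ∪ {w} ⊆ crown H z`. Let `Δ` have its first components in `D`
and `El (gr id c ∪ Δ)`. `Δ` is finite (`finite_of_dom`). `Δ₂ = gr id c₃ ∪ Δ`;
`El (gr id (insert w X) ∪ Δ₂)` by the choice of `c₂`. `lemA_fin` gives `F`, elementary on `N`, the identity
on `insert w X` and `c₃`, `F p.1 = p.2` for `p ∈ Δ`, `F '' N = N`. Note `H ∪ range z ⊆ insert w X`.
`cr_of_el`: `F` is a crown automorphism; by the choice of `c₃` `El (gr F (crown H z) ∪ gr id D)`. The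
chain of its reverse (`F y ↦ y`, `d ↦ d`) with `gr F N` (`y ↦ F y`, `p.1 ↦ p.2`) is
`gr id (crown H z) ∪ Δ` (every `x` in the crown is `F y` with `y` in the crown).
-/

set_option autoImplicit false

namespace Pool.Agent.QMX

variable {M : Type} (Q : Qm M) {I : Type} [Nontrivial I]

omit [Nontrivial I] in
private lemma fix_img {f : M → M} {H : Set M} {z : I → M} (hH : ∀ x ∈ H, f x = x)
    (hz : ∀ i, f (z i) = z i) (s : Set I) : f '' (H ∪ z '' s) = H ∪ z '' s := by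
  have h : ∀ x ∈ H ∪ z '' s, f x = x := by
    rintro x (hx | ⟨i, _, rfl⟩)
    · exact hH x hx
    · exact hz i
  ext y
  constructor
  · rintro ⟨x, hx, rfl⟩
    rwa [h x hx]
  · intro hy
    exact ⟨y, hy, h y hy⟩

theorem Qm.cr_of_el {H : Set M} {z : I → M} {F : M → M}
    (hel : Q.El (gr F (Q.cl (H ∪ Set.range z))))
    (him : F '' Q.cl (H ∪ Set.range z) = Q.cl (H ∪ Set.range z)) (hH : ∀ x ∈ H, F x = x)
    (hz : ∀ i, F (z i) = z i) : ∃ F' : M → M, Q.Cr H z ∅ F F' := by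
  obtain ⟨F', h1, h2⟩ := Q.exists_inv hel
  have hN : ∀ j, Q.face H z j ⊆ Q.cl (H ∪ Set.range z) := fun j =>
    (Q.face_sub_crown H z j).trans (Q.crown_sub H z)
  refine ⟨F', ⟨fun j => Q.el_mono _ _ (gr_mono F (hN j)) hel, fun j => ?_, fun x hx => ?_,
    fun x hx => ?_, hH, hz, fun i hi => absurd hi (Set.notMem_empty i)⟩⟩
  · have h3 : F '' Q.cl (H ∪ z '' {j}ᶜ) = Q.cl (F '' (H ∪ z '' {j}ᶜ)) := by
      refine Q.image_cl hel ((Q.sub_cl _).trans (hN j)) (hN j) ?_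
      rw [fix_img hH hz, him]
      exact hN j
    rw [fix_img hH hz] at h3
    exact h3
  · exact h1 x (Q.crown_sub H z hx)
  · have h3 := Q.crown_sub H z hx
    rw [← him] at h3
    obtain ⟨y, hy, rfl⟩ := h3
    rw [h1 y hy]

theorem Qm.cr_of_map {H : Set M} {z : I → M} (hz : Q.Ind H z) {f : M → M}
    (hel : ∀ j, Q.El (gr f (Q.face H z j))) (him : ∀ j, f '' Q.face H z j = Q.face H z j)
    (hH : ∀ x ∈ H, f x = x) (hz' : ∀ i, f (z i) = z i) : ∃ f' : M → M, Q.Cr H z ∅ f f' := by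
  obtain ⟨i₀, _, _⟩ := exists_pair_ne I
  have : Nonempty M := ⟨z i₀⟩
  have hinj : Set.InjOn f (Q.crown H z) := by
    intro x hx y hy hxy
    obtain ⟨i, hi⟩ := Set.mem_iUnion.1 hx
    obtain ⟨j, hj⟩ := Set.mem_iUnion.1 hy
    have h1 : f y ∈ Q.face H z i := by
      rw [← hxy, ← him i]
      exact ⟨x, hi, rfl⟩
    have h2 : f y ∈ Q.face H z j := by
      rw [← him j]
      exact ⟨y, hj, rfl⟩
    have h3 := Q.ind_inter hz {i}ᶜ {j}ᶜ h1 h2
    have hLj : Q.cl (H ∪ z '' ({i}ᶜ ∩ {j}ᶜ)) ⊆ Q.face H z j :=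
      Q.cl_mono _ _ (Set.union_subset_union_right _ (Set.image_mono Set.inter_subset_right))
    have hLi : Q.cl (H ∪ z '' ({i}ᶜ ∩ {j}ᶜ)) ⊆ Q.face H z i :=
      Q.cl_mono _ _ (Set.union_subset_union_right _ (Set.image_mono Set.inter_subset_left))
    have h4 : f '' Q.cl (H ∪ z '' ({i}ᶜ ∩ {j}ᶜ)) = Q.cl (f '' (H ∪ z '' ({i}ᶜ ∩ {j}ᶜ))) := by
      refine Q.image_cl (hel j) ((Q.sub_cl _).trans hLj) hLj ?_
      rw [fix_img hH hz', him j]
      exact hLj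
    rw [fix_img hH hz'] at h4
    rw [← h4] at h3
    obtain ⟨y', hy', hyy⟩ := h3
    have h5 : y' = y := Q.el_injOn (hel j) (hLj hy') hj hyy
    rw [h5] at hy'
    exact Q.el_injOn (hel i) hi (hLi hy') hxy
  refine ⟨Function.invFunOn f (Q.crown H z), ⟨hel, him, fun x hx => hinj.leftInvOn_invFunOn hx,
    fun x hx => ?_, hH, hz', fun i hi => absurd hi (Set.notMem_empty i)⟩⟩
  obtain ⟨j, hj⟩ := Set.mem_iUnion.1 hx
  rw [← him j] at hj
  obtain ⟨y, hy, rfl⟩ := hj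
  exact Function.invFunOn_eq ⟨y, Q.face_sub_crown H z j hy, rfl⟩

/-- Finite determination over crowns. -/
theorem Qm.fd_crown [Finite I] (z : I → M) (H : Set M) (hc : H.Countable) (hcl : Q.cl H ⊆ H)
    (hinf : Q.Inf H) (hz : Q.Ind H z) : Q.Fd (Q.crown H z) := by
  intro D hD hDN
  obtain ⟨j, _, _⟩ := exists_pair_ne I
  rw [Q.cl_crown] at hDN
  have hXc : (Q.face H z j).Countable := Q.face_countable hc z j
  have hXcl : Q.cl (Q.face H z j) ⊆ Q.face H z j := (Q.face_closed H z j).subset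
  have hins : insert (z j) (Q.face H z j) ⊆ Q.crown H z :=
    Set.insert_subset (Q.sub_crown H z (Or.inr ⟨j, rfl⟩)) (Q.face_sub_crown H z j)
  obtain ⟨c₃, hc₃, hc₃f, hdet⟩ := Q.det z ∅ H hc hcl hinf hz D hD hDN
  obtain ⟨c₂, hc₂, hc₂f, hfd⟩ := Q.fd (Q.face H z j) hXc hXcl (z j) (hz j) (D ∪ c₃)
    (hD.union hc₃f) (by
      rw [Q.cl_insert_face]
      exact Set.union_subset hDN (hc₃.trans (Q.crown_sub H z)))
  refine ⟨c₂ ∪ c₃, Set.union_subset (hc₂.trans hins) hc₃, hc₂f.union hc₃f, fun Δ hΔ hel => ?_⟩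
  have hΔf : Δ.Finite := Q.finite_of_dom (Q.el_mono _ _ Set.subset_union_right hel) hD hΔ
  have h1 : Q.El (gr id (insert (z j) (Q.face H z j)) ∪ (gr id c₃ ∪ Δ)) := by
    apply hfd
    · rintro p (hp | hp)
      · exact Or.inr (mem_gr.1 hp).1
      · exact Or.inl (hΔ p hp)
    · rw [gr_union, Set.union_assoc] at hel
      exact hel
  have hgf : (gr id c₃ : Set (M × M)).Finite := hc₃f.image _
  obtain ⟨F, hF1, hF2, hF3, hF4⟩ := Q.lemA_fin (Q.face H z j) hXc hXcl (z j) (hz j)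
    (gr id c₃ ∪ Δ) (hgf.union hΔf) (by
      rw [Q.cl_insert_face]
      rintro p (hp | hp)
      · exact Q.crown_sub H z (hc₃ (mem_gr.1 hp).1)
      · exact hDN (hΔ p hp)) h1
  rw [Q.cl_insert_face] at hF1 hF4
  have hFH : ∀ x ∈ H, F x = x := fun x hx =>
    hF2 x (Or.inr (Q.sub_face H z j (Or.inl hx)))
  have hFz : ∀ i, F (z i) = z i := by
    intro i
    by_cases hij : i = j
    · subst hij
      exact hF2 _ (Or.inl rfl)
    · exact hF2 _ (Or.inr (Q.sub_face H z j (Or.inr ⟨i, hij, rfl⟩)))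
  obtain ⟨F', hF'⟩ := Q.cr_of_el hF1 hF4 hFH hFz
  have h2 := hdet F F' hF' (fun x hx => hF3 (x, x) (Or.inl (mem_gr.2 ⟨hx, rfl⟩)))
  have h3 : Q.El (Prod.swap '' (gr F (Q.crown H z) ∪ gr id D)) := Q.el_symm _ h2
  refine Q.chain h3 hF1 ?_
  rintro ⟨a, b⟩ (hp | hp)
  · obtain ⟨ha, hb⟩ := mem_gr.1 hp
    obtain ⟨i, hi⟩ := Set.mem_iUnion.1 ha
    have hb' : b = a := hb
    subst hb'
    rw [← hF'.onto i] at hi
    obtain ⟨y, hy, hyb⟩ := hi
    refine ⟨y, ⟨(y, b), Or.inl (mem_gr.2 ⟨Q.face_sub_crown H z i hy, hyb.symm⟩), rfl⟩, ?_⟩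
    exact mem_gr.2 ⟨Q.crown_sub H z (Q.face_sub_crown H z i hy), hyb.symm⟩
  · have haD : a ∈ D := hΔ (a, b) hp
    refine ⟨a, ⟨(a, a), Or.inr (mem_gr.2 ⟨haD, rfl⟩), rfl⟩, ?_⟩
    exact mem_gr.2 ⟨hDN haD, (hF3 (a, b) (Or.inr hp)).symm⟩

end Pool.Agent.QMX
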