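import Pool.Agent.QMX.Lev
import Pool.Agent.QMX.Basis

/-!
# QMX / Glue: automorphisms and the abstract theorem

PROOF of `exists_aut`.  By `lev_zero`, `lev_step` there is a sequence `F n` with `Lv K z β n (F n)` and
`F (n + 1) = F n` on `cl (K ∪ z '' s)` for `s.card ≤ n`. Every `x` is in `cl (K ∪ z '' s)` for a finite
`s` (`cl_fin`, `htop`); `F x := F s.card x` for a chosen `s`; `F = F n` on `cl (K ∪ z '' s)` whenever
`s.card ≤ n` (compare two levels by induction). `El`: by `el_fin` a finite set of pairs has its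
first components in one `cl (K ∪ z '' s)`. Injective: `el_injOn`. Surjective: `onto` for
`β.symm '' s`.
PROOF of `move_ind`.  `exists_basis_pair` and `exists_aut` for `β = Equiv.swap i j`.
PROOF of `move`.  If `y ∉ cl (insert x K)`: `move_ind`. Otherwise let `u ∉ cl (insert x K)` (a countable
set). `u ∉ cl (insert y K)` (`y ∈ cl (insert x K)`), so `y ∉ cl (insert u K)` by `exch` (`y ∉ K`). Compose
the automorphisms `x ↦ u` and `u ↦ y` of `move_ind`.
PROOF of `main`.  `K ⊇ A` from `exists_inf`. If `S ⊆ K` it is countable. Otherwise let `x ∈ S`,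
`x ∉ K`; by `move` every `y ∉ K` is in `S`.
-/

set_option autoImplicit false

namespace Pool.Agent.QMX

variable {M : Type} (Q : Qm M)

theorem Qm.exists_aut {I : Type} (K : Set M) (hc : K.Countable) (hcl : Q.cl K ⊆ K)
    (hinf : Q.Inf K) (z : I → M) (hz : Q.Ind K z) (htop : Q.cl (K ∪ Set.range z) = Set.univ)
    (β : I ≃ I) : ∃ F : M → M, Q.El (gr F Set.univ) ∧ Function.Bijective F ∧
      (∀ x ∈ K, F x = x) ∧ ∀ i, F (z i) = z (β i) := by
  classical
  have hinj := Qm.Ind.injective Q hz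
  have step : ∀ (n : ℕ) (F : {F : M → M // Q.Lv K z β n F}),
      ∃ F' : {F' : M → M // Q.Lv K z β (n + 1) F'},
        ∀ s : Finset I, s.card ≤ n → Set.EqOn F'.1 F.1 (Q.cl (K ∪ z '' (s : Set I))) := by
    intro n F
    obtain ⟨F', h1, h2⟩ := Q.lev_step K hc hcl hinf z hz β n F.1 F.2
    exact ⟨⟨F', h1⟩, h2⟩
  choose G hG using step
  let S : ∀ n : ℕ, {F : M → M // Q.Lv K z β n F} := fun n =>
    Nat.rec (motive := fun n => {F : M → M // Q.Lv K z β n F}) ⟨id, Q.lev_zero K hcl z β⟩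
      (fun n F => G n F) n
  have hS : ∀ n, ∀ s : Finset I, s.card ≤ n →
      Set.EqOn (S (n + 1)).1 (S n).1 (Q.cl (K ∪ z '' (s : Set I))) := fun n => hG n (S n)
  have hcomp : ∀ n m, n ≤ m → ∀ s : Finset I, s.card ≤ n →
      Set.EqOn (S m).1 (S n).1 (Q.cl (K ∪ z '' (s : Set I))) := by
    intro n m hnm s hs
    induction m, hnm using Nat.le_induction with
    | base => exact fun x _ => rfl
    | succ m hm ih => exact (hS m s (hs.trans hm)).trans ih
  have hsup : ∀ x : M, ∃ s : Finset I, x ∈ Q.cl (K ∪ z '' (s : Set I)) := by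
    intro x
    have hx : x ∈ Q.cl (K ∪ Set.range z) := by
      rw [htop]
      exact Set.mem_univ x
    obtain ⟨F, hF, hFf, hxF⟩ := Q.cl_fin _ x hx
    have h1 : F \ K ⊆ Set.range z := fun y hy => (hF hy.1).resolve_left hy.2
    obtain ⟨t, ht⟩ := Set.subset_range_iff_exists_image_eq.1 h1
    have htf : t.Finite := by
      apply Set.Finite.of_finite_image (f := z) _ hinj.injOn
      rw [ht]
      exact hFf.sdiff
    refine ⟨htf.toFinset, Q.cl_mono _ _ ?_ hxF⟩
    intro y hy
    by_cases hyK : y ∈ K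
    · exact Or.inl hyK
    · right
      rw [Set.Finite.coe_toFinset, ht]
      exact ⟨hy, hyK⟩
  choose sx hsx using hsup
  let F : M → M := fun x => (S (sx x).card).1 x
  have key : ∀ (s : Finset I) (n : ℕ), s.card ≤ n → ∀ x ∈ Q.cl (K ∪ z '' (s : Set I)),
      F x = (S n).1 x := by
    intro s n hs x hx
    have h1 := hcomp n (max n (sx x).card) (le_max_left _ _) s hs hx
    have h2 := hcomp (sx x).card (max n (sx x).card) (le_max_right _ _) (sx x) le_rfl (hsx x)
    exact h2.symm.trans h1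
  have hEl : Q.El (gr F Set.univ) := by
    apply Q.el_fin
    intro Δ hΔ hΔf
    let s : Finset I := (hΔf.image Prod.fst).toFinset.biUnion sx
    have hsub : ∀ p ∈ Δ, p.1 ∈ Q.cl (K ∪ z '' (s : Set I)) := by
      intro p hp
      refine Q.cl_mono _ _ (Set.union_subset_union_right K (Set.image_mono ?_)) (hsx p.1)
      intro i hi
      rw [Finset.mem_coe] at hi ⊢
      exact Finset.mem_biUnion.2 ⟨p.1, (Set.Finite.mem_toFinset _).2 ⟨p, hp, rfl⟩, hi⟩
    refine Q.el_mono Δ _ ?_ ((S s.card).2.el s le_rfl)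
    intro p hp
    rw [mem_gr]
    have h1 := (mem_gr.1 (hΔ hp)).2
    exact ⟨hsub p hp, by rw [h1, key s s.card le_rfl p.1 (hsub p hp)]⟩
  refine ⟨F, hEl, ⟨?_, ?_⟩, ?_, ?_⟩
  · intro x y hxy
    exact Q.el_injOn hEl (Set.mem_univ x) (Set.mem_univ y) hxy
  · intro y
    let s : Finset I := (sx y).image β.symm
    have himg : β '' (s : Set I) = (sx y : Set I) := by
      ext i
      constructor
      · rintro ⟨j, hj, rfl⟩
        rw [Finset.mem_coe] at hj
        obtain ⟨k, hk, rfl⟩ := Finset.mem_image.1 hj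
        rw [Equiv.apply_symm_apply]
        exact hk
      · intro hi
        exact ⟨β.symm i, Finset.mem_coe.2 (Finset.mem_image.2 ⟨i, hi, rfl⟩),
          Equiv.apply_symm_apply β i⟩
    have h1 := (S s.card).2.onto s le_rfl
    rw [himg] at h1
    have h2 : y ∈ (S s.card).1 '' Q.cl (K ∪ z '' (s : Set I)) := by
      rw [h1]
      exact hsx y
    obtain ⟨x, hx, hxy⟩ := h2
    exact ⟨x, by rw [key s s.card le_rfl x hx, hxy]⟩
  · intro x hx
    have h1 : x ∈ Q.cl (K ∪ z '' ((∅ : Finset I) : Set I)) := Q.sub_cl _ (Or.inl hx)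
    rw [key ∅ 0 (by simp) x h1]
    exact (S 0).2.fixK x hx
  · intro i
    have h1 : z i ∈ Q.cl (K ∪ z '' (({i} : Finset I) : Set I)) :=
      Q.sub_cl _ (Or.inr ⟨i, by simp, rfl⟩)
    rw [key {i} 1 (by simp) (z i) h1]
    exact (S 1).2.mapz le_rfl i

theorem Qm.move_ind (K : Set M) (hc : K.Countable) (hcl : Q.cl K ⊆ K) (hinf : Q.Inf K)
    (x y : M) (hx : x ∉ K) (hy : y ∉ Q.cl (insert x K)) :
    ∃ F : M → M, Q.El (gr F Set.univ) ∧ Function.Bijective F ∧ (∀ a ∈ K, F a = a) ∧
      F x = y := by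
  classical
  have hx' : x ∉ Q.cl K := fun h => hx (hcl h)
  obtain ⟨I, z, i, j, hi, hj, _, hz, htop⟩ := Q.exists_basis_pair K x y hx' hy
  obtain ⟨F, h1, h2, h3, h4⟩ := Q.exists_aut K hc hcl hinf z hz htop (Equiv.swap i j)
  refine ⟨F, h1, h2, h3, ?_⟩
  rw [← hi, h4 i, Equiv.swap_apply_left, hj]

theorem Qm.move (hM : ¬ (Set.univ : Set M).Countable) (K : Set M) (hc : K.Countable)
    (hcl : Q.cl K ⊆ K) (hinf : Q.Inf K) (x y : M) (hx : x ∉ K) (hy : y ∉ K) :
    ∃ F : M → M, Q.El (gr F Set.univ) ∧ Function.Bijective F ∧ (∀ a ∈ K, F a = a) ∧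
      F x = y := by
  by_cases hyx : y ∈ Q.cl (insert x K)
  · have hex : ∃ u, u ∉ Q.cl (insert x K) := by
      by_contra hno
      push Not at hno
      exact hM ((Q.cl_ctbl _ (hc.insert x)).mono fun u _ => hno u)
    obtain ⟨u, hu⟩ := hex
    have huK : u ∉ K := fun h => hu (Q.sub_cl _ (Set.mem_insert_of_mem x h))
    have hyu : y ∉ Q.cl (insert u K) := by
      intro h
      have h1 := Q.exch K y u h (fun h => hy (hcl h))
      apply hu
      refine Q.cl_cl _ (Q.cl_mono _ _ ?_ h1)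
      rintro w (rfl | hw)
      · exact hyx
      · exact Q.sub_cl _ (Set.mem_insert_of_mem x hw)
    obtain ⟨F₁, e1, b1, f1, g1⟩ := Q.move_ind K hc hcl hinf x u hx hu
    obtain ⟨F₂, e2, b2, f2, g2⟩ := Q.move_ind K hc hcl hinf u y huK hyu
    refine ⟨F₂ ∘ F₁, Q.el_comp_gr e1 e2 (fun _ _ => Set.mem_univ _), b2.comp b1, ?_, ?_⟩
    · intro a ha
      rw [Function.comp_apply, f1 a ha, f2 a ha]
    · rw [Function.comp_apply, g1, g2]
  · exact Q.move_ind K hc hcl hinf x y hx hyx

/-- Sets which are invariant under the automorphisms over a countable set are countable or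
cocountable. -/
theorem Qm.main (A : Set M) (hA : A.Countable) (S : Set M)
    (hS : ∀ F : M → M, Q.El (gr F Set.univ) → Function.Bijective F → (∀ a ∈ A, F a = a) →
      ∀ x ∈ S, F x ∈ S) : S.Countable ∨ Sᶜ.Countable := by
  by_cases hM : (Set.univ : Set M).Countable
  · exact Or.inl (hM.mono (Set.subset_univ S))
  · obtain ⟨K, hAK, hK, hcl, hinf⟩ := Q.exists_inf A hA hM
    by_cases hSK : S ⊆ K
    · exact Or.inl (hK.mono hSK)
    · rw [Set.not_subset] at hSK
      obtain ⟨x, hxS, hxK⟩ := hSK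
      right
      refine hK.mono ?_
      intro y hy
      by_contra hyK
      obtain ⟨F, h1, h2, h3, h4⟩ := Q.move hM K hK hcl hinf x y hxK hyK
      apply hy
      rw [← h4]
      exact hS F h1 h2 (fun a ha => h3 a (hAK ha)) x hxS

end Pool.Agent.QMX
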