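import Pool.Agent.QMX.Bf

/-!
# QMX / LemA: extension over countable closed sets

PROOF of `gen_twist`.  By `el_fin` it is enough to show `El (insert (b, b') (gr f v))` for finite
`v ⊆ X`. By `el_hom` there is `b''` with `El (insert (b, b'') (gr f v))`; `b ∉ cl v` (as
`cl v ⊆ cl X ⊆ X`), so `b'' ∉ cl (f '' v)` (`el_cl` for the reverse). Also `b' ∉ cl (f '' v)` because
`cl (f '' v) ⊆ cl (f '' X) ⊆ f '' X`. By `gen` for the countable closed set `cl (f '' v)`:
`El (insert (b'', b') (gr id (cl (f '' v))))`. Chain.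
PROOF of `lemA`.  Let `h = Function.update f b b'` (it agrees with `f` on `X`), `Y = insert b X`,
`h '' Y = insert b' (f '' X)`, `gr h Y = insert (b, b') (gr f X)`: elementary by `gen_twist`. `bf`
with `Δ = ∅`; `Fd Y`, `Fd (h '' Y)` are the axiom `fd`.
`lemA_fin`: `bf` with `h = id`, `Y = insert w X` and `Δ`.
-/

set_option autoImplicit false

namespace Pool.Agent.QMX

variable {M : Type} (Q : Qm M)

theorem Qm.gen_twist (X : Set M) (hX : X.Countable) (hcl : Q.cl X ⊆ X) (f : M → M)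
    (hf : Q.El (gr f X)) (hcl' : Q.cl (f '' X) ⊆ f '' X) (b b' : M) (hb : b ∉ X)
    (hb' : b' ∉ f '' X) : Q.El (insert (b, b') (gr f X)) := by
  apply Q.el_fin
  intro Δ hΔ hfin
  set v : Set M := X ∩ Prod.fst '' Δ with hv
  have hvX : v ⊆ X := Set.inter_subset_left
  have hvf : v.Finite := (hfin.image _).subset Set.inter_subset_right
  have hΔv : Δ ⊆ insert (b, b') (gr f v) := by
    intro p hp
    rcases hΔ hp with h | h
    · exact Or.inl h
    · right
      rw [mem_gr] at h ⊢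
      exact ⟨⟨h.1, p, hp, rfl⟩, h.2⟩
  refine Q.el_mono _ _ hΔv ?_
  have hgf : (gr f v).Finite := hvf.image _
  obtain ⟨b'', hb''⟩ := Q.el_hom (gr f v) hgf (Q.el_mono _ _ (gr_mono f hvX) hf) b
  have h1 : b'' ∉ Q.cl (f '' v) := by
    intro hc
    apply hb
    apply hcl
    apply Q.cl_mono v X hvX
    have := Q.el_cl _ (Q.el_symm _ hb'') (Prod.swap '' gr f v)
      (Set.image_mono (Set.subset_insert _ _)) b'' b ⟨(b, b''), Or.inl rfl, rfl⟩
    have e1 : Prod.fst '' (Prod.swap '' gr f v) = f '' v := by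
      unfold gr
      rw [Set.image_image, Set.image_image]
      rfl
    have e2 : Prod.snd '' (Prod.swap '' gr f v) = v := by
      unfold gr
      rw [Set.image_image, Set.image_image]
      exact Set.image_id v
    rw [e1, e2] at this
    exact this hc
  have h2 : b' ∉ Q.cl (f '' v) := fun hc =>
    hb' (hcl' (Q.cl_mono _ _ (Set.image_mono hvX) hc))
  have h3 := Q.gen (Q.cl (f '' v)) (Q.cl_ctbl _ (hvf.image f).countable) (Q.cl_cl _) b'' b' h1 h2
  refine Q.chain hb'' h3 ?_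
  rintro p (rfl | hp)
  · exact ⟨b'', Or.inl rfl, Or.inl rfl⟩
  · rw [mem_gr] at hp
    refine ⟨f p.1, Or.inr (mem_gr.2 ⟨hp.1, rfl⟩), Or.inr (mem_gr.2 ⟨?_, ?_⟩)⟩
    · exact Q.sub_cl _ ⟨p.1, hp.1, rfl⟩
    · exact hp.2

/-- Extension to the closure of a countable closed set and one more element. -/
theorem Qm.lemA (X : Set M) (hX : X.Countable) (hcl : Q.cl X ⊆ X) (f : M → M)
    (hf : Q.El (gr f X)) (hcl' : Q.cl (f '' X) ⊆ f '' X) (b b' : M) (hb : b ∉ X)
    (hb' : b' ∉ f '' X) :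
    ∃ g : M → M, Q.El (gr g (Q.cl (insert b X))) ∧ Set.EqOn g f X ∧ g b = b' ∧
      g '' Q.cl (insert b X) = Q.cl (insert b' (f '' X)) := by
  classical
  set h : M → M := fun x => if x = b then b' else f x with hh
  have hhb : h b = b' := by simp [hh]
  have hhX : ∀ x ∈ X, h x = f x := by
    intro x hx
    have : x ≠ b := fun e => hb (e ▸ hx)
    simp [hh, this]
  have himg : h '' X = f '' X := Set.image_congr hhX
  have himg' : h '' insert b X = insert b' (f '' X) := by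
    rw [Set.image_insert_eq, hhb, himg]
  have hgr : gr h (insert b X) = insert (b, b') (gr f X) := by
    rw [gr_insert, hhb, gr_congr (f := h) (g := f) hhX]
  have hel : Q.El (gr h (insert b X)) := by
    rw [hgr]
    exact Q.gen_twist X hX hcl f hf hcl' b b' hb hb'
  have hFd : Q.Fd (insert b X) := fun D hD hDY => Q.fd X hX hcl b hb D hD hDY
  have hFd' : Q.Fd (h '' insert b X) := by
    rw [himg']
    exact fun D hD hDY => Q.fd (f '' X) (hX.image f) hcl' b' hb' D hD hDY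
  obtain ⟨g, g1, g2, -, g4⟩ := Q.bf (insert b X) (hX.insert b) h hFd hFd' ∅ Set.finite_empty
    (by simp) (by rw [Set.union_empty]; exact hel)
  refine ⟨g, g1, fun x hx => ?_, ?_, ?_⟩
  · rw [g2 (Set.mem_insert_of_mem b hx), hhX x hx]
  · rw [g2 (Set.mem_insert b X), hhb]
  · rw [g4, himg']

theorem Qm.lemA_fin (X : Set M) (hX : X.Countable) (hcl : Q.cl X ⊆ X) (w : M) (hw : w ∉ X)
    (Δ : Set (M × M)) (hΔ : Δ.Finite) (hΔY : ∀ p ∈ Δ, p.1 ∈ Q.cl (insert w X))
    (hel : Q.El (gr id (insert w X) ∪ Δ)) :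
    ∃ g : M → M, Q.El (gr g (Q.cl (insert w X))) ∧ (∀ x ∈ insert w X, g x = x) ∧
      (∀ p ∈ Δ, g p.1 = p.2) ∧ g '' Q.cl (insert w X) = Q.cl (insert w X) := by
  have hFd : Q.Fd (insert w X) := fun D hD hDY => Q.fd X hX hcl w hw D hD hDY
  have hFd' : Q.Fd (id '' insert w X) := by rwa [Set.image_id]
  obtain ⟨g, g1, g2, g3, g4⟩ := Q.bf (insert w X) (hX.insert w) id hFd hFd' Δ hΔ hΔY hel
  rw [Set.image_id] at g4
  exact ⟨g, g1, fun x hx => g2 hx, g3, g4⟩

end Pool.Agent.QMX
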