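import Pool.Agent.QMX.Exc

/-!
# QMX / Lev: the levels of the construction of an automorphism

`Lv K z β n F`: `F` is elementary on each `cl (K ∪ z '' s)`, `s` a finite set with at most `n`
elements, and maps it onto `cl (K ∪ z '' (β '' s))`; it fixes `K` and maps `z i` to `z (β i)`
(if `1 ≤ n`).

PROOF of `lev_zero`.  `s = ∅`, `cl K = K`.
PROOF of `lev_one`.  For `s = {i}`: `lemA` with `X = K`, `f = F`, `b = z i`, `b' = z (β i)` (not in `K` by
`hz`); proper subsets of `s` are empty.
PROOF of `lev_set`.  If `s` has one element: `lev_one`. Otherwise the subtype `↥s` is nontrivial; apply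
`exc` to `z ∘ val, z ∘ β ∘ val : ↥s → M` and `F`; the faces are `cl (K ∪ z '' (s \ {i}))`, `i ∈ s`, and
every proper subset of `s` is contained in some `s \ {i}`.
PROOF of `lev_step`.  Choose `G s` for each `s` with `n + 1` elements by `lev_set`. `F' x := F x` if
`x ∈ cl (K ∪ z '' t)` for some `t` with at most `n` elements; otherwise `G s x` for a chosen `s` with
`n + 1` elements and `x ∈ cl (K ∪ z '' s)`, if there is one; otherwise `x`. By `ind_inter`
`F' = G s` on `cl (K ∪ z '' s)` if `s` has `n + 1` elements: if `x` is also in `cl (K ∪ z '' t)` with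
`t ≠ s` and at most `n + 1` elements then it is in `cl (K ∪ z '' (s ∩ t))`, `s ∩ t` is a proper subset of
`s` with at most `n` elements, and `G s = F` there.
-/

set_option autoImplicit false

namespace Pool.Agent.QMX

variable {M : Type} (Q : Qm M) {I : Type}

/-- Level `n` of the construction of an automorphism. -/
structure Qm.Lv (K : Set M) (z : I → M) (β : I ≃ I) (n : ℕ) (F : M → M) : Prop where
  el : ∀ s : Finset I, s.card ≤ n → Q.El (gr F (Q.cl (K ∪ z '' (s : Set I))))
  onto : ∀ s : Finset I, s.card ≤ n →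
    F '' Q.cl (K ∪ z '' (s : Set I)) = Q.cl (K ∪ z '' (β '' (s : Set I)))
  fixK : ∀ x ∈ K, F x = x
  mapz : 1 ≤ n → ∀ i, F (z i) = z (β i)

theorem Qm.lev_zero (K : Set M) (hcl : Q.cl K ⊆ K) (z : I → M) (β : I ≃ I) :
    Q.Lv K z β 0 id := by
  refine ⟨fun s _ => Q.el_id_gr _, ?_, fun x _ => rfl, fun h => absurd h (by norm_num)⟩
  intro s hs
  have h : s = ∅ := Finset.card_eq_zero.1 (Nat.le_zero.1 hs)
  subst h
  rw [Set.image_id, Finset.coe_empty, Set.image_empty, Set.image_empty, Set.image_empty]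

theorem Qm.lev_one (K : Set M) (hc : K.Countable) (hcl : Q.cl K ⊆ K) (z : I → M)
    (hz : Q.Ind K z) (β : I ≃ I) (F : M → M) (hF : ∀ x ∈ K, F x = x) (i : I) :
    ∃ G : M → M, Q.El (gr G (Q.cl (K ∪ {z i}))) ∧ (∀ x ∈ K, G x = x) ∧ G (z i) = z (β i) ∧
      G '' Q.cl (K ∪ {z i}) = Q.cl (K ∪ {z (β i)}) := by
  have hFK : F '' K = K := by
    ext y
    constructor
    · rintro ⟨x, hx, rfl⟩
      rw [hF x hx]
      exact hx
    · intro hy
      exact ⟨y, hy, hF y hy⟩
  have hnot : ∀ j, z j ∉ K := by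
    intro j hj
    exact hz j (Q.sub_cl _ (Or.inl hj))
  have hel : Q.El (gr F K) := by
    have h1 : gr F K = gr id K := gr_congr (fun x hx => hF x hx)
    rw [h1]
    exact Q.el_id_gr K
  obtain ⟨g, g1, g2, g3, g4⟩ := Q.lemA K hc hcl F hel (by rw [hFK]; exact hcl) (z i) (z (β i))
    (hnot i) (by rw [hFK]; exact hnot _)
  rw [hFK] at g4
  refine ⟨g, ?_, ?_, g3, ?_⟩
  · rw [Set.union_singleton]
    exact g1
  · intro x hx
    rw [g2 hx, hF x hx]
  · rw [Set.union_singleton, Set.union_singleton]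
    exact g4

theorem Qm.lev_set (K : Set M) (hc : K.Countable) (hcl : Q.cl K ⊆ K) (hinf : Q.Inf K)
    (z : I → M) (hz : Q.Ind K z) (β : I ≃ I) (n : ℕ) (F : M → M) (hF : Q.Lv K z β n F)
    (s : Finset I) (hs : s.card = n + 1) :
    ∃ G : M → M, Q.El (gr G (Q.cl (K ∪ z '' (s : Set I)))) ∧
      G '' Q.cl (K ∪ z '' (s : Set I)) = Q.cl (K ∪ z '' (β '' (s : Set I))) ∧
      (∀ i ∈ s, G (z i) = z (β i)) ∧
      ∀ t : Finset I, t ⊂ s → Set.EqOn G F (Q.cl (K ∪ z '' (t : Set I))) := by
  classical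
  rcases Nat.eq_zero_or_pos n with hn | hn
  · rw [hn, zero_add] at hs
    obtain ⟨i, hi⟩ := Finset.card_eq_one.1 hs
    subst hi
    obtain ⟨G, g1, g2, g3, g4⟩ := Q.lev_one K hc hcl z hz β F hF.fixK i
    refine ⟨G, ?_, ?_, ?_, ?_⟩
    · rw [Finset.coe_singleton, Set.image_singleton]
      exact g1
    · rw [Finset.coe_singleton, Set.image_singleton, Set.image_singleton, Set.image_singleton]
      exact g4
    · intro j hj
      rw [Finset.mem_singleton.1 hj]
      exact g3
    · intro t ht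
      have ht' : t = ∅ := by
        rw [← Finset.card_eq_zero]
        have := Finset.card_lt_card ht
        rw [Finset.card_singleton] at this
        omega
      subst ht'
      intro x hx
      rw [Finset.coe_empty, Set.image_empty, Set.union_empty] at hx
      rw [g2 x (hcl hx), hF.fixK x (hcl hx)]
  · have hnt : Nontrivial {x // x ∈ s} := by
      have : 1 < Fintype.card {x // x ∈ s} := by
        rw [Fintype.card_coe]
        omega
      exact Fintype.one_lt_card_iff_nontrivial.1 this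
    set z₁ : {x // x ∈ s} → M := fun j => z j.1 with hz₁
    set z₂ : {x // x ∈ s} → M := fun j => z (β j.1) with hz₂
    have im1 : ∀ j : {x // x ∈ s}, z₁ '' {j}ᶜ = z '' ((s.erase j.1 : Finset I) : Set I) := by
      intro j
      ext y
      constructor
      · rintro ⟨k, hk, rfl⟩
        refine ⟨k.1, ?_, rfl⟩
        rw [Finset.mem_coe, Finset.mem_erase]
        exact ⟨fun h => hk (Subtype.ext h), k.2⟩
      · rintro ⟨k, hk, rfl⟩
        rw [Finset.mem_coe, Finset.mem_erase] at hk
        exact ⟨⟨k, hk.2⟩, fun h => hk.1 (congrArg Subtype.val h), rfl⟩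
    have im2 : ∀ j : {x // x ∈ s}, z₂ '' {j}ᶜ =
        z '' (β '' ((s.erase j.1 : Finset I) : Set I)) := by
      intro j
      ext y
      constructor
      · rintro ⟨k, hk, rfl⟩
        refine ⟨β k.1, ⟨k.1, ?_, rfl⟩, rfl⟩
        rw [Finset.mem_coe, Finset.mem_erase]
        exact ⟨fun h => hk (Subtype.ext h), k.2⟩
      · rintro ⟨_, ⟨k, hk, rfl⟩, rfl⟩
        rw [Finset.mem_coe, Finset.mem_erase] at hk
        exact ⟨⟨k, hk.2⟩, fun h => hk.1 (congrArg Subtype.val h), rfl⟩
    have rg1 : Set.range z₁ = z '' (s : Set I) := by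
      ext y
      constructor
      · rintro ⟨k, rfl⟩
        exact ⟨k.1, k.2, rfl⟩
      · rintro ⟨k, hk, rfl⟩
        exact ⟨⟨k, hk⟩, rfl⟩
    have rg2 : Set.range z₂ = z '' (β '' (s : Set I)) := by
      ext y
      constructor
      · rintro ⟨k, rfl⟩
        exact ⟨β k.1, ⟨k.1, k.2, rfl⟩, rfl⟩
      · rintro ⟨_, ⟨k, hk, rfl⟩, rfl⟩
        exact ⟨⟨k, hk⟩, rfl⟩
    have ind1 : Q.Ind K z₁ := by
      intro j hj
      refine hz j.1 (Q.cl_mono _ _ (Set.union_subset_union_right K ?_) hj)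
      rw [im1]
      apply Set.image_mono
      intro k hk
      rw [Finset.mem_coe, Finset.mem_erase] at hk
      exact hk.1
    have ind2 : Q.Ind K z₂ := by
      intro j hj
      refine hz (β j.1) (Q.cl_mono _ _ (Set.union_subset_union_right K ?_) hj)
      rw [im2]
      apply Set.image_mono
      rintro _ ⟨k, hk, rfl⟩
      rw [Finset.mem_coe, Finset.mem_erase] at hk
      exact fun h => hk.1 (β.injective h)
    have hcard : ∀ j : {x // x ∈ s}, (s.erase j.1).card ≤ n := by
      intro j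
      rw [Finset.card_erase_of_mem j.2, hs]
      omega
    obtain ⟨G, g1, g2, g3⟩ := Q.exc z₁ z₂ K hc hcl hinf ind1 ind2 F
      (fun j => by
        show Q.El (gr F (Q.cl (K ∪ z₁ '' {j}ᶜ)))
        rw [im1]
        exact hF.el _ (hcard j))
      (fun j => by
        show F '' Q.cl (K ∪ z₁ '' {j}ᶜ) = Q.cl (K ∪ z₂ '' {j}ᶜ)
        rw [im1, im2]
        exact hF.onto _ (hcard j))
      hF.fixK (fun j => hF.mapz hn j.1)
    rw [rg1] at g1 g3
    rw [rg2] at g3
    refine ⟨G, g1, g3, ?_, ?_⟩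
    · intro i hi
      have h1 : z i ∈ Q.crown K z₁ := Q.sub_crown K z₁ (Or.inr ⟨⟨i, hi⟩, rfl⟩)
      rw [g2 h1]
      exact hF.mapz hn i
    · intro t ht
      obtain ⟨hts, j, hj, hjt⟩ := Finset.ssubset_iff_exists_cons_subset.1 ht |>.elim
        (fun j h => h.elim fun hjt hsub => (⟨ht.1, j, hsub (Finset.mem_cons_self j t), hjt⟩ :
          t ⊆ s ∧ ∃ j, j ∈ s ∧ j ∉ t))
      refine g2.mono ?_
      refine Set.Subset.trans ?_ (Q.face_sub_crown K z₁ ⟨j, hj⟩)
      show Q.cl (K ∪ z '' (t : Set I)) ⊆ Q.cl (K ∪ z₁ '' {(⟨j, hj⟩ : {x // x ∈ s})}ᶜ)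
      rw [im1]
      refine Q.cl_mono _ _ (Set.union_subset_union_right K (Set.image_mono ?_))
      intro k hk
      rw [Finset.mem_coe, Finset.mem_erase]
      refine ⟨?_, hts hk⟩
      rintro rfl
      exact hjt hk

theorem Qm.lev_step (K : Set M) (hc : K.Countable) (hcl : Q.cl K ⊆ K) (hinf : Q.Inf K)
    (z : I → M) (hz : Q.Ind K z) (β : I ≃ I) (n : ℕ) (F : M → M) (hF : Q.Lv K z β n F) :
    ∃ F' : M → M, Q.Lv K z β (n + 1) F' ∧
      ∀ s : Finset I, s.card ≤ n → Set.EqOn F' F (Q.cl (K ∪ z '' (s : Set I))) := by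
  classical
  have hex : ∀ s : Finset I, ∃ G : M → M, s.card = n + 1 →
      (Q.El (gr G (Q.cl (K ∪ z '' (s : Set I)))) ∧
      G '' Q.cl (K ∪ z '' (s : Set I)) = Q.cl (K ∪ z '' (β '' (s : Set I))) ∧
      (∀ i ∈ s, G (z i) = z (β i)) ∧
      ∀ t : Finset I, t ⊂ s → Set.EqOn G F (Q.cl (K ∪ z '' (t : Set I)))) := by
    intro s
    by_cases hs : s.card = n + 1
    · obtain ⟨G, hG⟩ := Q.lev_set K hc hcl hinf z hz β n F hF s hs
      exact ⟨G, fun _ => hG⟩
    · exact ⟨id, fun h => absurd h hs⟩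
  choose G hG using hex
  set F' : M → M := fun x =>
    if ∃ t : Finset I, t.card ≤ n ∧ x ∈ Q.cl (K ∪ z '' (t : Set I)) then F x
    else if h : ∃ s : Finset I, s.card = n + 1 ∧ x ∈ Q.cl (K ∪ z '' (s : Set I)) then
      G h.choose x
    else x with hF'
  have hA : ∀ s : Finset I, s.card ≤ n → Set.EqOn F' F (Q.cl (K ∪ z '' (s : Set I))) := by
    intro s hs x hx
    rw [hF']
    dsimp only
    rw [if_pos ⟨s, hs, hx⟩]
  have hinter : ∀ (s t : Finset I) (x : M), x ∈ Q.cl (K ∪ z '' (s : Set I)) →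
      x ∈ Q.cl (K ∪ z '' (t : Set I)) → x ∈ Q.cl (K ∪ z '' ((s ∩ t : Finset I) : Set I)) := by
    intro s t x h1 h2
    rw [Finset.coe_inter]
    exact Q.ind_inter hz _ _ h1 h2
  have hB : ∀ s : Finset I, s.card = n + 1 → Set.EqOn F' (G s) (Q.cl (K ∪ z '' (s : Set I))) := by
    intro s hs x hx
    rw [hF']
    dsimp only
    by_cases h1 : ∃ t : Finset I, t.card ≤ n ∧ x ∈ Q.cl (K ∪ z '' (t : Set I))
    · rw [if_pos h1]
      obtain ⟨t, ht, hxt⟩ := h1
      have hss : s ∩ t ⊂ s := by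
        refine Finset.ssubset_iff_subset_ne.2 ⟨Finset.inter_subset_left, ?_⟩
        intro he
        have h2 : s ⊆ t := by
          rw [← he]
          exact Finset.inter_subset_right
        have := Finset.card_le_card h2
        omega
      exact ((hG s hs).2.2.2 _ hss (hinter s t x hx hxt)).symm
    · rw [if_neg h1]
      have h2 : ∃ s : Finset I, s.card = n + 1 ∧ x ∈ Q.cl (K ∪ z '' (s : Set I)) := ⟨s, hs, hx⟩
      rw [dif_pos h2]
      obtain ⟨c1, c2⟩ := h2.choose_spec
      have heq : h2.choose = s := by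
        by_contra hne
        apply h1
        refine ⟨s ∩ h2.choose, ?_, hinter s _ x hx c2⟩
        have h3 : s ∩ h2.choose ⊂ s := by
          refine Finset.ssubset_iff_subset_ne.2 ⟨Finset.inter_subset_left, ?_⟩
          intro he
          have h4 : s ⊆ h2.choose := by
            conv_lhs => rw [← he]
            exact Finset.inter_subset_right
          exact hne (Finset.eq_of_subset_of_card_le h4 (by rw [c1, hs])).symm
        have := Finset.card_lt_card h3
        omega
      rw [heq]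
  refine ⟨F', ⟨?_, ?_, ?_, ?_⟩, hA⟩
  · intro s hs
    rcases Nat.lt_or_ge n s.card with h | h
    · have hs' : s.card = n + 1 := by omega
      rw [gr_congr (hB s hs')]
      exact (hG s hs').1
    · rw [gr_congr (hA s h)]
      exact hF.el s h
  · intro s hs
    rcases Nat.lt_or_ge n s.card with h | h
    · have hs' : s.card = n + 1 := by omega
      rw [(hB s hs').image_eq]
      exact (hG s hs').2.1
    · rw [(hA s h).image_eq]
      exact hF.onto s h
  · intro x hx
    have h1 : x ∈ Q.cl (K ∪ z '' ((∅ : Finset I) : Set I)) := Q.sub_cl _ (Or.inl hx)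
    rw [hA ∅ (by simp) h1]
    exact hF.fixK x hx
  · intro _ i
    have h1 : z i ∈ Q.cl (K ∪ z '' (({i} : Finset I) : Set I)) :=
      Q.sub_cl _ (Or.inr ⟨i, by simp, rfl⟩)
    rcases Nat.eq_zero_or_pos n with hn | hn
    · have h2 : ({i} : Finset I).card = n + 1 := by rw [Finset.card_singleton, hn]
      rw [hB {i} h2 h1]
      exact (hG {i} h2).2.2.1 i (Finset.mem_singleton_self i)
    · rw [hA {i} (by rw [Finset.card_singleton]; exact hn) h1]
      exact hF.mapz hn i

end Pool.Agent.QMX
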