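import Pool.Agent.QMX.Tmap

/-!
# QMX / Phi: the commutator `φ = T⁻¹ f T f⁻¹`

Notation: `N₀ = cl (H₀ ∪ range z)`, `W = cl (insert x (H₀ ∪ z '' {j}ᶜ)) ⊆ face H z j` (as `x ∈ H`,
`H₀ ⊆ H`), `W i = cl (insert x (H₀ ∪ z '' {i, j}ᶜ))` for `i ≠ j`.

PROOF of `theta_el`, `theta_img`.  `T` is elementary from `N₀` onto `W`, `f` is elementary on
`face H z j ⊇ W` and maps `W` onto `W` (`cr_sub` with `insert x H₀`), `T'` is elementary on `W` with
image `N₀`.
PROOF of `theta_face`.  For `i ≠ j` by `face_img`: `T` maps `face H₀ z i` onto `W i`, `f` maps `W i`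
onto itself (`cr_sub`), `T'` maps it back. For `i = j` `T` is the identity on `face H₀ z j` and `f` maps
this face onto itself.
PROOF of `phi`.  `φ = θ ∘ f'`, `θ = T' ∘ f ∘ T`, and `φ' = f ∘ (T' ∘ f' ∘ T)`.
`el`, `onto`: `f'` is elementary on `face H₀ z i` and maps it onto itself (`hf.symm`, `cr_sub`), `θ` is
elementary on `N₀` and maps the face onto itself.
`left`: `φ' (φ y) = f (T' (f' (T (T' (f (T (f' y)))))))` and `T (T' u) = u` for `u ∈ W`. The same for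
`right`.
`fixH`: all maps are the identity on `H₀`. `fixz`: for `i ≠ j` all maps fix `z i`; for `i = j`:
`f' (z j) = z j`, `T (z j) = x`, `f x = x`, `T' x = z j`.
`fixS`: `i = j`: for `y ∈ face H₀ z j`: `f' y` is in this face, `T (f' y) = f' y`, `f (f' y) = y`,
`T' y = T' (T y) = y`. `i ∈ S`, `i ≠ j`: `f' y = y`, `T y ∈ W i ⊆ face H z i`, so `f (T y) = T y`, and
`T' (T y) = y`.
-/

set_option autoImplicit false

namespace Pool.Agent.QMX

variable {M : Type} (Q : Qm M) {I : Type} [Nontrivial I]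

omit [Nontrivial I] in
private lemma face_le (H₀ : Set M) (z : I → M) (i : I) :
    Q.face H₀ z i ⊆ Q.cl (H₀ ∪ Set.range z) :=
  Q.cl_mono _ _ (Set.union_subset_union_right _ (Set.image_subset_range _ _))

omit [Nontrivial I] in
private lemma W_le {H₀ H : Set M} (hH : H₀ ⊆ H) {z : I → M} {x : M} (hx : x ∈ H) (i : I)
    {s : Set I} (hs : i ∉ s) : Q.cl (insert x (H₀ ∪ z '' s)) ⊆ Q.face H z i := by
  apply Q.cl_mono
  rintro y (rfl | hy | ⟨k, hk, rfl⟩)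
  · exact Or.inl hx
  · exact Or.inl (hH hy)
  · refine Or.inr ⟨k, ?_, rfl⟩
    rintro rfl
    exact hs hk

omit [Nontrivial I] in
private lemma f_W {H₀ H : Set M} (hH : H₀ ⊆ H) {z : I → M} {x : M} (hx : x ∈ H) {S : Set I}
    {f f' : M → M} (hf : Q.Cr H z S f f') (i : I) {s : Set I} (hs : i ∉ s) :
    f '' Q.cl (insert x (H₀ ∪ z '' s)) = Q.cl (insert x (H₀ ∪ z '' s)) := by
  have h := Q.cr_sub hf i (insert x H₀) (Set.insert_subset hx hH) s hs
  rwa [Set.insert_union] at h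

omit [Nontrivial I] in
private lemma back_img {H₀ : Set M} {z : I → M} {x : M} {j : I} {T T' : M → M}
    (hT : Q.Tm H₀ z j x T T') {Y : Set M} (hY : Y ⊆ Q.cl (H₀ ∪ Set.range z)) :
    T' '' (T '' Y) = Y := by
  ext y
  constructor
  · rintro ⟨_, ⟨u, hu, rfl⟩, rfl⟩
    rwa [hT.left u (hY hu)]
  · intro hy
    exact ⟨T y, ⟨y, hy, rfl⟩, hT.left y (hY hy)⟩

omit [Nontrivial I] in
private lemma T_back {H₀ : Set M} {z : I → M} {x : M} {j : I} {T T' : M → M}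
    (hT : Q.Tm H₀ z j x T T') {w : M} (hw : w ∈ Q.cl (insert x (H₀ ∪ z '' {j}ᶜ))) :
    T (T' w) = w := by
  rw [← hT.img] at hw
  obtain ⟨u, hu, rfl⟩ := hw
  rw [hT.left u hu]

theorem Qm.theta_el {H₀ H : Set M} (hH : H₀ ⊆ H) {z : I → M} {x : M} (hx : x ∈ H) {j : I}
    {T T' : M → M} (hT : Q.Tm H₀ z j x T T') {S : Set I} {f f' : M → M}
    (hf : Q.Cr H z S f f') : Q.El (gr (T' ∘ f ∘ T) (Q.cl (H₀ ∪ Set.range z))) := by
  have hj : j ∉ ({j}ᶜ : Set I) := fun h => h rfl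
  have h1 : ∀ y ∈ Q.cl (H₀ ∪ Set.range z), T y ∈ Q.cl (insert x (H₀ ∪ z '' {j}ᶜ)) := by
    intro y hy
    rw [← hT.img]
    exact ⟨y, hy, rfl⟩
  have h2 : Q.El (gr (f ∘ T) (Q.cl (H₀ ∪ Set.range z))) :=
    Q.el_comp_gr hT.el (hf.el j) fun y hy => W_le Q hH hx j hj (h1 y hy)
  refine Q.el_comp_gr h2 (Q.el_inv hT.el hT.left) fun y hy => ?_
  rw [hT.img, ← f_W Q hH hx hf j hj]
  exact ⟨T y, h1 y hy, rfl⟩

theorem Qm.theta_img {H₀ H : Set M} (hH : H₀ ⊆ H) {z : I → M} {x : M} (hx : x ∈ H) {j : I}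
    {T T' : M → M} (hT : Q.Tm H₀ z j x T T') {S : Set I} {f f' : M → M}
    (hf : Q.Cr H z S f f') :
    (T' ∘ f ∘ T) '' Q.cl (H₀ ∪ Set.range z) = Q.cl (H₀ ∪ Set.range z) := by
  have hj : j ∉ ({j}ᶜ : Set I) := fun h => h rfl
  rw [Set.image_comp, Set.image_comp, hT.img, f_W Q hH hx hf j hj, ← hT.img,
    back_img Q hT subset_rfl]

theorem Qm.theta_face {H₀ H : Set M} (hH : H₀ ⊆ H) {z : I → M} {x : M} (hx : x ∈ H) {j : I}
    {T T' : M → M} (hT : Q.Tm H₀ z j x T T') {S : Set I} {f f' : M → M}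
    (hf : Q.Cr H z S f f') (i : I) : (T' ∘ f ∘ T) '' Q.face H₀ z i = Q.face H₀ z i := by
  rw [Set.image_comp, Set.image_comp]
  by_cases hij : i = j
  · subst hij
    have h1 : T '' Q.face H₀ z i = Q.face H₀ z i := by
      ext y
      constructor
      · rintro ⟨u, hu, rfl⟩
        rwa [hT.fix u hu]
      · intro hy
        exact ⟨y, hy, hT.fix y hy⟩
    have h2 : f '' Q.face H₀ z i = Q.face H₀ z i :=
      Q.cr_sub hf i H₀ hH {i}ᶜ (fun h => h rfl)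
    rw [h1, h2]
    conv_lhs => rw [← h1]
    exact back_img Q hT (face_le Q H₀ z i)
  · have h1 := hT.face_img Q i hij
    rw [h1, f_W Q hH hx hf i (s := {i, j}ᶜ) (fun h => h (Or.inl rfl)), ← h1]
    exact back_img Q hT (face_le Q H₀ z i)

theorem Qm.phi {H₀ H : Set M} (hH : H₀ ⊆ H) {z : I → M} {x : M} (hx : x ∈ H) {j : I}
    {T T' : M → M} (hT : Q.Tm H₀ z j x T T') {S : Set I} {f f' : M → M}
    (hf : Q.Cr H z S f f') :
    Q.Cr H₀ z (insert j S) (T' ∘ f ∘ T ∘ f') (f ∘ T' ∘ f' ∘ T) := by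
  have hs := hf.symm
  have hHc : H₀ ⊆ Q.cl H := hH.trans (Q.sub_cl H)
  have hj : j ∉ ({j}ᶜ : Set I) := fun h => h rfl
  have hW : ∀ y ∈ Q.cl (H₀ ∪ Set.range z), T y ∈ Q.cl (insert x (H₀ ∪ z '' {j}ᶜ)) := by
    intro y hy
    rw [← hT.img]
    exact ⟨y, hy, rfl⟩
  have hWc : ∀ w ∈ Q.cl (insert x (H₀ ∪ z '' {j}ᶜ)), w ∈ Q.crown H z := fun w hw =>
    Q.face_sub_crown H z j (W_le Q hH hx j hj hw)
  have hfW : ∀ w ∈ Q.cl (insert x (H₀ ∪ z '' {j}ᶜ)), f w ∈ Q.cl (insert x (H₀ ∪ z '' {j}ᶜ)) := by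
    intro w hw
    rw [← f_W Q hH hx hf j hj]
    exact ⟨w, hw, rfl⟩
  have hfW' : ∀ w ∈ Q.cl (insert x (H₀ ∪ z '' {j}ᶜ)),
      f' w ∈ Q.cl (insert x (H₀ ∪ z '' {j}ᶜ)) := by
    intro w hw
    rw [← f_W Q hH hx hs j hj]
    exact ⟨w, hw, rfl⟩
  have hf'face : ∀ i, f' '' Q.face H₀ z i = Q.face H₀ z i := fun i =>
    Q.cr_sub hs i H₀ hH {i}ᶜ (fun h => h rfl)
  have hcr : ∀ y ∈ Q.crown H₀ z, y ∈ Q.crown H z := fun y hy => Q.crown_mono hHc z hy
  have hN : ∀ i, ∀ y ∈ Q.face H₀ z i, y ∈ Q.cl (H₀ ∪ Set.range z) := fun i y hy =>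
    face_le Q H₀ z i hy
  have hsub : ∀ y ∈ H₀, y ∈ Q.face H₀ z j := fun y hy => Q.sub_face H₀ z j (Or.inl hy)
  refine ⟨?_, ?_, ?_, ?_, ?_, ?_, ?_⟩
  · intro i
    have h1 : Q.El (gr f' (Q.face H₀ z i)) :=
      Q.el_mono _ _ (gr_mono f' (Q.face_mono hHc z i)) (hs.el i)
    have h2 : Q.El (gr ((T' ∘ f ∘ T) ∘ f') (Q.face H₀ z i)) :=
      Q.el_comp_gr h1 (Q.theta_el hH hx hT hf) fun y hy => by
        apply hN i
        rw [← hf'face i]
        exact ⟨y, hy, rfl⟩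
    exact h2
  · intro i
    have h1 := Q.theta_face hH hx hT hf i
    conv_rhs => rw [← h1]
    conv_rhs => rw [← hf'face i]
    rw [← Set.image_comp]
    rfl
  · intro y hy
    obtain ⟨i, hi⟩ := Set.mem_iUnion.1 hy
    have hu : f' y ∈ Q.cl (H₀ ∪ Set.range z) := by
      apply hN i
      rw [← hf'face i]
      exact ⟨y, hi, rfl⟩
    have h1 := hW _ hu
    change f (T' (f' (T (T' (f (T (f' y))))))) = y
    rw [T_back Q hT (hfW _ h1), hf.left _ (hWc _ h1), hT.left _ hu, hf.right _ (hcr y hy)]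
  · intro y hy
    obtain ⟨i, hi⟩ := Set.mem_iUnion.1 hy
    have hyN := hN i y hi
    have h1 := hW _ hyN
    have hv : T' (f' (T y)) ∈ Q.face H₀ z i := by
      have h2 := Q.theta_face hH hx hT hs i
      rw [← h2]
      exact ⟨y, hi, rfl⟩
    have hvc : T' (f' (T y)) ∈ Q.crown H z := hcr _ (Q.face_sub_crown H₀ z i hv)
    change T' (f (T (f' (f (T' (f' (T y))))))) = y
    rw [hf.left _ hvc, T_back Q hT (hfW' _ h1), hf.right _ (hWc _ h1), hT.left _ hyN]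
  · intro y hy
    change T' (f (T (f' y))) = y
    rw [hs.fixH y (hH hy), hT.fix y (hsub y hy), hf.fixH y (hH hy)]
    conv_lhs => rw [← hT.fix y (hsub y hy)]
    exact hT.left y (hN j y (hsub y hy))
  · intro i
    change T' (f (T (f' (z i)))) = z i
    have hzi : z i ∈ Q.cl (H₀ ∪ Set.range z) := Q.sub_cl _ (Or.inr ⟨i, rfl⟩)
    rw [hs.fixz i]
    by_cases hij : i = j
    · subst hij
      rw [hT.zj, hf.fixH x hx, ← hT.zj, hT.left _ hzi]
    · have h1 : z i ∈ Q.face H₀ z j := Q.sub_face H₀ z j (Or.inr ⟨i, hij, rfl⟩)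
      rw [hT.fix _ h1, hf.fixz i]
      conv_lhs => rw [← hT.fix _ h1]
      exact hT.left _ hzi
  · intro i hi y hy
    change T' (f (T (f' y))) = y
    by_cases hij : i = j
    · subst hij
      have h1 : f' y ∈ Q.face H₀ z i := by
        rw [← hf'face i]
        exact ⟨y, hy, rfl⟩
      rw [hT.fix _ h1, hf.right _ (hcr y (Q.face_sub_crown H₀ z i hy))]
      conv_lhs => rw [← hT.fix y hy]
      exact hT.left y (hN i y hy)
    · have hiS : i ∈ S := by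
        rcases hi with h | h
        · exact absurd h hij
        · exact h
      have h1 : y ∈ Q.face H z i := Q.face_mono hHc z i hy
      rw [hs.fixS i hiS y h1]
      have h2 : T y ∈ Q.face H z i := by
        refine W_le Q hH hx i (s := {i, j}ᶜ) (fun h => h (Or.inl rfl)) ?_
        rw [← hT.face_img Q i hij]
        exact ⟨y, hy, rfl⟩
      rw [hf.fixS i hiS _ h2, hT.left y (hN i y hy)]

end Pool.Agent.QMX
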