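import Pool.Agent.QMX.ElCl

/-!
# QMX / Preg: independence, faces and crowns

PROOFS.  `Ind.mono`: `cl (H ∪ z '' {j}ᶜ) ⊆ cl (H' ∪ z '' {j}ᶜ)`.
`ind_disjoint`: by `cl_fin` `s` may be replaced by a finite set; induction on it: if
`x ∈ cl (H₀ ∪ z '' (insert i s))` with `i ∉ s` and `x ∉ cl (H₀ ∪ z '' s)` then by `exch`
`z i ∈ cl (insert x (H₀ ∪ z '' s)) ⊆ cl (H ∪ z '' {i}ᶜ)`, a contradiction.
`ind_inter`: by `cl_fin` there is a finite `s' ⊆ s` with `x ∈ cl (H ∪ z '' s')`; take `s'` with the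
smallest number of elements; if `i ∈ s' \ t` then `x ∉ cl (H ∪ z '' (s' \ {i}))`, by `exch`
`z i ∈ cl (insert x (H ∪ z '' (s' \ {i}))) ⊆ cl (H ∪ z '' {i}ᶜ)` (as `x ∈ cl (H ∪ z '' t)`, `i ∉ t`), a
contradiction. So `s' ⊆ s ∩ t`.
`crown_support`: induction on the finite set `v` with `cl_fin` (or `fin_support` for the elements of
each face).  The rest is formal.
-/

set_option autoImplicit false

namespace Pool.Agent.QMX

variable {M : Type} (Q : Qm M) {I : Type}

lemma Qm.Ind.mono {H H' : Set M} {z : I → M} (h : Q.Ind H' z) (hH : H ⊆ Q.cl H') :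
    Q.Ind H z := by
  intro j hj
  refine h j (Q.cl_le (Set.union_subset ?_ ?_) hj)
  · exact hH.trans (Q.cl_mono _ _ Set.subset_union_left)
  · exact Set.subset_union_right.trans (Q.sub_cl _)

lemma Qm.Ind.injective {H : Set M} {z : I → M} (h : Q.Ind H z) : Function.Injective z := by
  intro i j hij
  by_contra hne
  exact h j (Q.sub_cl _ (Or.inr ⟨i, hne, hij⟩))

private theorem fin_sup {A : Set M} {z : I → M} {s : Set I} {x : M}
    (hx : x ∈ Q.cl (A ∪ z '' s)) : ∃ s' ⊆ s, s'.Finite ∧ x ∈ Q.cl (A ∪ z '' s') := by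
  obtain ⟨F, hF, hFf, hxF⟩ := Q.cl_fin _ x hx
  refine (Set.exists_subset_image_finite_and (p := fun t => x ∈ Q.cl (A ∪ t))).1
    ⟨F \ A, ?_, hFf.sdiff, ?_⟩
  · rintro y ⟨hy, hyA⟩
    exact (hF hy).resolve_left hyA
  · refine Q.cl_mono _ _ ?_ hxF
    intro y hy
    by_cases hyA : y ∈ A
    · exact Or.inl hyA
    · exact Or.inr ⟨hy, hyA⟩

theorem Qm.ind_disjoint {H H₀ : Set M} {z : I → M} (h : Q.Ind H z) (hH : H₀ ⊆ H) (s : Set I)
    {x : M} (hx : x ∈ H) (hxs : x ∈ Q.cl (H₀ ∪ z '' s)) : x ∈ Q.cl H₀ := by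
  obtain ⟨s', -, hf, hx'⟩ := fin_sup Q hxs
  clear hxs
  induction s', hf using Set.Finite.induction_on with
  | empty => rwa [Set.image_empty, Set.union_empty] at hx'
  | @insert i u hi hu ih =>
    by_contra hcon
    have h1 : x ∉ Q.cl (H₀ ∪ z '' u) := fun h2 => hcon (ih h2)
    have h2 : x ∈ Q.cl (insert (z i) (H₀ ∪ z '' u)) := by
      rwa [Set.image_insert_eq, Set.union_insert] at hx'
    have h3 := Q.exch _ _ _ h2 h1
    refine h i (Q.cl_mono _ _ ?_ h3)
    rintro y (rfl | hy | ⟨j, hj, rfl⟩)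
    · exact Or.inl hx
    · exact Or.inl (hH hy)
    · refine Or.inr ⟨j, ?_, rfl⟩
      rintro rfl
      exact hi hj

theorem Qm.ind_inter {H : Set M} {z : I → M} (h : Q.Ind H z) (s t : Set I) {x : M}
    (hs : x ∈ Q.cl (H ∪ z '' s)) (ht : x ∈ Q.cl (H ∪ z '' t)) :
    x ∈ Q.cl (H ∪ z '' (s ∩ t)) := by
  obtain ⟨s', hss, hf, hx'⟩ := fin_sup Q hs
  have key : ∀ u : Set I, u.Finite → ∀ w : Set I, w ⊆ s ∩ t → u ⊆ s →
      x ∈ Q.cl (H ∪ z '' (w ∪ u)) → x ∈ Q.cl (H ∪ z '' (s ∩ t)) := by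
    intro u hu
    induction u, hu using Set.Finite.induction_on with
    | empty =>
      intro w hw _ h1
      rw [Set.union_empty] at h1
      exact Q.cl_mono _ _ (Set.union_subset_union_right _ (Set.image_mono hw)) h1
    | @insert i u hi hu ih =>
      intro w hw hus h1
      have hus' : u ⊆ s := (Set.subset_insert i u).trans hus
      by_cases hit : i ∈ t
      · refine ih (insert i w) ?_ hus' ?_
        · rintro y (rfl | hy)
          · exact ⟨hus (Set.mem_insert _ _), hit⟩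
          · exact hw hy
        · rwa [Set.insert_union, ← Set.union_insert]
      · by_cases h2 : x ∈ Q.cl (H ∪ z '' (w ∪ u))
        · exact ih w hw hus' h2
        · exfalso
          have h3 : x ∈ Q.cl (insert (z i) (H ∪ z '' (w ∪ u))) := by
            rwa [Set.union_insert, Set.image_insert_eq, Set.union_insert] at h1
          have h4 := Q.exch _ _ _ h3 h2
          refine h i (Q.cl_le ?_ h4)
          rintro y (rfl | hy | ⟨j, hj, rfl⟩)
          · refine Q.cl_mono _ _ (Set.union_subset_union_right _ (Set.image_mono ?_)) ht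
            rintro j hj rfl
            exact hit hj
          · exact Q.sub_cl _ (Or.inl hy)
          · refine Q.sub_cl _ (Or.inr ⟨j, ?_, rfl⟩)
            rintro rfl
            rcases hj with hj | hj
            · exact hit (hw hj).2
            · exact hi hj
  refine key s' hf ∅ (Set.empty_subset _) hss ?_
  rwa [Set.empty_union]

lemma Qm.face_closed (H : Set M) (z : I → M) (j : I) : Q.cl (Q.face H z j) = Q.face H z j :=
  Q.cl_idem _

lemma Qm.face_countable [Countable I] {H : Set M} (hH : H.Countable) (z : I → M) (j : I) :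
    (Q.face H z j).Countable :=
  Q.cl_ctbl _ (hH.union ((Set.to_countable _).image z))

lemma Qm.crown_countable [Countable I] {H : Set M} (hH : H.Countable) (z : I → M) :
    (Q.crown H z).Countable :=
  Set.countable_iUnion fun j => Q.face_countable hH z j

lemma Qm.face_mono {H₀ H : Set M} (h : H₀ ⊆ Q.cl H) (z : I → M) (j : I) :
    Q.face H₀ z j ⊆ Q.face H z j := by
  refine Q.cl_le (Set.union_subset ?_ ?_)
  · exact h.trans (Q.cl_mono _ _ Set.subset_union_left)
  · exact Set.subset_union_right.trans (Q.sub_cl _)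

lemma Qm.crown_mono {H₀ H : Set M} (h : H₀ ⊆ Q.cl H) (z : I → M) :
    Q.crown H₀ z ⊆ Q.crown H z :=
  Set.iUnion_mono fun j => Q.face_mono h z j

lemma Qm.crown_cl (H : Set M) (z : I → M) : Q.crown (Q.cl H) z = Q.crown H z := by
  unfold Qm.crown
  refine Set.iUnion_congr fun j => ?_
  exact Q.cl_union_cl _ _

lemma Qm.sub_face (H : Set M) (z : I → M) (j : I) : H ∪ z '' {j}ᶜ ⊆ Q.face H z j :=
  Q.sub_cl _

lemma Qm.face_sub_crown (H : Set M) (z : I → M) (j : I) : Q.face H z j ⊆ Q.crown H z :=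
  Set.subset_iUnion (fun j => Q.face H z j) j

lemma Qm.sub_crown [Nontrivial I] (H : Set M) (z : I → M) :
    H ∪ Set.range z ⊆ Q.crown H z := by
  rintro y (hy | ⟨i, rfl⟩)
  · obtain ⟨j⟩ := (inferInstance : Nonempty I)
    exact Q.face_sub_crown H z j (Q.sub_face H z j (Or.inl hy))
  · obtain ⟨j, hj⟩ := exists_ne i
    exact Q.face_sub_crown H z j (Q.sub_face H z j (Or.inr ⟨i, hj.symm, rfl⟩))

lemma Qm.crown_sub (H : Set M) (z : I → M) : Q.crown H z ⊆ Q.cl (H ∪ Set.range z) := by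
  refine Set.iUnion_subset fun j => ?_
  exact Q.cl_mono _ _ (Set.union_subset_union_right _ (Set.image_subset_range _ _))

lemma Qm.cl_crown [Nontrivial I] (H : Set M) (z : I → M) :
    Q.cl (Q.crown H z) = Q.cl (H ∪ Set.range z) :=
  Set.Subset.antisymm (Q.cl_le (Q.crown_sub H z)) (Q.cl_mono _ _ (Q.sub_crown H z))

lemma Qm.cl_insert_face (H : Set M) (z : I → M) (j : I) :
    Q.cl (insert (z j) (Q.face H z j)) = Q.cl (H ∪ Set.range z) := by
  unfold Qm.face
  rw [Q.cl_insert_cl, ← Set.union_insert, ← Set.image_insert_eq]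
  have : insert j ({j}ᶜ : Set I) = Set.univ := by
    ext i
    by_cases h : i = j
    · simp [h]
    · simp [h]
  rw [this, Set.image_univ]

/-- Finite supports of elements of the crown. -/
theorem Qm.crown_support {H : Set M} (z : I → M) {v : Set M} (hv : v.Finite)
    (h : v ⊆ Q.crown H z) : ∃ G ⊆ H, G.Finite ∧ v ⊆ Q.crown G z := by
  induction v, hv using Set.Finite.induction_on with
  | empty => exact ⟨∅, Set.empty_subset _, Set.finite_empty, Set.empty_subset _⟩
  | @insert x u hx hu ih =>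
    obtain ⟨G, h1, h2, h3⟩ := ih ((Set.subset_insert x u).trans h)
    obtain ⟨j, hj⟩ := Set.mem_iUnion.1 (h (Set.mem_insert x u))
    obtain ⟨F, hF, hFf, hxF⟩ := Q.cl_fin _ x hj
    refine ⟨G ∪ (F ∩ H), Set.union_subset h1 Set.inter_subset_right,
      h2.union (hFf.inter_of_left H), ?_⟩
    rintro y (rfl | hy)
    · refine Q.face_sub_crown _ z j (Q.cl_mono _ _ ?_ hxF)
      intro w hw
      rcases hF hw with hw' | hw'
      · exact Or.inl (Or.inr ⟨hw, hw'⟩)
      · exact Or.inr hw'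
    · exact Q.crown_mono (Set.subset_union_left.trans (Q.sub_cl _)) z (h3 hy)

end Pool.Agent.QMX
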