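import Pool.Agent.QMX.LemA
import Pool.Agent.QMX.Preg

/-!
# QMX / Ucr: types over larger crowns

PROOF of `ucr_one`.  If `w ∈ cl H₀` the crowns agree. By `el_fin` it is enough to treat a finite
`v ⊆ crown (insert w H₀) z` and a finite subset `Δ₀` of `Δ`. The second components are in
`cl (H₀ ∪ range z)` too (`dom_cl`, `cl_crown`). By `crown_support` and `fin_support` there is a finite
`F ⊆ H₀` with `v ⊆ crown (insert w F) z` and the components of `Δ₀` in `X := cl (F ∪ range z)`. `Inf`: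
choose `w' ∈ H₀`, `w' ∉ cl F`. By `ind_disjoint` `w, w' ∉ X`. `lemA` with `f = id`: `g` elementary on
`cl (insert w X)`, `g = id` on `X`, `g w = w'`. For `x ∈ v`, `x ∈ cl (insert w F ∪ z '' {j}ᶜ)`, so
`g x ∈ cl (insert w' F ∪ z '' {j}ᶜ) ⊆ crown H₀ z` (`map_cl`). Now `El (gr id v ∪ Δ₀)`:
`x ↦ g x ↦ g x ↦ x` and `p.1 ↦ g p.1 = p.1 ↦ p.2 ↦ p.2` by `chain` for
`gr g (cl (insert w X))`, `gr id (crown H₀ z) ∪ Δ` and the reverse of `gr g (cl (insert w X))`.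
PROOF of `ucr`.  By `el_fin` and `crown_support` it is enough to show
`El (gr id (crown (H₀ ∪ G) z) ∪ Δ)` for finite `G ⊆ H'`; induction on `G` with `ucr_one`.
-/

set_option autoImplicit false

namespace Pool.Agent.QMX

variable {M : Type} (Q : Qm M) {I : Type} [Finite I] [Nontrivial I]

theorem Qm.ucr_one (H₀ : Set M) (w : M) (hinf : Q.Inf H₀) (z : I → M)
    (hz : Q.Ind (insert w H₀) z) (Δ : Set (M × M)) (hΔ : ∀ p ∈ Δ, p.1 ∈ Q.cl (H₀ ∪ Set.range z))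
    (hel : Q.El (gr id (Q.crown H₀ z) ∪ Δ)) :
    Q.El (gr id (Q.crown (insert w H₀) z) ∪ Δ) := by
  by_cases hw : w ∈ Q.cl H₀
  · refine Q.el_mono _ _ (Set.union_subset_union_left _ (gr_mono id ?_)) hel
    exact Q.crown_mono (Set.insert_subset hw (Q.sub_cl H₀)) z
  apply Q.el_fin
  intro Γ hΓ hfin
  set v : Set M := {x | x ∈ Q.crown (insert w H₀) z ∧ (x, x) ∈ Γ} with hv
  have hvf : v.Finite := (hfin.image Prod.fst).subset fun x hx => ⟨(x, x), hx.2, rfl⟩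
  set Δ₀ : Set (M × M) := Γ ∩ Δ with hΔ₀
  have hΔ₀f : Δ₀.Finite := hfin.subset Set.inter_subset_left
  have hcov : Γ ⊆ gr id v ∪ Δ₀ := by
    intro p hp
    rcases hΓ hp with h1 | h1
    · left
      rw [mem_gr] at h1 ⊢
      obtain ⟨h2, h3⟩ := h1
      refine ⟨⟨h2, ?_⟩, h3⟩
      have e1 : (p.1, p.1) = p := Prod.ext rfl h3.symm
      rw [e1]
      exact hp
    · exact Or.inr ⟨hp, h1⟩
  refine Q.el_mono _ _ hcov ?_
  have hD1 : ∀ p ∈ Δ₀, p.1 ∈ Q.cl (H₀ ∪ Set.range z) := fun p hp => hΔ p hp.2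
  have hD2 : ∀ p ∈ Δ₀, p.2 ∈ Q.cl (H₀ ∪ Set.range z) := by
    intro p hp
    have h1 : p.1 ∈ Q.cl (Q.crown H₀ z) := by
      rw [Q.cl_crown]
      exact hΔ p hp.2
    have h2 := Q.dom_cl hel hp.2 h1
    rwa [Set.image_id, Q.cl_crown] at h2
  obtain ⟨G, hG, hGf, hvG⟩ := Q.crown_support z hvf (fun x hx => hx.1)
  obtain ⟨F', hF', hF'f, hDF'⟩ := Q.fin_support (X := H₀ ∪ Set.range z)
    (D := Prod.fst '' Δ₀ ∪ Prod.snd '' Δ₀) ((hΔ₀f.image _).union (hΔ₀f.image _)) (by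
      rintro x (⟨p, hp, rfl⟩ | ⟨p, hp, rfl⟩)
      · exact hD1 p hp
      · exact hD2 p hp)
  set F : Set M := (G \ {w}) ∪ (F' ∩ H₀) with hF
  have hFf : F.Finite := hGf.sdiff.union (hF'f.inter_of_left H₀)
  have hFH : F ⊆ H₀ := by
    rintro x (hx | hx)
    · exact (hG hx.1).resolve_left hx.2
    · exact hx.2
  set X : Set M := Q.cl (F ∪ Set.range z) with hX
  have hXc : X.Countable := Q.cl_ctbl _ (hFf.countable.union (Set.finite_range z).countable)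
  have hXcl : Q.cl X ⊆ X := Q.cl_cl _
  have hF'X : F' ⊆ F ∪ Set.range z := by
    intro x hx
    rcases hF' hx with h1 | h1
    · exact Or.inl (Or.inr ⟨hx, h1⟩)
    · exact Or.inr h1
  have hX1 : ∀ p ∈ Δ₀, p.1 ∈ X := fun p hp =>
    Q.cl_mono _ _ hF'X (hDF' (Or.inl ⟨p, hp, rfl⟩))
  have hX2 : ∀ p ∈ Δ₀, p.2 ∈ X := fun p hp =>
    Q.cl_mono _ _ hF'X (hDF' (Or.inr ⟨p, hp, rfl⟩))
  obtain ⟨w', hw'H, hw'F⟩ := Set.not_subset.1 (hinf F hFf)
  have hFins : F ⊆ insert w H₀ := hFH.trans (Set.subset_insert w H₀)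
  have hwX : w ∉ X := by
    intro h1
    rw [hX, ← Set.image_univ] at h1
    exact hw (Q.cl_mono _ _ hFH (Q.ind_disjoint hz hFins Set.univ (Set.mem_insert _ _) h1))
  have hw'X : w' ∉ X := by
    intro h1
    rw [hX, ← Set.image_univ] at h1
    exact hw'F (Q.ind_disjoint hz hFins Set.univ (Set.mem_insert_of_mem _ hw'H) h1)
  obtain ⟨g, hg1, hg2, hg3, -⟩ := Q.lemA X hXc hXcl id (Q.el_id_gr X)
    (by rw [Set.image_id]; exact hXcl) w w' hwX (by rw [Set.image_id]; exact hw'X)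
  set Y : Set M := Q.cl (insert w X) with hY
  have hXY : X ⊆ Y := (Set.subset_insert w X).trans (Q.sub_cl _)
  have hFX : F ∪ Set.range z ⊆ X := Q.sub_cl _
  have hvY : ∀ x ∈ v, x ∈ Y ∧ g x ∈ Q.crown H₀ z := by
    intro x hx
    obtain ⟨j, hj⟩ := Set.mem_iUnion.1 (hvG hx)
    set S : Set M := insert w F ∪ z '' {j}ᶜ with hS
    have hxS : x ∈ Q.cl S := by
      refine Q.cl_mono _ _ ?_ hj
      rintro y (hy | hy)
      · by_cases hyw : y = w
        · exact Or.inl (Or.inl hyw)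
        · exact Or.inl (Or.inr (Or.inl ⟨hy, hyw⟩))
      · exact Or.inr hy
    have hSX : S ⊆ insert w X := by
      rintro y ((hy | hy) | ⟨i, -, rfl⟩)
      · exact Or.inl hy
      · exact Or.inr (hFX (Or.inl hy))
      · exact Or.inr (hFX (Or.inr ⟨i, rfl⟩))
    have hxY : x ∈ Y := Q.cl_mono _ _ hSX hxS
    refine ⟨hxY, Q.face_sub_crown H₀ z j ?_⟩
    have h1 := Q.map_cl hg1 (hSX.trans (Q.sub_cl _)) hxY hxS
    refine Q.cl_mono _ _ ?_ h1
    rintro _ ⟨y, (hy | hy) | hy, rfl⟩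
    · left
      rw [hy, hg3]
      exact hw'H
    · left
      rw [hg2 (hFX (Or.inl hy))]
      exact hFH hy
    · right
      obtain ⟨i, hi, rfl⟩ := hy
      rw [hg2 (hFX (Or.inr ⟨i, rfl⟩))]
      exact ⟨i, hi, rfl⟩
  have hΛ : Q.El (gr g v ∪ Δ₀) := by
    refine Q.chain hg1 hel ?_
    rintro p (hp | hp)
    · rw [mem_gr] at hp
      obtain ⟨h1, h2⟩ := hp
      refine ⟨g p.1, mem_gr.2 ⟨(hvY _ h1).1, rfl⟩, Or.inl (mem_gr.2 ⟨(hvY _ h1).2, h2⟩)⟩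
    · refine ⟨p.1, mem_gr.2 ⟨hXY (hX1 p hp), (hg2 (hX1 p hp)).symm⟩, Or.inr hp.2⟩
  refine Q.chain hΛ (Q.el_symm _ hg1) ?_
  rintro p (hp | hp)
  · rw [mem_gr] at hp
    obtain ⟨h1, h2⟩ := hp
    refine ⟨g p.1, Or.inl (mem_gr.2 ⟨h1, rfl⟩), ⟨(p.2, g p.1), ?_, rfl⟩⟩
    rw [mem_gr]
    have h3 : p.2 = p.1 := h2
    refine ⟨?_, ?_⟩
    · change p.2 ∈ Y
      rw [h3]
      exact (hvY _ h1).1
    · change g p.1 = g p.2
      rw [h3]
  · refine ⟨p.2, Or.inr hp, ⟨(p.2, p.2), mem_gr.2 ⟨hXY (hX2 p hp), ?_⟩, rfl⟩⟩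
    exact (hg2 (hX2 p hp)).symm

/-- Types over the crown of `H₀` determine the types over the crown of `H'`. -/
theorem Qm.ucr (H₀ H' : Set M) (hH : H₀ ⊆ H') (hinf : Q.Inf H₀) (z : I → M) (hz : Q.Ind H' z)
    (Δ : Set (M × M)) (hΔ : ∀ p ∈ Δ, p.1 ∈ Q.cl (H₀ ∪ Set.range z))
    (hel : Q.El (gr id (Q.crown H₀ z) ∪ Δ)) : Q.El (gr id (Q.crown H' z) ∪ Δ) := by
  have hΔ' : ∀ G : Set M, ∀ p ∈ Δ, p.1 ∈ Q.cl ((H₀ ∪ G) ∪ Set.range z) := fun G p hp =>
    Q.cl_mono _ _ (Set.union_subset_union_left _ Set.subset_union_left) (hΔ p hp)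
  have key : ∀ G : Set M, G.Finite → G ⊆ H' → Q.El (gr id (Q.crown (H₀ ∪ G) z) ∪ Δ) := by
    intro G hG
    induction G, hG using Set.Finite.induction_on with
    | empty =>
      intro _
      rwa [Set.union_empty]
    | @insert w G hw hG ih =>
      intro hGH
      rw [Set.union_insert]
      refine Q.ucr_one (H₀ ∪ G) w ?_ z (Qm.Ind.mono Q hz ?_) Δ (hΔ' G)
        (ih ((Set.subset_insert w G).trans hGH))
      · intro F hF hsub
        exact hinf F hF (Set.subset_union_left.trans hsub)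
      · refine Set.Subset.trans ?_ (Q.sub_cl H')
        rintro y (rfl | hy | hy)
        · exact hGH (Set.mem_insert _ _)
        · exact hH hy
        · exact hGH (Set.mem_insert_of_mem _ hy)
  apply Q.el_fin
  intro Γ hΓ hfin
  set v : Set M := {x | x ∈ Q.crown H' z ∧ (x, x) ∈ Γ} with hv
  have hvf : v.Finite := (hfin.image Prod.fst).subset fun x hx => ⟨(x, x), hx.2, rfl⟩
  obtain ⟨G, hG, hGf, hvG⟩ := Q.crown_support z hvf (fun x hx => hx.1)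
  refine Q.el_mono _ _ ?_ (key G hGf hG)
  intro p hp
  rcases hΓ hp with h1 | h1
  · left
    rw [mem_gr] at h1 ⊢
    obtain ⟨h2, h3⟩ := h1
    refine ⟨?_, h3⟩
    have e1 : (p.1, p.1) = p := Prod.ext rfl h3.symm
    have h4 : p.1 ∈ v := ⟨h2, by rw [e1]; exact hp⟩
    exact Q.crown_mono (Set.subset_union_right.trans (Q.sub_cl _)) z (hvG h4)
  · exact Or.inr h1

end Pool.Agent.QMX
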