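import Pool.Agent.QMX.Phi
import Pool.Agent.QMX.Basis
import Pool.Agent.QMX.Ucr

/-!
# QMX / Real: realization of types over crowns

Notation: `H x = cl (B \ {x})`, `N x = cl (H x ∪ range z)`.

PROOF of `real_comb`.  `B` from `exists_drop`. By `fin_support` (`N = cl (H ∪ range z) =
cl (B ∪ range z)`) there is a finite `F ⊆ B` with `D ⊆ cl (F ∪ range z)`. Let `x ∈ B \ F`. `g := g x`
from the hypothesis `h` for `H x` (closed, `Inf` by `exists_drop` with `y = x`, `x ∉ H x`). Claim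
`El (gr f (crown H z) ∪ gr g D)`. By `el_fin`, `crown_support` (and `crown_cl`: `crown H z ⊆
crown B z`) it is enough to show `El (gr f (crown G z) ∪ gr g D)` for finite `G ⊆ B`. Let
`y ∈ B \ (F ∪ G)`, `G ⊆ H y`, and `g'` from `h` for `H y`: `El (gr f (crown (H y) z) ∪ gr g' D)`. Let
`H₂ = cl (B \ {x, y})`, contained in `H x` and `H y`, `Inf`, and `D ⊆ cl (H₂ ∪ range z)`. Put
`Δ = {(g d, g' d) | d ∈ D}`. `El (gr id (crown H₂ z) ∪ Δ)`: `chain` of the reverse of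
`gr f (crown H₂ z) ∪ gr g D` and `gr f (crown H₂ z) ∪ gr g' D` (`cr_crown`: `f` maps `crown H₂ z` onto
itself). The first components `g d` are in `cl (H₂ ∪ range z)` by `dom_cl` for
`gr f (crown H₂ z) ∪ gr g D` (`cl_crown`, `cr_crown`). By `ucr` `El (gr id (crown (H y) z) ∪ Δ)`. The
chain of `gr f (crown (H y) z) ∪ gr g' D` with the reverse of this (`f` maps `crown (H y) z` into
itself) is `gr f (crown (H y) z) ∪ gr g D`.

PROOF of `real_step`.  `x ∈ H`, `x ∉ H₀`; `T, T'` from `exists_T`, `θ = T' ∘ f ∘ T`, `φ, φ'` from `phi`.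
`D₁ = θ '' D ⊆ cl (H₀ ∪ range z)` (`theta_img`). `ih` for `φ'` (`phi` and `Cr.symm`) and `D₁` gives `g₁`
with `El (gr φ' (crown H₀ z) ∪ gr g₁ D₁)`. The chain of `gr θ (cl (H₀ ∪ range z))` (`theta_el`) with this
is `gr f (crown H₀ z) ∪ gr (g₁ ∘ θ) D`: for `y ∈ crown H₀ z`, `θ y ∈ crown H₀ z` (`theta_face`) and
`φ' (θ y) = f (T' (f' (T (T' (f (T y)))))) = f y`; this also follows from `θ y = φ (f y)`
(`f' (f y) = y`) and `φ' (φ (f y)) = f y` (`left` of `phi`, `f y ∈ crown H₀ z` by `cr_crown`).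

PROOF of `real`.  Induction on the number of elements of `Sᶜ` (for all `H` simultaneously, `z` fixed).
If `S = univ`: `f` is the identity on the crown, `g = id`. Otherwise let `j ∉ S`: `real_comb` and
`real_step`.
-/

set_option autoImplicit false

namespace Pool.Agent.QMX

variable {M : Type} (Q : Qm M) {I : Type} [Finite I] [Nontrivial I]

omit [Finite I] [Nontrivial I] in
private lemma Qm.crown_mono' {H₀ H : Set M} (h : H₀ ⊆ H) (z : I → M) :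
    Q.crown H₀ z ⊆ Q.crown H z := Q.crown_mono (h.trans (Q.sub_cl H)) z

theorem Qm.real_comb (H : Set M) (hcl : Q.cl H ⊆ H) (hinf : Q.Inf H)
    (z : I → M) (hz : Q.Ind H z) (S : Set I) (f f' : M → M) (hf : Q.Cr H z S f f') (D : Set M)
    (hD : D.Finite) (hDN : D ⊆ Q.cl (H ∪ Set.range z))
    (h : ∀ H₀ ⊆ H, Q.cl H₀ ⊆ H₀ → Q.Inf H₀ → (∃ x ∈ H, x ∉ H₀) →
      D ⊆ Q.cl (H₀ ∪ Set.range z) → ∃ g : M → M, Q.El (gr f (Q.crown H₀ z) ∪ gr g D)) :
    ∃ g : M → M, Q.El (gr f (Q.crown H z) ∪ gr g D) := by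
  obtain ⟨B, hBH, hHB, hBi, hBinf, hBInf⟩ := Q.exists_drop H hinf
  -- a finite support of `D`
  have hDB : D ⊆ Q.cl (B ∪ Set.range z) := by
    refine hDN.trans (Q.cl_le (Set.union_subset ?_ ?_))
    · exact hHB.trans (Q.cl_mono _ _ Set.subset_union_left)
    · exact Set.subset_union_right.trans (Q.sub_cl _)
  obtain ⟨F₀, hF₀, hF₀fin, hDF₀⟩ := Q.fin_support hD hDB
  have hFfin : (F₀ ∩ B).Finite := hF₀fin.subset Set.inter_subset_left
  have hDF : D ⊆ Q.cl ((F₀ ∩ B) ∪ Set.range z) := by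
    refine hDF₀.trans (Q.cl_mono _ _ ?_)
    intro a ha
    rcases hF₀ ha with h1 | h1
    · exact Or.inl ⟨ha, h1⟩
    · exact Or.inr h1
  -- the sets `K x`
  have hKH : ∀ A : Set M, A ⊆ B → Q.cl A ⊆ H := fun A hA =>
    (Q.cl_mono _ _ (hA.trans hBH)).trans hcl
  have hK1 : ∀ x, Q.Inf (Q.cl (B \ {x})) := by
    intro x
    have h1 := hBInf x x
    rwa [Set.pair_eq_singleton] at h1
  have hKD : ∀ A : Set M, F₀ ∩ B ⊆ A → D ⊆ Q.cl (Q.cl A ∪ Set.range z) := by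
    intro A hA
    refine hDF.trans (Q.cl_mono _ _ (Set.union_subset_union_left _ ?_))
    exact hA.trans (Q.sub_cl _)
  have hg : ∀ x ∈ B, x ∉ F₀ ∩ B →
      ∃ g : M → M, Q.El (gr f (Q.crown (Q.cl (B \ {x})) z) ∪ gr g D) := by
    intro x hx hxF
    refine h _ (hKH _ Set.sdiff_subset) (Q.cl_cl _) (hK1 x) ⟨x, hBH hx, hBi x hx⟩ (hKD _ ?_)
    intro a ha
    refine ⟨ha.2, ?_⟩
    rintro (rfl : a = x)
    exact hxF ha
  obtain ⟨x, hxB, hxF⟩ := (hBinf.sdiff hFfin).nonempty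
  obtain ⟨g, hgx⟩ := hg x hxB hxF
  refine ⟨g, ?_⟩
  -- the claim for finite sets
  have key : ∀ G ⊆ B, G.Finite → Q.El (gr f (Q.crown G z) ∪ gr g D) := by
    intro G hG hGfin
    obtain ⟨y, hyB, hyFG⟩ := (hBinf.sdiff (hFfin.union hGfin)).nonempty
    obtain ⟨g', hgy⟩ := hg y hyB (fun h1 => hyFG (Or.inl h1))
    set H₂ : Set M := Q.cl (B \ {x, y}) with hH₂
    have h2x : H₂ ⊆ Q.cl (B \ {x}) := Q.cl_mono _ _ (Set.sdiff_subset_sdiff_right (by
      intro a ha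
      rw [Set.mem_singleton_iff.1 ha]
      exact Or.inl rfl))
    have h2y : H₂ ⊆ Q.cl (B \ {y}) := Q.cl_mono _ _ (Set.sdiff_subset_sdiff_right (by
      intro a ha
      rw [Set.mem_singleton_iff.1 ha]
      exact Or.inr rfl))
    have h2H : H₂ ⊆ H := hKH _ Set.sdiff_subset
    have hyH : Q.cl (B \ {y}) ⊆ H := hKH _ Set.sdiff_subset
    have hD2 : D ⊆ Q.cl (H₂ ∪ Set.range z) := by
      refine hKD _ ?_
      intro a ha
      refine ⟨ha.2, ?_⟩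
      rintro (rfl | h1)
      · exact hxF ha
      · rw [Set.mem_singleton_iff] at h1
        subst h1
        exact hyFG (Or.inl ha)
    -- `El (gr id (crown H₂ z) ∪ Δ)`
    have hel : Q.El (gr id (Q.crown H₂ z) ∪ (fun d => (g d, g' d)) '' D) := by
      refine Q.chain (Q.el_symm _ hgx) hgy ?_
      rintro p (hp | ⟨d, hd, rfl⟩)
      · obtain ⟨hp1, hp2⟩ := mem_gr.1 hp
        have h1 : p.1 ∈ f '' Q.crown H₂ z := by
          rw [Q.cr_crown hf H₂ h2H]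
          exact hp1
        obtain ⟨u, hu, hup⟩ := h1
        refine ⟨u, ⟨(u, p.1), Or.inl (mem_gr.2 ⟨Q.crown_mono' h2x z hu, hup.symm⟩), rfl⟩, ?_⟩
        refine Or.inl (mem_gr.2 ⟨Q.crown_mono' h2y z hu, ?_⟩)
        rw [hup]
        exact hp2
      · exact ⟨d, ⟨(d, g d), Or.inr (mem_gr.2 ⟨hd, rfl⟩), rfl⟩, Or.inr (mem_gr.2 ⟨hd, rfl⟩)⟩
    have hΔ : ∀ p ∈ (fun d => (g d, g' d)) '' D, p.1 ∈ Q.cl (H₂ ∪ Set.range z) := by
      rintro _ ⟨d, hd, rfl⟩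
      have h1 : Q.El (gr f (Q.crown H₂ z) ∪ gr g D) :=
        Q.el_mono _ _ (Set.union_subset_union_left _ (gr_mono f (Q.crown_mono' h2x z))) hgx
      have h2 := Q.dom_cl h1 (p := (d, g d)) (mem_gr.2 ⟨hd, rfl⟩) (by
        rw [Q.cl_crown]
        exact hD2 hd)
      rw [Q.cr_crown hf H₂ h2H, Q.cl_crown] at h2
      exact h2
    have hucr := Q.ucr H₂ (Q.cl (B \ {y})) h2y (hBInf x y) z
      (hz.mono Q (hyH.trans (Q.sub_cl H))) _ hΔ hel
    refine Q.chain hgy (Q.el_symm _ hucr) ?_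
    have hGy : G ⊆ Q.cl (B \ {y}) := by
      refine Set.Subset.trans ?_ (Q.sub_cl _)
      intro a ha
      refine ⟨hG ha, ?_⟩
      rintro (rfl : a = y)
      exact hyFG (Or.inr ha)
    rintro p (hp | hp)
    · obtain ⟨hp1, hp2⟩ := mem_gr.1 hp
      have h1 : p.1 ∈ Q.crown (Q.cl (B \ {y})) z := Q.crown_mono' hGy z hp1
      have h2 : p.2 ∈ Q.crown (Q.cl (B \ {y})) z := by
        rw [← Q.cr_crown hf _ hyH, hp2]
        exact Set.mem_image_of_mem f h1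
      exact ⟨p.2, Or.inl (mem_gr.2 ⟨h1, hp2⟩), ⟨(p.2, p.2), Or.inl (mem_gr.2 ⟨h2, rfl⟩), rfl⟩⟩
    · obtain ⟨hp1, hp2⟩ := mem_gr.1 hp
      refine ⟨g' p.1, Or.inr (mem_gr.2 ⟨hp1, rfl⟩), ⟨(g p.1, g' p.1), Or.inr ⟨p.1, hp1, rfl⟩, ?_⟩⟩
      rw [hp2]
      rfl
  apply Q.el_fin
  intro Λ hΛ hΛfin
  have hv : (Prod.fst '' Λ ∩ Q.crown H z).Finite :=
    (hΛfin.image _).subset Set.inter_subset_left
  have hHcB : Q.crown H z ⊆ Q.crown B z := by
    rw [← Q.crown_cl B z]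
    exact Q.crown_mono' hHB z
  obtain ⟨G, hGB, hGfin, hvG⟩ := Q.crown_support z hv (Set.inter_subset_right.trans hHcB)
  refine Q.el_mono _ _ ?_ (key G hGB hGfin)
  intro p hp
  rcases hΛ hp with h1 | h1
  · obtain ⟨hp1, hp2⟩ := mem_gr.1 h1
    exact Or.inl (mem_gr.2 ⟨hvG ⟨⟨p, hp, rfl⟩, hp1⟩, hp2⟩)
  · exact Or.inr h1

theorem Qm.real_step (z : I → M) (S : Set I) (j : I)
    (ih : ∀ H : Set M, H.Countable → Q.cl H ⊆ H → Q.Inf H → Q.Ind H z → ∀ f f' : M → M,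
      Q.Cr H z (insert j S) f f' → ∀ D : Set M, D.Finite → D ⊆ Q.cl (H ∪ Set.range z) →
      ∃ g : M → M, Q.El (gr f (Q.crown H z) ∪ gr g D))
    (H : Set M) (hz : Q.Ind H z) (f f' : M → M) (hf : Q.Cr H z S f f')
    (D : Set M) (hD : D.Finite) (H₀ : Set M) (hc : H₀.Countable) (hH : H₀ ⊆ H)
    (hcl : Q.cl H₀ ⊆ H₀) (hinf : Q.Inf H₀) (hx : ∃ x ∈ H, x ∉ H₀)
    (hDN : D ⊆ Q.cl (H₀ ∪ Set.range z)) :
    ∃ g : M → M, Q.El (gr f (Q.crown H₀ z) ∪ gr g D) := by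
  obtain ⟨x, hxH, hx0⟩ := hx
  have hz1 : Q.Ind (insert x H₀) z :=
    hz.mono Q ((Set.insert_subset hxH hH).trans (Q.sub_cl H))
  have hz0 : Q.Ind H₀ z := hz.mono Q (hH.trans (Q.sub_cl H))
  obtain ⟨T, T', hT⟩ := Q.exists_T H₀ hc z x hz1 (fun h => hx0 (hcl h)) j
  have hphi := Q.phi hH hxH hT hf
  have himg := Q.theta_img hH hxH hT hf
  have hD₁ : (T' ∘ f ∘ T) '' D ⊆ Q.cl (H₀ ∪ Set.range z) := by
    rw [← himg]
    exact Set.image_mono hDN
  obtain ⟨g₁, hg₁⟩ := ih H₀ hc hcl hinf hz0 _ _ (hphi.symm Q) _ (hD.image _) hD₁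
  refine ⟨g₁ ∘ (T' ∘ f ∘ T), ?_⟩
  refine Q.chain (Q.theta_el hH hxH hT hf) hg₁ ?_
  rintro p (hp | hp)
  · obtain ⟨hp1, hp2⟩ := mem_gr.1 hp
    have hp1H : p.1 ∈ Q.crown H z := Q.crown_mono' hH z hp1
    have h1 : f p.1 ∈ Q.crown H₀ z := by
      rw [← Q.cr_crown hf H₀ hH]
      exact Set.mem_image_of_mem f hp1
    have h2 : (T' ∘ f ∘ T) p.1 = (T' ∘ f ∘ T ∘ f') (f p.1) := by
      change T' (f (T p.1)) = T' (f (T (f' (f p.1))))
      rw [hf.left p.1 hp1H]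
    have h3 : (T' ∘ f ∘ T) p.1 ∈ Q.crown H₀ z := by
      rw [h2, ← Q.cr_crown hphi H₀ (Set.Subset.refl _)]
      exact Set.mem_image_of_mem _ h1
    refine ⟨(T' ∘ f ∘ T) p.1, mem_gr.2 ⟨Q.crown_sub H₀ z hp1, rfl⟩,
      Or.inl (mem_gr.2 ⟨h3, ?_⟩)⟩
    rw [hp2]
    change f p.1 = (f ∘ T' ∘ f' ∘ T) ((T' ∘ f ∘ T) p.1)
    rw [h2, hphi.left _ h1]
  · obtain ⟨hp1, hp2⟩ := mem_gr.1 hp
    exact ⟨(T' ∘ f ∘ T) p.1, mem_gr.2 ⟨hDN hp1, rfl⟩,
      Or.inr (mem_gr.2 ⟨Set.mem_image_of_mem _ hp1, hp2⟩)⟩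

/-- Realization of types over crowns. -/
theorem Qm.real (z : I → M) (S : Set I) (H : Set M) (hc : H.Countable) (hcl : Q.cl H ⊆ H)
    (hinf : Q.Inf H) (hz : Q.Ind H z) (f f' : M → M) (hf : Q.Cr H z S f f') (D : Set M)
    (hD : D.Finite) (hDN : D ⊆ Q.cl (H ∪ Set.range z)) :
    ∃ g : M → M, Q.El (gr f (Q.crown H z) ∪ gr g D) := by
  have key : ∀ (n : ℕ) (S : Set I), Sᶜ.ncard = n → ∀ H : Set M, H.Countable → Q.cl H ⊆ H →
      Q.Inf H → Q.Ind H z → ∀ f f' : M → M, Q.Cr H z S f f' → ∀ D : Set M, D.Finite →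
      D ⊆ Q.cl (H ∪ Set.range z) → ∃ g : M → M, Q.El (gr f (Q.crown H z) ∪ gr g D) := by
    intro n
    induction n using Nat.strong_induction_on with
    | _ n ih =>
      intro S hS H hc hcl hinf hz f f' hf D hD hDN
      by_cases hSu : S = Set.univ
      · refine ⟨id, ?_⟩
        have h1 : gr f (Q.crown H z) = gr id (Q.crown H z) := by
          apply gr_congr
          intro y hy
          obtain ⟨i, hi⟩ := Set.mem_iUnion.1 hy
          exact hf.fixS i (by rw [hSu]; trivial) y hi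
        rw [h1, ← gr_union]
        exact Q.el_id_gr _
      · obtain ⟨j, hj⟩ := (Set.ne_univ_iff_exists_notMem S).1 hSu
        refine Q.real_comb H hcl hinf z hz S f f' hf D hD hDN ?_
        intro H₀ hH hcl₀ hinf₀ hx hDN₀
        refine Q.real_step z S j ?_ H hz f f' hf D hD H₀ (hc.mono hH) hH hcl₀ hinf₀ hx hDN₀
        have hlt : (insert j S)ᶜ.ncard < n := by
          rw [← hS]
          apply Set.ncard_lt_ncard ?_ (Set.toFinite _)
          refine ⟨Set.compl_subset_compl.2 (Set.subset_insert j S), fun h => ?_⟩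
          exact (h (show j ∈ Sᶜ from hj)) (Set.mem_insert j S)
        exact ih _ hlt (insert j S) rfl
  exact key _ S rfl H hc hcl hinf hz f f' hf D hD hDN

end Pool.Agent.QMX
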