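import Pool.Agent.QMX.LemA
import Pool.Agent.QMX.Preg

/-!
# QMX / Tmap: the reflection `T` and crown automorphisms

`Tm H₀ z j x T T'`: `T` is an elementary map from `N₀ = cl (H₀ ∪ range z)` onto
`cl (insert x (H₀ ∪ z '' {j}ᶜ))`, the identity on the face of `H₀` opposite to `j`, `z j ↦ x`, with
inverse `T'`.

PROOF of `exists_T`.  `lemA` with `X = face H₀ z j` (countable, closed), `f = id`, `b = z j`, `b' = x`
(`x ∉ X` by `ind_disjoint`), and `exists_inv`; `cl_insert_face`, `cl_insert_cl`.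
PROOF of `face_img`.  `image_cl` for the set `H₀ ∪ z '' {i}ᶜ` whose image is
`insert x (H₀ ∪ z '' {i, j}ᶜ)` (`T` is the identity on `H₀` and on `z k`, `k ≠ j`).
PROOF of `cr_sub`.  `f` is elementary on `face H z i`, which contains `cl (H₀ ∪ z '' s)` for
`i ∉ s`, and is the identity on `H₀` and `z '' s`: `image_cl`.
-/

set_option autoImplicit false

namespace Pool.Agent.QMX

variable {M : Type} (Q : Qm M) {I : Type}

/-- The reflection which moves `z j` to `x`, with its inverse. -/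
structure Qm.Tm (H₀ : Set M) (z : I → M) (j : I) (x : M) (T T' : M → M) : Prop where
  el : Q.El (gr T (Q.cl (H₀ ∪ Set.range z)))
  left : ∀ y ∈ Q.cl (H₀ ∪ Set.range z), T' (T y) = y
  fix : ∀ y ∈ Q.face H₀ z j, T y = y
  zj : T (z j) = x
  img : T '' Q.cl (H₀ ∪ Set.range z) = Q.cl (insert x (H₀ ∪ z '' {j}ᶜ))

theorem Qm.exists_T [Finite I] (H₀ : Set M) (hc : H₀.Countable) (z : I → M) (x : M)
    (hz : Q.Ind (insert x H₀) z) (hx : x ∉ Q.cl H₀) (j : I) : ∃ T T', Q.Tm H₀ z j x T T' := by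
  have hxF : x ∉ Q.face H₀ z j := fun h =>
    hx (Q.ind_disjoint hz (Set.subset_insert x H₀) {j}ᶜ (Set.mem_insert x H₀) h)
  have hzF : z j ∉ Q.face H₀ z j := by
    intro h
    refine hz j (Q.cl_mono _ _ ?_ h)
    exact Set.union_subset_union_left _ (Set.subset_insert x H₀)
  have hid : (id : M → M) '' Q.face H₀ z j = Q.face H₀ z j := Set.image_id _
  have hcl : Q.cl (Q.face H₀ z j) ⊆ Q.face H₀ z j := (Q.face_closed H₀ z j).le
  obtain ⟨T, h1, h2, h3, h4⟩ := Q.lemA (Q.face H₀ z j) (Q.face_countable hc z j) hcl id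
    (Q.el_id_gr _) (by rw [hid]; exact hcl) (z j) x hzF (by rw [hid]; exact hxF)
  rw [hid] at h4
  rw [Q.cl_insert_face] at h1 h4
  have h5 : Q.cl (insert x (Q.face H₀ z j)) = Q.cl (insert x (H₀ ∪ z '' {j}ᶜ)) :=
    Q.cl_insert_cl x _
  rw [h5] at h4
  obtain ⟨T', h6, _⟩ := Q.exists_inv h1
  exact ⟨T, T', ⟨h1, h6, fun y hy => h2 hy, h3, h4⟩⟩

theorem Qm.Tm.face_img {H₀ : Set M} {z : I → M} {j : I} {x : M} {T T' : M → M}
    (hT : Q.Tm H₀ z j x T T') (i : I) (hij : i ≠ j) :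
    T '' Q.face H₀ z i = Q.cl (insert x (H₀ ∪ z '' {i, j}ᶜ)) := by
  have hz : z j ∈ z '' {i}ᶜ := ⟨j, fun h => hij (Set.mem_singleton_iff.1 h).symm, rfl⟩
  have e : T '' (H₀ ∪ z '' {i}ᶜ) = insert x (H₀ ∪ z '' {i, j}ᶜ) := by
    ext y
    constructor
    · rintro ⟨w, hw | ⟨l, hl, rfl⟩, rfl⟩
      · rw [hT.fix w (Q.sub_face H₀ z j (Or.inl hw))]
        exact Or.inr (Or.inl hw)
      · by_cases hlj : l = j
        · rw [hlj, hT.zj]
          exact Or.inl rfl
        · rw [hT.fix (z l) (Q.sub_face H₀ z j (Or.inr ⟨l, hlj, rfl⟩))]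
          refine Or.inr (Or.inr ⟨l, ?_, rfl⟩)
          rintro (h | h)
          · exact hl h
          · exact hlj h
    · rintro (rfl | hw | ⟨l, hl, rfl⟩)
      · exact ⟨z j, Or.inr hz, hT.zj⟩
      · exact ⟨y, Or.inl hw, hT.fix y (Q.sub_face H₀ z j (Or.inl hw))⟩
      · have h1 : l ≠ i := fun h => hl (Or.inl h)
        have h2 : l ≠ j := fun h => hl (Or.inr h)
        exact ⟨z l, Or.inr ⟨l, h1, rfl⟩, hT.fix (z l) (Q.sub_face H₀ z j (Or.inr ⟨l, h2, rfl⟩))⟩
  have hS : H₀ ∪ z '' {i}ᶜ ⊆ H₀ ∪ Set.range z :=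
    Set.union_subset_union_right _ (Set.image_subset_range _ _)
  have h1 := Q.image_cl (f := T) (Y := Q.cl (H₀ ∪ Set.range z)) (S := H₀ ∪ z '' {i}ᶜ) hT.el
    (hS.trans (Q.sub_cl _)) (Q.cl_mono _ _ hS) (by
      rw [hT.img, e]
      refine Q.cl_mono _ _ (Set.insert_subset_insert (Set.union_subset_union_right _ ?_))
      refine Set.image_mono ?_
      intro l hl h
      exact hl (Or.inr h))
  rw [e] at h1
  exact h1

/-- Crown automorphisms preserve closures of subsets of `H` and parts of `z`. -/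
theorem Qm.cr_sub {H : Set M} {z : I → M} {S : Set I} {f f' : M → M} (hf : Q.Cr H z S f f')
    (i : I) (H₀ : Set M) (hH : H₀ ⊆ H) (s : Set I) (hs : i ∉ s) :
    f '' Q.cl (H₀ ∪ z '' s) = Q.cl (H₀ ∪ z '' s) := by
  have hS : H₀ ∪ z '' s ⊆ H ∪ z '' {i}ᶜ := by
    refine Set.union_subset_union hH (Set.image_mono ?_)
    intro l hl h
    rw [Set.mem_singleton_iff] at h
    exact hs (h ▸ hl)
  have e : f '' (H₀ ∪ z '' s) = H₀ ∪ z '' s := by
    have h1 : ∀ y ∈ H₀ ∪ z '' s, f y = y := by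
      rintro y (hy | ⟨l, _, rfl⟩)
      · exact hf.fixH y (hH hy)
      · exact hf.fixz l
    ext y
    constructor
    · rintro ⟨w, hw, rfl⟩
      rw [h1 w hw]
      exact hw
    · intro hy
      exact ⟨y, hy, h1 y hy⟩
  have h1 := Q.image_cl (f := f) (Y := Q.face H z i) (S := H₀ ∪ z '' s) (hf.el i)
    (hS.trans (Q.sub_cl _)) (Q.cl_mono _ _ hS) (by
      rw [hf.onto i, e]
      exact Q.cl_mono _ _ hS)
  rw [e] at h1
  exact h1

/-- The inverse of a crown automorphism. -/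
theorem Qm.Cr.symm [Nontrivial I] {H : Set M} {z : I → M} {S : Set I} {f f' : M → M}
    (hf : Q.Cr H z S f f') : Q.Cr H z S f' f := by
  have hl : ∀ j, ∀ x ∈ Q.face H z j, f' (f x) = x := fun j x hx =>
    hf.left x (Q.face_sub_crown H z j hx)
  have hsub := Q.sub_crown H z
  refine ⟨fun j => ?_, fun j => ?_, hf.right, hf.left, fun x hx => ?_, fun i => ?_,
    fun i hi x hx => ?_⟩
  · have h1 := Q.el_inv (hf.el j) (hl j)
    rw [hf.onto j] at h1
    exact h1
  · ext y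
    constructor
    · rintro ⟨w, hw, rfl⟩
      rw [← hf.onto j] at hw
      obtain ⟨v, hv, rfl⟩ := hw
      rw [hl j v hv]
      exact hv
    · intro hy
      refine ⟨f y, ?_, hl j y hy⟩
      rw [← hf.onto j]
      exact ⟨y, hy, rfl⟩
  · have h1 := hf.left x (hsub (Or.inl hx))
    rw [hf.fixH x hx] at h1
    exact h1
  · have h1 := hf.left (z i) (hsub (Or.inr ⟨i, rfl⟩))
    rw [hf.fixz i] at h1
    exact h1
  · have h1 := hl i x hx
    rw [hf.fixS i hi x hx] at h1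
    exact h1

/-- Crown automorphisms preserve the crowns of subsets of `H`. -/
theorem Qm.cr_crown {H : Set M} {z : I → M} {S : Set I} {f f' : M → M} (hf : Q.Cr H z S f f')
    (H₀ : Set M) (hH : H₀ ⊆ H) : f '' Q.crown H₀ z = Q.crown H₀ z := by
  unfold Qm.crown
  rw [Set.image_iUnion]
  refine Set.iUnion_congr fun j => ?_
  refine Q.cr_sub hf j H₀ hH {j}ᶜ ?_
  intro h
  exact h rfl

end Pool.Agent.QMX
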