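import Pool.Agent.QMX.ElCl

/-!
# QMX / Trans: the transfer lemma

PROOF of `transfer`.  By `el_fin` it is enough to show `El (gr h v ∪ Δ₀)` for finite `v` with
`c ⊆ v ⊆ Y` and finite `Δ₀ ⊆ Δ` (`Δ` is finite by `finite_of_dom` anyway). By `hom_set_rev` for the
finite graph `gr h v` and the finite set `Prod.snd '' Δ` there is `g` with
`El (gr h v ∪ {(g y, y) | y ∈ snd '' Δ})`. Put `Θ = {(p.1, g p.2) | p ∈ Δ}`. Then
`El (gr id c ∪ Θ)`: `chain` of `gr h c ∪ Δ` (`x ↦ h x`, `p.1 ↦ p.2`) and of the reverse of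
`gr h v ∪ {(g y, y)}` (`h x ↦ x`, `p.2 ↦ g p.2`). By `hdet` `El (gr id Y ∪ Θ)`. The chain of this
(`x ↦ x`, `p.1 ↦ g p.2`) with `gr h v ∪ {(g y, y)}` (`x ↦ h x`, `g p.2 ↦ p.2`) is `gr h v ∪ Δ`.
-/

set_option autoImplicit false

namespace Pool.Agent.QMX

variable {M : Type} (Q : Qm M)

/-- Determination of types transfers along elementary maps. -/
theorem Qm.transfer (h : M → M) (Y c D : Set M) (hY : Q.El (gr h Y)) (hcY : c ⊆ Y)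
    (hc : c.Finite) (hD : D.Finite)
    (hdet : ∀ Δ : Set (M × M), (∀ p ∈ Δ, p.1 ∈ D) → Q.El (gr id c ∪ Δ) → Q.El (gr id Y ∪ Δ))
    (Δ : Set (M × M)) (hΔ : ∀ p ∈ Δ, p.1 ∈ D) (hel : Q.El (gr h c ∪ Δ)) :
    Q.El (gr h Y ∪ Δ) := by
  have hΔfin : Δ.Finite :=
    Q.finite_of_dom (Q.el_mono _ _ Set.subset_union_right hel) hD hΔ
  apply Q.el_fin
  intro Λ hΛ hΛfin
  set v : Set M := c ∪ Prod.fst '' (Λ ∩ gr h Y) with hv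
  have hvfin : v.Finite := hc.union ((hΛfin.subset Set.inter_subset_left).image _)
  have hvY : v ⊆ Y := by
    rintro x (hx | ⟨p, hp, rfl⟩)
    · exact hcY hx
    · exact (mem_gr.1 hp.2).1
  have hcv : c ⊆ v := Set.subset_union_left
  refine Q.el_mono _ (gr h v ∪ Δ) ?_ ?_
  · intro p hp
    rcases hΛ hp with h1 | h1
    · exact Or.inl (mem_gr.2 ⟨Or.inr ⟨p, ⟨hp, h1⟩, rfl⟩, (mem_gr.1 h1).2⟩)
    · exact Or.inr h1
  have hgfin : (gr h v).Finite := hvfin.image _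
  obtain ⟨g, hg⟩ := Q.hom_set_rev hgfin (Q.el_mono _ _ (gr_mono h hvY) hY) (hΔfin.image Prod.snd)
  set Θ : Set (M × M) := (fun p : M × M => (p.1, g p.2)) '' Δ with hΘ
  have h1 : Q.El (gr id c ∪ Θ) := by
    refine Q.chain hel (Q.el_symm _ hg) ?_
    rintro p (hp | ⟨q, hq, rfl⟩)
    · obtain ⟨hp1, hp2⟩ := mem_gr.1 hp
      refine ⟨h p.1, Or.inl (mem_gr.2 ⟨hp1, rfl⟩), (p.1, h p.1), Or.inl (mem_gr.2 ⟨hcv hp1, rfl⟩), ?_⟩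
      rw [hp2]
      rfl
    · exact ⟨q.2, Or.inr hq, (g q.2, q.2), Or.inr ⟨q.2, ⟨q, hq, rfl⟩, rfl⟩, rfl⟩
  have h2 : Q.El (gr id Y ∪ Θ) := by
    refine hdet Θ ?_ h1
    rintro _ ⟨q, hq, rfl⟩
    exact hΔ q hq
  refine Q.chain h2 hg ?_
  rintro p (hp | hp)
  · obtain ⟨hp1, hp2⟩ := mem_gr.1 hp
    exact ⟨p.1, Or.inl (mem_gr.2 ⟨hvY hp1, rfl⟩), Or.inl (mem_gr.2 ⟨hp1, hp2⟩)⟩
  · exact ⟨g p.2, Or.inr ⟨p, hp, rfl⟩, Or.inr ⟨p.2, ⟨p, hp, rfl⟩, rfl⟩⟩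

end Pool.Agent.QMX
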